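import Mathlib

/-!
Binomial coefficients of integers modulo a prime; the Vandermonde identity in three terms.
-/

set_option autoImplicit false

open Finset

namespace Pool.Agent.H52.DA

/-- `k * C(y, k) = y * C(y - 1, k - 1)` -/
lemma succ_mul_choose (y : ℤ) (k : ℕ) :
    ((k + 1 : ℕ) : ℤ) * Ring.choose y (k + 1) = y * Ring.choose (y - 1) k := by
  have h := Ring.choose_smul_choose y (n := k + 1) (k := 1) (by omega)
  simp only [Nat.choose_one_right, Ring.choose_one_right, Nat.add_sub_cancel, Nat.cast_one] at h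
  rw [← h, nsmul_eq_mul]

lemma dvd_choose_pow {p : ℕ} [hp : Fact p.Prime] (f : ℕ) (m : ℤ) (j : ℕ) (h0 : j ≠ 0)
    (hj : j < p ^ f) : (p : ℤ) ∣ Ring.choose ((p : ℤ) ^ f * m) j := by
  obtain ⟨k, rfl⟩ := Nat.exists_eq_succ_of_ne_zero h0
  have h := succ_mul_choose ((p : ℤ) ^ f * m) k
  have hdvd : ((p : ℤ) ^ f) ∣ ((k + 1 : ℕ) : ℤ) * Ring.choose ((p : ℤ) ^ f * m) (k + 1) := by
    rw [h, mul_assoc]
    exact dvd_mul_right _ _
  by_contra hcon
  have hcop : IsCoprime ((p : ℤ) ^ f) (Ring.choose ((p : ℤ) ^ f * m) (k + 1)) := by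
    apply IsCoprime.pow_left
    rw [Prime.coprime_iff_not_dvd (Nat.prime_iff_prime_int.1 hp.out)]
    exact hcon
  have h2 : ((p : ℤ) ^ f) ∣ ((k + 1 : ℕ) : ℤ) := hcop.dvd_of_dvd_mul_right hdvd
  have h3 : p ^ f ∣ k + 1 := by exact_mod_cast h2
  exact absurd (Nat.le_of_dvd (Nat.succ_pos k) h3) (not_le.2 hj)

/-- periodicity of binomial coefficients modulo `p` -/
lemma choose_periodic {p : ℕ} [hp : Fact p.Prime] (k : Type*) [Field k] [CharP k p] (f : ℕ)
    (z m : ℤ) (a : ℕ) (ha : a < p ^ f) :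
    ((Ring.choose (z + (p : ℤ) ^ f * m) a : ℤ) : k) = ((Ring.choose z a : ℤ) : k) := by
  rw [Ring.add_choose_eq a (Commute.all _ _)]
  rw [Int.cast_sum, Finset.sum_eq_single (a, 0)]
  · simp
  · rintro ⟨i, j⟩ hij hne
    rw [HasAntidiagonal.mem_antidiagonal] at hij
    simp only at hij ⊢
    have hj : j ≠ 0 := by
      rintro rfl
      apply hne
      simp only [add_zero] at hij
      rw [hij]
    obtain ⟨c, hc⟩ := dvd_choose_pow (p := p) f m j hj (by omega)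
    rw [hc]
    push_cast
    rw [CharP.cast_eq_zero]
    ring
  · intro h
    exact absurd (by simp) h

/-- the triples of natural numbers with sum `N` -/
def AN (N : ℕ) : Finset (Fin 3 → ℕ) := Finset.Nat.antidiagonalTuple 3 N

lemma mem_AN {N : ℕ} {α : Fin 3 → ℕ} : α ∈ AN N ↔ ∑ i, α i = N :=
  Finset.Nat.mem_antidiagonalTuple

lemma sum_AN {M : Type*} [AddCommMonoid M] (N : ℕ) (f : (Fin 3 → ℕ) → M) :
    ∑ α ∈ AN N, f α =
      ∑ x ∈ HasAntidiagonal.antidiagonal N, ∑ y ∈ HasAntidiagonal.antidiagonal x.2,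
        f ![x.1, y.1, y.2] := by
  rw [Finset.sum_sigma']
  refine Finset.sum_nbij' (fun α => ⟨(α 0, α 1 + α 2), (α 1, α 2)⟩)
    (fun z => ![z.1.1, z.2.1, z.2.2]) ?_ ?_ ?_ ?_ ?_
  · intro α hα
    rw [mem_AN, Fin.sum_univ_three] at hα
    simp only [mem_sigma, HasAntidiagonal.mem_antidiagonal, and_true]
    omega
  · rintro ⟨⟨a, b⟩, c, d⟩ hz
    simp only [mem_sigma, HasAntidiagonal.mem_antidiagonal] at hz
    rw [mem_AN, Fin.sum_univ_three]
    change a + c + d = N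
    omega
  · intro α _
    funext i
    fin_cases i <;> rfl
  · rintro ⟨⟨a, b⟩, c, d⟩ hz
    simp only [mem_sigma, HasAntidiagonal.mem_antidiagonal] at hz
    obtain ⟨h1, h2⟩ := hz
    subst h2
    rfl
  · intro α _
    congr 1
    funext i
    fin_cases i <;> rfl

/-- the Vandermonde identity in three terms -/
lemma vandermonde3 (w : Fin 3 → ℤ) (N : ℕ) :
    ∑ α ∈ AN N, ∏ i, Ring.choose (w i) (α i) = Ring.choose (∑ i, w i) N := by
  rw [sum_AN, Fin.sum_univ_three, add_assoc, Ring.add_choose_eq N (Commute.all _ _)]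
  refine Finset.sum_congr rfl fun x _ => ?_
  rw [Ring.add_choose_eq _ (Commute.all _ _), Finset.mul_sum]
  refine Finset.sum_congr rfl fun y _ => ?_
  rw [Fin.prod_univ_three]
  change Ring.choose (w 0) x.1 * Ring.choose (w 1) y.1 * Ring.choose (w 2) y.2 = _
  ring

lemma choose_add_self (r : ℤ) (a : ℕ) :
    Ring.choose (r + a) a = (-1) ^ a * Ring.choose (-r - 1) a := by
  have h := Ring.choose_neg (r + 1) a
  have e1 : -(r + 1) = -r - 1 := by ring
  have e2 : r + 1 + (a : ℤ) - 1 = r + a := by ring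
  rw [e1, e2] at h
  rw [h]
  have h2 : ((-1 : ℤ)) ^ a * (-1) ^ a = 1 := by
    rw [← mul_pow]; simp
  rw [Units.smul_def, smul_eq_mul, ← mul_assoc]
  have h3 : (((Int.negOnePow (a : ℤ)) : ℤˣ) : ℤ) = (-1) ^ a := by
    simp [Int.negOnePow]
  rw [h3, h2, one_mul]

/-- the second identity -/
lemma vandermonde3' (w : Fin 3 → ℤ) (N : ℕ) (hw : ∑ i, w i = 0) :
    ∑ α ∈ AN N, ∏ i, Ring.choose (w i + α i) (α i) = ((N + 2).choose N : ℕ) := by
  have h1 : ∑ α ∈ AN N, ∏ i, Ring.choose (w i + α i) (α i) =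
      (-1) ^ N * ∑ α ∈ AN N, ∏ i, Ring.choose (-w i - 1) (α i) := by
    rw [Finset.mul_sum]
    refine Finset.sum_congr rfl fun α hα => ?_
    rw [mem_AN] at hα
    rw [← hα, ← Finset.prod_pow_eq_pow_sum, ← Finset.prod_mul_distrib]
    exact Finset.prod_congr rfl fun i _ => choose_add_self _ _
  rw [h1, vandermonde3 (fun i => -w i - 1)]
  have h2 : ∑ i, (-w i - 1) = -(2 : ℤ) - 1 := by
    rw [Finset.sum_sub_distrib, Finset.sum_neg_distrib, hw]
    simp
  rw [h2, ← choose_add_self]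
  have h3 : (2 : ℤ) + (N : ℤ) = ((N + 2 : ℕ) : ℤ) := by push_cast; ring
  rw [h3, Ring.choose_natCast]

lemma choose_odd (e : ℕ) (he : 2 ≤ e) : (2 ^ e + 2).choose (2 ^ e) % 2 = 1 := by
  have h1 : (2 ^ e + 2).choose (2 ^ e) = (2 ^ e + 2).choose 2 := by
    rw [← Nat.choose_symm_add]
  rw [h1, Nat.choose_two_right]
  obtain ⟨d, rfl⟩ : ∃ d, e = d + 2 := ⟨e - 2, by omega⟩
  have h2 : (2 ^ (d + 2) + 2) * (2 ^ (d + 2) + 2 - 1) / 2 =
      (2 * 2 ^ d + 1) * (4 * 2 ^ d + 1) := by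
    have h3 : (2 ^ (d + 2) + 2) * (2 ^ (d + 2) + 2 - 1) =
        2 * ((2 * 2 ^ d + 1) * (4 * 2 ^ d + 1)) := by
      have : 2 ^ (d + 2) + 2 - 1 = 4 * 2 ^ d + 1 := by
        rw [pow_add]
        omega
      rw [this, pow_add]
      ring
    rw [h3]
    exact Nat.mul_div_cancel_left _ (by norm_num)
  rw [h2]
  have h4 : (2 * 2 ^ d + 1) * (4 * 2 ^ d + 1) = 2 * (4 * 2 ^ d * 2 ^ d + 3 * 2 ^ d) + 1 := by ring
  rw [h4]
  omega

lemma choose_cast_eq_one (k : Type*) [Field k] [CharP k 2] (e : ℕ) (he : 2 ≤ e) :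
    (((2 ^ e + 2).choose (2 ^ e) : ℕ) : k) = 1 := by
  have h := choose_odd e he
  have h2 := Nat.div_add_mod ((2 ^ e + 2).choose (2 ^ e)) 2
  rw [← h2, h]
  push_cast
  rw [CharTwo.two_eq_zero]
  ring

end Pool.Agent.H52.DA
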