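import Pool.Graph.R_seed8.H835R3.Stmt
import Pool.Graph.R_seed8.W506.A

/-!
# The sheaf of differential operators, modules over it, D-affine schemes

Definitions used in the statement of the result on `MP_5ac764_ag`, Q2. The ring `O_X(V)` is denoted
`Sec V`, its restriction maps `rho`, and `Below U` is the type of the open subsets of `U`.
-/

set_option autoImplicit false

open CategoryTheory AlgebraicGeometry TopologicalSpace Opposite Limits

namespace Pool.Agent.H52.DA.Stm

open Pool.Agent.H835R3.Stmt (Sec rho Below Below.op Below.up)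

universe u

/-- The type of additive maps `O_X(V) → O_X(V)`. -/
def SecEnd {X : Scheme.{u}} (V : X.Opens) : Type u := AddMonoid.End (Sec V)

/-- The ring structure: pointwise addition and composition. -/
noncomputable instance instRingSecEnd {X : Scheme.{u}} (V : X.Opens) : Ring (SecEnd V) :=
  AddMonoid.End.instRing (M := Sec V)

/-- The value of an additive map. -/
noncomputable def SecEnd.ap {X : Scheme.{u}} {V : X.Opens} (f : SecEnd V) (s : Sec V) : Sec V :=
  (show AddMonoid.End (Sec V) from f) s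

/-- Families of additive maps `O_X(V) → O_X(V)`, one for each open `V ⊆ U`. -/
def EFam {X : Scheme.{u}} (U : X.Opens) : Type u := ∀ V : Below U, SecEnd V.op

noncomputable instance instRingEFam {X : Scheme.{u}} (U : X.Opens) : Ring (EFam U) :=
  Pi.ring

/-- The family `φ` is an endomorphism of the sheaf of abelian groups `O_X|_U` (it commutes with
restrictions) which is linear over `q`-th powers. -/
def IsPLin {X : Scheme.{u}} (q : ℕ) {U : X.Opens} (φ : EFam U) : Prop :=
  (∀ (V W : Below U) (h : W.op ≤ V.op) (s : Sec V.op), rho h ((φ V).ap s) = (φ W).ap (rho h s)) ∧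
  (∀ (V : Below U) (a s : Sec V.op), (φ V).ap (a ^ q * s) = a ^ q * (φ V).ap s)

/-- The family `φ` is a section of `D_X = ⋃_e End_{O_X^{p^e}}(O_X)` over `U`. -/
def IsDiffOp {X : Scheme.{u}} (p : ℕ) {U : X.Opens} (φ : EFam U) : Prop :=
  ∃ e : ℕ, IsPLin (p ^ e) φ

lemma isDiffOp_zero {X : Scheme.{u}} (p : ℕ) (U : X.Opens) : IsDiffOp p (0 : EFam U) := by
  refine ⟨0, fun V W h s => ?_, fun V a s => ?_⟩
  · exact map_zero (X.presheaf.map (homOfLE h).op).hom
  · exact (mul_zero _).symm

lemma isDiffOp_one {X : Scheme.{u}} (p : ℕ) (U : X.Opens) : IsDiffOp p (1 : EFam U) :=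
  ⟨0, fun _ _ _ _ => rfl, fun _ _ _ => rfl⟩

lemma IsDiffOp.neg {X : Scheme.{u}} {p : ℕ} {U : X.Opens} {φ : EFam U} (h : IsDiffOp p φ) :
    IsDiffOp p (-φ) := by
  obtain ⟨e, h1, h2⟩ := h
  refine ⟨e, fun V W hVW s => ?_, fun V a s => ?_⟩
  · refine (map_neg (X.presheaf.map (homOfLE hVW).op).hom ((φ V).ap s)).trans ?_
    exact congrArg (fun x : Sec W.op => -x) (h1 V W hVW s)
  · refine (congrArg (fun x : Sec V.op => -x) (h2 V a s)).trans ?_
    exact (mul_neg _ _).symm

lemma IsPLin.of_mul {X : Scheme.{u}} {q : ℕ} (r : ℕ) {U : X.Opens} {φ : EFam U}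
    (h : IsPLin q φ) : IsPLin (r * q) φ := by
  refine ⟨h.1, fun V a s => ?_⟩
  rw [pow_mul]
  exact h.2 V (a ^ r) s

lemma IsDiffOp.common {X : Scheme.{u}} {p : ℕ} {U : X.Opens} {φ ψ : EFam U} (h : IsDiffOp p φ)
    (h' : IsDiffOp p ψ) : ∃ e, IsPLin (p ^ e) φ ∧ IsPLin (p ^ e) ψ := by
  obtain ⟨e, he⟩ := h
  obtain ⟨e', he'⟩ := h'
  refine ⟨e + e', ?_, ?_⟩
  · rw [add_comm, pow_add]
    exact he.of_mul _
  · rw [pow_add]
    exact he'.of_mul _

lemma IsDiffOp.add {X : Scheme.{u}} {p : ℕ} {U : X.Opens} {φ ψ : EFam U} (h : IsDiffOp p φ)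
    (h' : IsDiffOp p ψ) : IsDiffOp p (φ + ψ) := by
  obtain ⟨e, ⟨h1, h2⟩, ⟨h3, h4⟩⟩ := h.common h'
  refine ⟨e, fun V W hVW s => ?_, fun V a s => ?_⟩
  · refine (map_add (X.presheaf.map (homOfLE hVW).op).hom ((φ V).ap s) ((ψ V).ap s)).trans ?_
    exact congrArg₂ (fun x y : Sec W.op => x + y) (h1 V W hVW s) (h3 V W hVW s)
  · refine (congrArg₂ (fun x y : Sec V.op => x + y) (h2 V a s) (h4 V a s)).trans ?_
    exact (mul_add _ _ _).symm

lemma IsDiffOp.mul {X : Scheme.{u}} {p : ℕ} {U : X.Opens} {φ ψ : EFam U} (h : IsDiffOp p φ)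
    (h' : IsDiffOp p ψ) : IsDiffOp p (φ * ψ) := by
  obtain ⟨e, ⟨h1, h2⟩, ⟨h3, h4⟩⟩ := h.common h'
  refine ⟨e, fun V W hVW s => ?_, fun V a s => ?_⟩
  · exact (h1 V W hVW ((ψ V).ap s)).trans (congrArg (fun x => (φ W).ap x) (h3 V W hVW s))
  · exact (congrArg (fun x => (φ V).ap x) (h4 V a s)).trans (h2 V a ((ψ V).ap s))

/-- The ring of sections over `U` of the sheaf of differential operators `D_X`, as a subring of the
ring of families. -/
noncomputable def dSub {X : Scheme.{u}} (p : ℕ) (U : X.Opens) : Subring (EFam U) where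
  carrier := {φ | IsDiffOp p φ}
  zero_mem' := isDiffOp_zero p U
  one_mem' := isDiffOp_one p U
  neg_mem' := IsDiffOp.neg
  add_mem' := IsDiffOp.add
  mul_mem' := IsDiffOp.mul

/-- The ring `D_X(U)` of sections over `U` of the sheaf of differential operators
`D_X = ⋃_e End_{O_X^{p^e}}(O_X)`. -/
def DD {X : Scheme.{u}} (p : ℕ) (U : X.Opens) : Type u := dSub p U

noncomputable instance instRingDD {X : Scheme.{u}} (p : ℕ) (U : X.Opens) : Ring (DD p U) :=
  (dSub p U).toRing

/-- The family of a section of `D_X`. -/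
noncomputable def DD.fam {X : Scheme.{u}} {p : ℕ} {U : X.Opens} (P : DD p U) : EFam U := P.1

lemma DD.prop {X : Scheme.{u}} {p : ℕ} {U : X.Opens} (P : DD p U) : IsDiffOp p P.fam := P.2

/-- A section of `D_X` from a family. -/
def DD.mk {X : Scheme.{u}} {p : ℕ} {U : X.Opens} (φ : EFam U) (h : IsDiffOp p φ) : DD p U := ⟨φ, h⟩

/-- The restriction of families. -/
noncomputable def famRes {X : Scheme.{u}} {U U' : X.Opens} (h : U' ≤ U) (φ : EFam U) : EFam U' :=
  fun V => φ (V.up h)

lemma IsDiffOp.res {X : Scheme.{u}} {p : ℕ} {U U' : X.Opens} (h : U' ≤ U) {φ : EFam U}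
    (hφ : IsDiffOp p φ) : IsDiffOp p (famRes h φ) := by
  obtain ⟨e, h1, h2⟩ := hφ
  exact ⟨e, fun V W hVW s => h1 (V.up h) (W.up h) hVW s, fun V a s => h2 (V.up h) a s⟩

/-- The restriction map `D_X(U) → D_X(U')` for `U' ⊆ U`. -/
noncomputable def DD.res {X : Scheme.{u}} {p : ℕ} {U U' : X.Opens} (h : U' ≤ U) (P : DD p U) :
    DD p U' :=
  DD.mk (famRes h P.fam) (P.prop.res h)

/-- Multiplication by an element of `O_X(V)`. -/
noncomputable def mulEnd {X : Scheme.{u}} {V : X.Opens} (f : Sec V) : SecEnd V :=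
  (AddMonoidHom.mulLeft f : AddMonoid.End (Sec V))

/-- Multiplication by the restrictions of a function `f ∈ O_X(U)`. -/
noncomputable def mulFam {X : Scheme.{u}} {U : X.Opens} (f : Sec U) : EFam U :=
  fun V => mulEnd (rho V.2 f)

lemma isDiffOp_mulFam {X : Scheme.{u}} (p : ℕ) {U : X.Opens} (f : Sec U) :
    IsDiffOp p (mulFam f) := by
  refine ⟨0, fun V W h s => ?_, fun V a s => ?_⟩
  · refine (map_mul (X.presheaf.map (homOfLE h).op).hom (rho V.2 f) s).trans ?_
    refine congrArg (fun x : Sec W.op => x * rho h s) ?_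
    change (X.presheaf.map (homOfLE V.2).op ≫ X.presheaf.map (homOfLE h).op) f =
      X.presheaf.map (homOfLE W.2).op f
    rw [← Functor.map_comp]
    rfl
  · exact mul_left_comm _ _ _

/-- The inclusion `O_X(U) → D_X(U)`: multiplication by a function. -/
noncomputable def DD.ofFun {X : Scheme.{u}} (p : ℕ) {U : X.Opens} (f : Sec U) : DD p U :=
  DD.mk (mulFam f) (isDiffOp_mulFam p f)

/-- The abelian group `M(U)` of sections of a module `M`. -/
def MSec {X : Scheme.{u}} (M : X.Modules) (U : X.Opens) : Type u := Γ(M, U)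

noncomputable instance instAddCommGroupMSec {X : Scheme.{u}} (M : X.Modules) (U : X.Opens) :
    AddCommGroup (MSec M U) :=
  (M.presheaf.obj (op U)).str

noncomputable instance instModuleMSec {X : Scheme.{u}} (M : X.Modules) (U : X.Opens) :
    Module (Sec U) (MSec M U) :=
  (M.val.obj (op U)).isModule

/-- The restriction of sections of a module. -/
noncomputable def mRes {X : Scheme.{u}} {M : X.Modules} {U V : X.Opens} (h : V ≤ U)
    (m : MSec M U) : MSec M V :=
  (M.presheaf.map (homOfLE h).op).hom m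

/-- The type of additive maps `M(U) → M(U)`. -/
def MEnd {X : Scheme.{u}} (M : X.Modules) (U : X.Opens) : Type u := AddMonoid.End (MSec M U)

/-- The ring structure: pointwise addition and composition. -/
noncomputable instance instRingMEnd {X : Scheme.{u}} (M : X.Modules) (U : X.Opens) :
    Ring (MEnd M U) :=
  AddMonoid.End.instRing (M := MSec M U)

/-- The value of an additive map. -/
noncomputable def MEnd.ap {X : Scheme.{u}} {M : X.Modules} {U : X.Opens} (f : MEnd M U)
    (m : MSec M U) : MSec M U :=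
  (show AddMonoid.End (MSec M U) from f) m

/-- The structure of a left `D_X`-module on the `O_X`-module `M`, extending the structure of
`O_X`-module: ring homomorphisms `D_X(U) → End(M(U))`, compatible with restrictions, such that the
operator of multiplication by `f` acts as the scalar `f`. -/
structure DModule {X : Scheme.{u}} (p : ℕ) (M : X.Modules) where
  /-- the action -/
  act (U : X.Opens) : DD p U →+* MEnd M U
  act_res (U V : X.Opens) (h : V ≤ U) (P : DD p U) (m : MSec M U) :
    mRes h ((act U P).ap m) = (act V (P.res h)).ap (mRes h m)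
  act_ofFun (U : X.Opens) (f : Sec U) (m : MSec M U) : (act U (DD.ofFun p f)).ap m = f • m

/-- The whole space. -/
def whole (X : Scheme.{u}) : X.Opens := ⊤

lemma le_whole {X : Scheme.{u}} (V : X.Opens) : V ≤ whole X := le_top

/-- The `O_X`-module `M` is generated by its global sections: locally each section is a combination
of restrictions of global sections with coefficients in `O_X`. -/
def GeneratedByGlobalSections {X : Scheme.{u}} (M : X.Modules) : Prop :=
  ∀ (U : X.Opens) (m : MSec M U) (x : X), x ∈ U → ∃ (V : X.Opens) (h : V ≤ U), x ∈ V ∧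
    mRes h m ∈ Submodule.span (Sec V) (Set.range (mRes (M := M) (le_whole V)))

/-- The underlying sheaf of abelian groups of a module. -/
noncomputable def abSheaf {X : Scheme.{u}} (M : X.Modules) :
    Sheaf (Opens.grothendieckTopology X) AddCommGrpCat.{u} :=
  (SheafOfModules.toSheaf X.ringCatSheaf).obj M

/-- `H^i(X, M) = 0`, where `H^i(X, M)` is the cohomology of the underlying sheaf of abelian
groups. -/
def CohVanish {X : Scheme.{u}} (M : X.Modules) (i : ℕ) : Prop :=
  Subsingleton (Sheaf.H (abSheaf M) i)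

/-- The scheme `X` is `D`-affine (in characteristic `p`): every left `D_X`-module `M` which is
quasi-coherent over `O_X` is generated by its global sections (even over `O_X`) and satisfies
`H^i(X, M) = 0` for all `i > 0`. -/
def IsDAffine (X : Scheme.{u}) (p : ℕ) : Prop :=
  ∀ M : X.Modules, M.IsQuasicoherent → Nonempty (DModule p M) →
    GeneratedByGlobalSections M ∧ ∀ i : ℕ, 0 < i → CohVanish M i

end Pool.Agent.H52.DA.Stm
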