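import Pool.Agent.H52.DA.DGen
import Pool.Agent.H52.DA.Stm

/-!
Comparison of the two forms of the definition of `D`-affine schemes.
-/

set_option autoImplicit false

open CategoryTheory AlgebraicGeometry TopologicalSpace Opposite
open Pool.Agent.H835R3 Pool.Agent.W506

attribute [local instance] MvPolynomial.gradedAlgebra

namespace Pool.Agent.H52.DA

set_option backward.isDefEq.respectTransparency false

universe u

variable {X : Scheme.{u}} {p : ℕ} {M : X.Modules}

/-- comparison of the rings of differential operators -/
def toDD {U : X.Opens} (P : DX X p U) : Stm.DD p U :=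
  Stm.DD.mk (X := X) (U := U) P.1 (by
    obtain ⟨e, he⟩ := P.2.2
    exact ⟨e, P.2.1, he⟩)

lemma toDD_one (U : X.Opens) : toDD (1 : DX X p U) = 1 := rfl
lemma toDD_zero (U : X.Opens) : toDD (0 : DX X p U) = 0 := rfl
lemma toDD_mul {U : X.Opens} (P Q : DX X p U) : toDD (P * Q) = toDD P * toDD Q := rfl
lemma toDD_add {U : X.Opens} (P Q : DX X p U) : toDD (P + Q) = toDD P + toDD Q := rfl

lemma toDD_res {U V : X.Opens} (h : V ≤ U) (P : DX X p U) :
    toDD (DX.res h P) = (toDD P).res h := rfl

lemma toDD_mulBy {U : X.Opens} (f : Γ(X, U)) : toDD (DX.mulBy p f) = Stm.DD.ofFun p f := rfl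

/-- comparison of the structures of modules over the differential operators -/
noncomputable def toOld (S : Stm.DModule p M) : DModule p M where
  act U :=
    { toFun := fun P => (S.act U (toDD P) : Stm.MEnd M U)
      map_one' := by
        rw [toDD_one, map_one]
      map_mul' := fun P Q => by
        rw [toDD_mul, map_mul]
      map_zero' := by
        rw [toDD_zero, map_zero]
      map_add' := fun P Q => by
        rw [toDD_add, map_add] }
  act_res U V h P m := S.act_res U V h (toDD P) m
  act_mulBy U f m := S.act_ofFun U f m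

theorem isDAffine_of_old (h : IsDAffine X p) : Stm.IsDAffine X p := by
  intro M hM ⟨S⟩
  obtain ⟨h1, h2⟩ := h M hM ⟨toOld S⟩
  exact ⟨h1, h2⟩

end Pool.Agent.H52.DA
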