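import Pool.Graph.R_seed8.W506.L1

/-!
Čech cochains for three affine charts, twisted by transition functions.
-/

set_option autoImplicit false

universe u

open CategoryTheory Limits Opposite TopologicalSpace AlgebraicGeometry
open Pool.Agent.W506

namespace Pool.Agent.H52.DA

set_option backward.isDefEq.respectTransparency false

/-- three affine charts with transition functions -/
structure Tw (X : Scheme.{u}) where
  /-- the charts -/
  U : Fin 3 → X.Opens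
  /-- the transition functions -/
  g : ∀ i j, Γ(X, U i ⊓ U j)
  aff : ∀ i, IsAffineOpen (U i)
  aff2 : ∀ i j, IsAffineOpen (U i ⊓ U j)
  aff3 : IsAffineOpen ((U 0 ⊓ U 1) ⊓ U 2)
  cover : ⨆ i, U i = ⊤
  g_self : ∀ i, g i i = 1
  g_cocycle : ∀ i j l, ro (le_inf (inf_le_left.trans inf_le_left) inf_le_right :
        (U i ⊓ U j) ⊓ U l ≤ U i ⊓ U l) (g i l) =
      ro (inf_le_left : (U i ⊓ U j) ⊓ U l ≤ U i ⊓ U j) (g i j) *
      ro (le_inf (inf_le_left.trans inf_le_right) inf_le_right :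
        (U i ⊓ U j) ⊓ U l ≤ U j ⊓ U l) (g j l)

variable {X : Scheme.{u}} (D : Tw X)

/-- the triple intersection -/
abbrev Tw.W : X.Opens := (D.U 0 ⊓ D.U 1) ⊓ D.U 2

lemma Tw.h01 : D.W ≤ D.U 0 ⊓ D.U 1 := inf_le_left
lemma Tw.h02 : D.W ≤ D.U 0 ⊓ D.U 2 := le_inf (inf_le_left.trans inf_le_left) inf_le_right
lemma Tw.h12 : D.W ≤ D.U 1 ⊓ D.U 2 := le_inf (inf_le_left.trans inf_le_right) inf_le_right

/-- the first Čech cohomology vanishes -/
def CechOne (B : X.Modules) : Prop :=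
  ∀ (a : Γ(B, D.U 0 ⊓ D.U 1)) (b : Γ(B, D.U 0 ⊓ D.U 2)) (c : Γ(B, D.U 1 ⊓ D.U 2)),
    rs B D.h12 c - rs B D.h02 b + ro D.h12 (D.g 1 2) • rs B D.h01 a = 0 →
    ∃ x : ∀ i, Γ(B, D.U i),
      a = rs B inf_le_right (x 1) - D.g 0 1 • rs B inf_le_left (x 0) ∧
      b = rs B inf_le_right (x 2) - D.g 0 2 • rs B inf_le_left (x 0) ∧
      c = rs B inf_le_right (x 2) - D.g 1 2 • rs B inf_le_left (x 1)

/-- the second Čech cohomology vanishes -/
def CechTwo (B : X.Modules) : Prop :=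
  ∀ w : Γ(B, D.W), ∃ (a : Γ(B, D.U 0 ⊓ D.U 1)) (b : Γ(B, D.U 0 ⊓ D.U 2))
    (c : Γ(B, D.U 1 ⊓ D.U 2)),
    w = rs B D.h12 c - rs B D.h02 b + ro D.h12 (D.g 1 2) • rs B D.h01 a

lemma cechTwo_of_flasque {B : X.Modules} (hB : Flasque B) : CechTwo D B := by
  intro w
  obtain ⟨c, hc⟩ := hB _ _ D.h12 w
  exact ⟨0, 0, c, by rw [hc, map_zero, map_zero, smul_zero, sub_zero, add_zero]⟩

lemma cechOne_of_flasque {B : X.Modules} (hB : Flasque B) : CechOne D B := by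
  intro a b c h
  obtain ⟨x1, hx1⟩ := hB (D.U 1) (D.U 0 ⊓ D.U 1) inf_le_right a
  have hcompat : rs B (inf_le_left : (D.U 0 ⊓ D.U 2) ⊓ (D.U 1 ⊓ D.U 2) ≤ D.U 0 ⊓ D.U 2) b =
      rs B (inf_le_right : (D.U 0 ⊓ D.U 2) ⊓ (D.U 1 ⊓ D.U 2) ≤ D.U 1 ⊓ D.U 2)
        (c + D.g 1 2 • rs B inf_le_left x1) := by
    have hle : (D.U 0 ⊓ D.U 2) ⊓ (D.U 1 ⊓ D.U 2) ≤ D.W :=
      le_inf (le_inf (inf_le_left.trans inf_le_left) (inf_le_right.trans inf_le_left))
        (inf_le_left.trans inf_le_right)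
    have h1 := congrArg (rs B hle) h
    rw [map_zero, map_add, map_sub, rs_smul, rs_rs, rs_rs, rs_rs, ro_ro, ← hx1, rs_rs] at h1
    rw [map_add, rs_smul, rs_rs]
    have h2 : rs B (inf_le_left : (D.U 0 ⊓ D.U 2) ⊓ (D.U 1 ⊓ D.U 2) ≤ D.U 0 ⊓ D.U 2) b =
        rs B (hle.trans D.h12) c + ro (hle.trans D.h12) (D.g 1 2) •
          rs B ((hle.trans D.h01).trans inf_le_right) x1 := by
      rw [← sub_eq_zero]
      rw [← neg_eq_zero, ← h1]
      abel
    exact h2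
  obtain ⟨r, hr1, hr2⟩ := exists_glue₂ (M := B) (le_sup_left : D.U 0 ⊓ D.U 2 ≤ _)
    (le_sup_right : D.U 1 ⊓ D.U 2 ≤ (D.U 0 ⊓ D.U 2) ⊔ (D.U 1 ⊓ D.U 2)) le_rfl _ _ hcompat
  obtain ⟨x2, hx2⟩ := hB (D.U 2) ((D.U 0 ⊓ D.U 2) ⊔ (D.U 1 ⊓ D.U 2))
    (sup_le inf_le_right inf_le_right) r
  refine ⟨fun i => match i with
    | 0 => 0
    | 1 => x1
    | 2 => x2, ?_, ?_, ?_⟩
  · change a = rs B inf_le_right x1 - D.g 0 1 • rs B inf_le_left 0
    rw [map_zero, smul_zero, sub_zero, hx1]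
  · change b = rs B inf_le_right x2 - D.g 0 2 • rs B inf_le_left 0
    rw [map_zero, smul_zero, sub_zero, ← hr1, ← hx2, rs_rs]
  · change c = rs B inf_le_right x2 - D.g 1 2 • rs B inf_le_left x1
    rw [← hx2, rs_rs] at hr2
    rw [hr2]
    abel

lemma ap_zero_comp (S : ShortComplex X.Modules) (V : X.Opens) (a : Γ(S.X₁, V)) :
    ap S.g V (ap S.f V a) = 0 := by
  rw [← ap_comp, S.zero]
  rfl

section coker

variable (S : ShortComplex X.Modules) (hS : S.ShortExact) (h1 : SumOn S.X₁ ⊤)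
include hS h1

lemma cechTwo_coker (h2 : CechTwo D S.X₂) : CechTwo D S.X₃ := by
  intro w
  obtain ⟨w', rfl⟩ := ap_surjective_of_sumOn S hS h1 D.aff3 le_top w
  obtain ⟨a, b, c, rfl⟩ := h2 w'
  refine ⟨ap S.g _ a, ap S.g _ b, ap S.g _ c, ?_⟩
  rw [map_add, map_sub, map_smul, ap_rs, ap_rs, ap_rs]

lemma cechOne_coker (h1' : CechTwo D S.X₁) (h2 : CechOne D S.X₂) : CechOne D S.X₃ := by
  have := hS.mono_f
  intro a b c h
  obtain ⟨a', rfl⟩ := ap_surjective_of_sumOn S hS h1 (D.aff2 0 1) le_top a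
  obtain ⟨b', rfl⟩ := ap_surjective_of_sumOn S hS h1 (D.aff2 0 2) le_top b
  obtain ⟨c', rfl⟩ := ap_surjective_of_sumOn S hS h1 (D.aff2 1 2) le_top c
  obtain ⟨w, hw⟩ := ap_exact S hS.exact D.W
    (rs S.X₂ D.h12 c' - rs S.X₂ D.h02 b' + ro D.h12 (D.g 1 2) • rs S.X₂ D.h01 a') (by
      rw [map_add, map_sub, map_smul, ap_rs, ap_rs, ap_rs]
      exact h)
  obtain ⟨a₁, b₁, c₁, rfl⟩ := h1' w
  obtain ⟨x, hxa, hxb, hxc⟩ := h2 (a' - ap S.f _ a₁) (b' - ap S.f _ b₁) (c' - ap S.f _ c₁) (by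
    rw [map_sub, map_sub, map_sub, ← ap_rs, ← ap_rs, ← ap_rs]
    rw [map_add, map_sub, map_smul] at hw
    have h3 : rs S.X₂ D.h12 c' - ap S.f D.W (rs S.X₁ D.h12 c₁) -
        (rs S.X₂ D.h02 b' - ap S.f D.W (rs S.X₁ D.h02 b₁)) +
        ro D.h12 (D.g 1 2) • (rs S.X₂ D.h01 a' - ap S.f D.W (rs S.X₁ D.h01 a₁)) =
        (rs S.X₂ D.h12 c' - rs S.X₂ D.h02 b' + ro D.h12 (D.g 1 2) • rs S.X₂ D.h01 a') -
        (ap S.f D.W (rs S.X₁ D.h12 c₁) - ap S.f D.W (rs S.X₁ D.h02 b₁) +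
          ro D.h12 (D.g 1 2) • ap S.f D.W (rs S.X₁ D.h01 a₁)) := by
      rw [smul_sub]
      abel
    rw [h3, ← hw, sub_self])
  refine ⟨fun i => ap S.g _ (x i), ?_, ?_, ?_⟩
  · have h4 := congrArg (ap S.g _) hxa
    rw [map_sub, ap_zero_comp, sub_zero, map_sub, map_smul, ap_rs, ap_rs] at h4
    exact h4
  · have h4 := congrArg (ap S.g _) hxb
    rw [map_sub, ap_zero_comp, sub_zero, map_sub, map_smul, ap_rs, ap_rs] at h4
    exact h4
  · have h4 := congrArg (ap S.g _) hxc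
    rw [map_sub, ap_zero_comp, sub_zero, map_sub, map_smul, ap_rs, ap_rs] at h4
    exact h4

end coker

/-- a family compatible on three of the intersections is compatible -/
lemma compat_of_three {M : X.Modules} (t : ∀ j, Γ(M, D.U j))
    (h01 : rs M (inf_le_right : D.U 0 ⊓ D.U 1 ≤ D.U 1) (t 1) =
      D.g 0 1 • rs M (inf_le_left : D.U 0 ⊓ D.U 1 ≤ D.U 0) (t 0))
    (h02 : rs M (inf_le_right : D.U 0 ⊓ D.U 2 ≤ D.U 2) (t 2) =
      D.g 0 2 • rs M (inf_le_left : D.U 0 ⊓ D.U 2 ≤ D.U 0) (t 0))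
    (h12 : rs M (inf_le_right : D.U 1 ⊓ D.U 2 ≤ D.U 2) (t 2) =
      D.g 1 2 • rs M (inf_le_left : D.U 1 ⊓ D.U 2 ≤ D.U 1) (t 1)) :
    Compat D.U D.g t := by
  have hsymm : ∀ i j, rs M (inf_le_right : D.U i ⊓ D.U j ≤ D.U j) (t j) =
      D.g i j • rs M (inf_le_left : D.U i ⊓ D.U j ≤ D.U i) (t i) →
      rs M (inf_le_right : D.U j ⊓ D.U i ≤ D.U i) (t i) =
      D.g j i • rs M (inf_le_left : D.U j ⊓ D.U i ≤ D.U j) (t j) := by
    intro i j h
    have hle : D.U j ⊓ D.U i ≤ D.U i ⊓ D.U j := le_inf inf_le_right inf_le_left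
    have h1 := congrArg (rs M hle) h
    rw [rs_smul, rs_rs, rs_rs] at h1
    have hle3 : D.U j ⊓ D.U i ≤ (D.U j ⊓ D.U i) ⊓ D.U j := le_inf le_rfl inf_le_left
    have h2 := congrArg (ro hle3) (D.g_cocycle j i j)
    rw [map_mul, ro_ro, ro_ro, ro_ro, D.g_self, map_one] at h2
    have h3 : rs M (inf_le_left : D.U j ⊓ D.U i ≤ D.U j) (t j) =
        ro hle (D.g i j) • rs M (inf_le_right : D.U j ⊓ D.U i ≤ D.U i) (t i) := h1
    rw [h3, smul_smul]
    have h4 : D.g j i * ro hle (D.g i j) = 1 := by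
      rw [ro_refl] at h2
      exact h2.symm
    rw [h4, one_smul]
  have hself : ∀ i, rs M (inf_le_right : D.U i ⊓ D.U i ≤ D.U i) (t i) =
      D.g i i • rs M (inf_le_left : D.U i ⊓ D.U i ≤ D.U i) (t i) := by
    intro i
    rw [D.g_self, one_smul]
  intro i j
  fin_cases i <;> fin_cases j
  · exact hself 0
  · exact h01
  · exact h02
  · exact hsymm 0 1 h01
  · exact hself 1
  · exact h12
  · exact hsymm 0 2 h02
  · exact hsymm 1 2 h12
  · exact hself 2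

/-- lifting compatible families -/
theorem lift_compat (S : ShortComplex X.Modules) (hS : S.ShortExact) (h1 : SumOn S.X₁ ⊤)
    (h1' : CechOne D S.X₁) (t : ∀ j, Γ(S.X₃, D.U j)) (ht : Compat D.U D.g t) :
    ∃ t' : ∀ j, Γ(S.X₂, D.U j), Compat D.U D.g t' ∧ ∀ j, ap S.g _ (t' j) = t j := by
  have := hS.mono_f
  choose s hs using fun j => ap_surjective_of_sumOn S hS h1 (D.aff j) le_top (t j)
  have hd : ∀ i j, ∃ z : Γ(S.X₁, D.U i ⊓ D.U j), ap S.f _ z =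
      rs S.X₂ inf_le_right (s j) - D.g i j • rs S.X₂ inf_le_left (s i) := by
    intro i j
    apply ap_exact S hS.exact
    rw [map_sub, map_smul, ap_rs, ap_rs, hs, hs, ht i j, sub_self]
  obtain ⟨a, ha⟩ := hd 0 1
  obtain ⟨b, hb⟩ := hd 0 2
  obtain ⟨c, hc⟩ := hd 1 2
  obtain ⟨x, hxa, hxb, hxc⟩ := h1' a b c (by
    apply ap_injective S.f
    rw [map_add, map_sub, map_smul, ap_rs, ap_rs, ap_rs, ha, hb, hc, map_zero]
    simp only [map_sub, rs_smul, rs_rs]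
    have h3 : ro D.h02 (D.g 0 2) = ro D.h01 (D.g 0 1) * ro D.h12 (D.g 1 2) := D.g_cocycle 0 1 2
    rw [h3, smul_sub, smul_smul, mul_comm (ro D.h12 (D.g 1 2))]
    abel)
  refine ⟨fun j => s j - ap S.f _ (x j), ?_, ?_⟩
  · apply compat_of_three D
    · have h4 := congrArg (ap S.f _) hxa
      rw [ha, map_sub, map_smul, ap_rs, ap_rs] at h4
      rw [map_sub, map_sub, smul_sub, ← sub_eq_zero]
      rw [← sub_eq_zero] at h4
      rw [← h4]
      abel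
    · have h4 := congrArg (ap S.f _) hxb
      rw [hb, map_sub, map_smul, ap_rs, ap_rs] at h4
      rw [map_sub, map_sub, smul_sub, ← sub_eq_zero]
      rw [← sub_eq_zero] at h4
      rw [← h4]
      abel
    · have h4 := congrArg (ap S.f _) hxc
      rw [hc, map_sub, map_smul, ap_rs, ap_rs] at h4
      rw [map_sub, map_sub, smul_sub, ← sub_eq_zero]
      rw [← sub_eq_zero] at h4
      rw [← h4]
      abel
  · intro j
    rw [map_sub, ap_zero_comp, sub_zero, hs]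

/-- the class of modules with vanishing higher cohomology -/
structure KK (B : X.Modules) : Prop where
  sum : SumOn B ⊤
  one : CechOne D B
  two : CechTwo D B

lemma kk_of_flasque {B : X.Modules} (hB : Flasque B) : KK D B :=
  ⟨sumOn_of_flasque hB _, cechOne_of_flasque D hB, cechTwo_of_flasque D hB⟩

lemma KK.coker (S : ShortComplex X.Modules) (hS : S.ShortExact) (h1 : KK D S.X₁)
    (h2 : KK D S.X₂) : KK D S.X₃ :=
  ⟨sumOn_coker S hS h1.sum h2.sum, cechOne_coker D S hS h1.sum h1.two h2.one,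
    cechTwo_coker D S hS h1.sum h2.two⟩

end Pool.Agent.H52.DA
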