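import Pool.Graph.R_seed8.H835R3.Ring
import Pool.Agent.H52.DA.Binom

/-!
Divided power operators on the Laurent polynomials of degree zero in three variables, written as
Laurent polynomials in two variables.
-/

set_option autoImplicit false

open AddMonoidAlgebra Pool.Agent.H835R3 Finset

namespace Pool.Agent.H52.DA

/-- the exponents in three variables -/
def hu (u : ℤ × ℤ) : Fin 3 → ℤ := ![-u.1 - u.2, u.1, u.2]

/-- the pair of exponents of a triple -/
def uh (v : Fin 3 → ℤ) : ℤ × ℤ := (v 1, v 2)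

lemma hu_zero_apply (u : ℤ × ℤ) : hu u 0 = -u.1 - u.2 := rfl
lemma hu_one_apply (u : ℤ × ℤ) : hu u 1 = u.1 := rfl
lemma hu_two_apply (u : ℤ × ℤ) : hu u 2 = u.2 := rfl

lemma hu_add (u v : ℤ × ℤ) : hu (u + v) = hu u + hu v := by
  funext i
  fin_cases i
  · change -(u.1 + v.1) - (u.2 + v.2) = (-u.1 - u.2) + (-v.1 - v.2)
    ring
  · rfl
  · rfl

lemma hu_nsmul (n : ℕ) (u : ℤ × ℤ) (i : Fin 3) : hu (n • u) i = n * hu u i := by
  fin_cases i
  · change -(n • u.1) - (n • u.2) = n * (-u.1 - u.2)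
    rw [nsmul_eq_mul, nsmul_eq_mul]
    ring
  · change n • u.1 = n * u.1
    rw [nsmul_eq_mul]
  · change n • u.2 = n * u.2
    rw [nsmul_eq_mul]

lemma hu_sum (u : ℤ × ℤ) : ∑ i, hu u i = 0 := by
  rw [Fin.sum_univ_three, hu_zero_apply, hu_one_apply, hu_two_apply]
  ring

lemma uh_hu (u : ℤ × ℤ) : uh (hu u) = u := rfl

lemma hu_uh (v : Fin 3 → ℤ) (h : ∑ i, v i = 0) : hu (uh v) = v := by
  rw [Fin.sum_univ_three] at h
  funext i
  fin_cases i
  · change -(v 1) - (v 2) = v 0
    linarith
  · rfl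
  · rfl

lemma uh_add (v w : Fin 3 → ℤ) : uh (v + w) = uh v + uh w := rfl

lemma hu_injective : Function.Injective hu := fun u v h => by
  rw [← uh_hu u, ← uh_hu v, h]

/-- the cone of the exponents which are nonnegative outside `T` -/
def cone3 (T : Finset (Fin 3)) : Set (ℤ × ℤ) := {u | ∀ i, i ∉ T → 0 ≤ hu u i}

lemma cone3_mono {T T' : Finset (Fin 3)} (h : T ⊆ T') : cone3 T ⊆ cone3 T' :=
  fun _ hu i hi => hu i (fun h' => hi (h h'))

lemma coneSub_mono {k : Type} [Field k] {C C' : Set (ℤ × ℤ)} (h : C ⊆ C') {l : Lau k}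
    (hl : l ∈ coneSub k C) : l ∈ coneSub k C' := fun u hu => h (hl u hu)

/-- the vector `N e_j` -/
def ev (N : ℕ) (j : Fin 3) : Fin 3 → ℤ := fun i => if i = j then (N : ℤ) else 0

lemma ev_sum (N : ℕ) (j : Fin 3) : ∑ i, ev N j i = N := by
  simp [ev]

/-- the vector `α` as an integer vector -/
def iv (α : Fin 3 → ℕ) : Fin 3 → ℤ := fun i => (α i : ℤ)

lemma iv_sum {N : ℕ} {α : Fin 3 → ℕ} (h : α ∈ AN N) : ∑ i, iv α i = N := by
  rw [mem_AN] at h
  rw [← h]
  push_cast
  rfl

/-- the coefficients of the operators -/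
def dc (w : Fin 3 → ℤ) (α : Fin 3 → ℕ) : ℤ := ∏ i, Ring.choose (w i) (α i)

variable {k : Type} [Field k]

/-- the operator `f ↦ ∂^{[α]} (x_j ^ N f)` -/
noncomputable def dop (k : Type) [Field k] (N : ℕ) (j : Fin 3) (α : Fin 3 → ℕ) :
    Lau k →+ Lau k :=
  opHom (fun u => (singleAddHom (u + uh (ev N j - iv α))).comp
    (AddMonoidHom.mulLeft ((dc (hu u + ev N j) α : ℤ) : k)))

lemma dop_single (N : ℕ) (j : Fin 3) (α : Fin 3 → ℕ) (u : ℤ × ℤ) (a : k) :
    dop k N j α (single u a) =
      single (u + uh (ev N j - iv α)) (((dc (hu u + ev N j) α : ℤ) : k) * a) := by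
  unfold dop
  rw [opHom_single]
  rfl

lemma le_of_mem_AN {N : ℕ} {α : Fin 3 → ℕ} (h : α ∈ AN N) (i : Fin 3) : α i ≤ N := by
  rw [mem_AN] at h
  rw [← h]
  exact Finset.single_le_sum (f := α) (fun _ _ => Nat.zero_le _) (Finset.mem_univ i)

lemma dc_periodic (p : ℕ) [Fact p.Prime] [CharP k p] (f : ℕ) (w v : Fin 3 → ℤ) (α : Fin 3 → ℕ)
    (hα : ∀ i, α i < p ^ f) :
    ((dc (w + fun i => (p : ℤ) ^ f * v i) α : ℤ) : k) = ((dc w α : ℤ) : k) := by
  unfold dc
  rw [Int.cast_prod, Int.cast_prod]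
  exact Finset.prod_congr rfl fun i _ => choose_periodic k f _ _ _ (hα i)

lemma dop_isSemi (p : ℕ) [Fact p.Prime] [CharP k p] (f : ℕ) (N : ℕ) (j : Fin 3) (α : Fin 3 → ℕ)
    (hα : ∀ i, α i < p ^ f) : IsSemi (p ^ f) (p ^ f) (dop k N j α) := by
  apply isSemi_of_single p f f
  intro w u a b
  rw [single_pow, single_mul_single, dop_single, dop_single, single_mul_single]
  have h1 : hu (p ^ f • w + u) + ev N j = (hu u + ev N j) + fun i => (p : ℤ) ^ f * hu w i := by
    rw [hu_add]
    funext i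
    simp only [Pi.add_apply, hu_nsmul, Nat.cast_pow]
    ring
  rw [h1, dc_periodic p f _ _ _ hα, add_assoc]
  congr 1
  ring

lemma choose_eq_zero_of_lt {z : ℤ} {a : ℕ} (h0 : 0 ≤ z) (h : z < a) : Ring.choose z a = 0 := by
  obtain ⟨m, rfl⟩ := Int.eq_ofNat_of_zero_le h0
  have h2 : Ring.choose ((m : ℕ) : ℤ) a = Nat.choose m a := Ring.choose_natCast m a
  rw [h2]
  have : m < a := by exact_mod_cast h
  rw [Nat.choose_eq_zero_of_lt this]
  rfl

lemma dop_mem {N : ℕ} (j : Fin 3) {α : Fin 3 → ℕ} (hα : α ∈ AN N) (T : Finset (Fin 3))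
    (hj : j ∈ T) (l : Lau k) (hl : l ∈ coneSub k (cone3 T)) :
    dop k N j α l ∈ coneSub k (cone3 T) := by
  apply opHom_mem_coneSub _ _ _ hl
  intro u hu' a
  by_cases h : ∀ i, i ∉ T → (α i : ℤ) ≤ hu u i
  · refine single_mem_coneSub ?_ _
    intro i hi
    have hsum : ∑ i, (ev N j - iv α) i = 0 := by
      rw [show ∑ i, (ev N j - iv α) i = ∑ i, ev N j i - ∑ i, iv α i from
        Finset.sum_sub_distrib _ _, ev_sum, iv_sum hα, sub_self]
    rw [hu_add, hu_uh _ hsum]
    have hij : i ≠ j := fun h' => hi (h' ▸ hj)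
    have := h i hi
    simp only [Pi.add_apply, Pi.sub_apply, ev, iv, if_neg hij]
    linarith
  · push Not at h
    obtain ⟨i, hi, hlt⟩ := h
    have hij : i ≠ j := fun h' => hi (h' ▸ hj)
    have h0 : dc (hu u + ev N j) α = 0 := by
      unfold dc
      apply Finset.prod_eq_zero (Finset.mem_univ i)
      apply choose_eq_zero_of_lt
      · simp only [Pi.add_apply, ev, if_neg hij, add_zero]
        exact hu' i hi
      · simp only [Pi.add_apply, ev, if_neg hij, add_zero]
        exact hlt
    have h1 : (singleAddHom (u + uh (ev N j - iv α))).comp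
        (AddMonoidHom.mulLeft ((dc (hu u + ev N j) α : ℤ) : k)) a = 0 := by
      rw [h0]
      change single _ (((0 : ℤ) : k) * a) = 0
      simp
    rw [h1]
    exact zero_mem _

/-- the Laurent monomial `x^v` of degree zero -/
noncomputable abbrev xm (k : Type) [Field k] (v : Fin 3 → ℤ) : Lau k := single (uh v) (1 : k)

lemma xm_mul_xm (v w : Fin 3 → ℤ) : xm k v * xm k w = xm k (v + w) := by
  rw [single_mul_single, one_mul]
  rfl

/-- change of chart -/
lemma dop_change (N : ℕ) (i j : Fin 3) (α : Fin 3 → ℕ) (l : Lau k) :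
    dop k N j α (xm k (ev N i - ev N j) * l) = dop k N i α l := by
  have h : (dop k N j α).comp (AddMonoidHom.mulLeft (xm k (ev N i - ev N j))) = dop k N i α := by
    apply AddMonoidAlgebra.addMonoidHom_ext
    intro u a
    change dop k N j α (xm k (ev N i - ev N j) * single u a) = _
    rw [single_mul_single, one_mul, dop_single, dop_single]
    have hs : ∑ l, (ev N i - ev N j) l = 0 := by
      rw [show ∑ l, (ev N i - ev N j) l = ∑ l, ev N i l - ∑ l, ev N j l from
        Finset.sum_sub_distrib _ _, ev_sum, ev_sum, sub_self]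
    have e1 : hu (uh (ev N i - ev N j) + u) + ev N j = hu u + ev N i := by
      rw [hu_add, hu_uh _ hs]
      abel
    have e2 : uh (ev N i - ev N j) + u + uh (ev N j - iv α) = u + uh (ev N i - iv α) := by
      rw [add_comm (uh (ev N i - ev N j)) u, add_assoc, ← uh_add]
      congr 2
      abel
    rw [e1, e2]
  exact DFunLike.congr_fun h l

/-- the first identity -/
lemma dop_sum_left (N : ℕ) (j : Fin 3) (l : Lau k) :
    ∑ α ∈ AN N, dop k N j α (xm k (iv α - ev N j) * l) = (((N + 2).choose N : ℕ) : Lau k) * l := by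
  have h : ∑ α ∈ AN N, (dop k N j α).comp (AddMonoidHom.mulLeft (xm k (iv α - ev N j))) =
      AddMonoidHom.mulLeft (((N + 2).choose N : ℕ) : Lau k) := by
    apply AddMonoidAlgebra.addMonoidHom_ext
    intro u a
    rw [AddMonoidHom.finsetSum_apply]
    have h1 : ∀ α ∈ AN N, ((dop k N j α).comp (AddMonoidHom.mulLeft (xm k (iv α - ev N j))))
        (single u a) = single u (((∏ i, Ring.choose (hu u i + α i) (α i) : ℤ) : k) * a) := by
      intro α hα
      change dop k N j α (xm k (iv α - ev N j) * single u a) = _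
      rw [single_mul_single, one_mul, dop_single]
      have hs : ∑ l, (iv α - ev N j) l = 0 := by
        rw [show ∑ l, (iv α - ev N j) l = ∑ l, iv α l - ∑ l, ev N j l from
          Finset.sum_sub_distrib _ _, ev_sum, iv_sum hα, sub_self]
      have e1 : hu (uh (iv α - ev N j) + u) + ev N j = hu u + iv α := by
        rw [hu_add, hu_uh _ hs]
        abel
      have e2 : uh (iv α - ev N j) + u + uh (ev N j - iv α) = u := by
        rw [add_comm (uh (iv α - ev N j)) u, add_assoc, ← uh_add]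
        have : iv α - ev N j + (ev N j - iv α) = 0 := by abel
        rw [this]
        exact add_zero u
      rw [e1, e2]
      rfl
    rw [Finset.sum_congr rfl h1]
    have h2 : ∑ α ∈ AN N, (single u (((∏ i, Ring.choose (hu u i + α i) (α i) : ℤ) : k) * a) : Lau k)
        = single u (∑ α ∈ AN N, ((∏ i, Ring.choose (hu u i + α i) (α i) : ℤ) : k) * a) :=
      (map_sum (singleAddHom (R := k) u) _ _).symm
    rw [h2, ← Finset.sum_mul, ← Int.cast_sum, vandermonde3' (hu u) N (hu_sum u)]
    change _ = (((N + 2).choose N : ℕ) : Lau k) * single u a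
    rw [← nsmul_eq_mul, smul_single]
    congr 1
    rw [nsmul_eq_mul]
    push_cast
    rfl
  have h3 := DFunLike.congr_fun h l
  rw [AddMonoidHom.finsetSum_apply] at h3
  exact h3

/-- the second identity -/
lemma dop_sum_right (N : ℕ) (j : Fin 3) (l : Lau k) :
    ∑ α ∈ AN N, xm k (iv α - ev N j) * dop k N j α l = l := by
  have h : ∑ α ∈ AN N, (AddMonoidHom.mulLeft (xm k (iv α - ev N j))).comp (dop k N j α) =
      AddMonoidHom.id (Lau k) := by
    apply AddMonoidAlgebra.addMonoidHom_ext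
    intro u a
    rw [AddMonoidHom.finsetSum_apply]
    have h1 : ∀ α ∈ AN N, ((AddMonoidHom.mulLeft (xm k (iv α - ev N j))).comp (dop k N j α))
        (single u a) = single u (((∏ i, Ring.choose ((hu u + ev N j) i) (α i) : ℤ) : k) * a) := by
      intro α hα
      change xm k (iv α - ev N j) * dop k N j α (single u a) = _
      rw [dop_single, single_mul_single, one_mul]
      have e2 : uh (iv α - ev N j) + (u + uh (ev N j - iv α)) = u := by
        rw [add_comm, add_assoc, ← uh_add]
        have : ev N j - iv α + (iv α - ev N j) = 0 := by abel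
        rw [this]
        exact add_zero u
      rw [e2]
      rfl
    rw [Finset.sum_congr rfl h1]
    have h2 : ∑ α ∈ AN N,
        (single u (((∏ i, Ring.choose ((hu u + ev N j) i) (α i) : ℤ) : k) * a) : Lau k)
        = single u (∑ α ∈ AN N, ((∏ i, Ring.choose ((hu u + ev N j) i) (α i) : ℤ) : k) * a) :=
      (map_sum (singleAddHom (R := k) u) _ _).symm
    rw [h2, ← Finset.sum_mul, ← Int.cast_sum, vandermonde3 (hu u + ev N j) N]
    have h3 : ∑ i, (hu u + ev N j) i = N := by
      rw [show ∑ i, (hu u + ev N j) i = ∑ i, hu u i + ∑ i, ev N j i from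
        Finset.sum_add_distrib, ev_sum, hu_sum, zero_add]
    rw [h3]
    have h4 : Ring.choose ((N : ℕ) : ℤ) N = Nat.choose N N := Ring.choose_natCast N N
    rw [h4, Nat.choose_self]
    simp
  have h3 := DFunLike.congr_fun h l
  rw [AddMonoidHom.finsetSum_apply] at h3
  exact h3

end Pool.Agent.H52.DA
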