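import Pool.Graph.R_seed8.W506.L2
import Pool.Graph.R_seed8.H835R3.SchExt
import Pool.Graph.R_seed8.H342R2.U.D2c
import Pool.Agent.H52.DA.Ops

/-!
The projective plane: the embedding of the Laurent polynomials in the function field, sections over
the charts.
-/

set_option autoImplicit false

open CategoryTheory AlgebraicGeometry TopologicalSpace Opposite AddMonoidAlgebra
open Pool.Agent.H835R3 Pool.Agent.W506

attribute [local instance] MvPolynomial.gradedAlgebra

namespace Pool.Agent.H52.DA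

set_option backward.isDefEq.respectTransparency false

/-- the projective plane -/
noncomputable abbrev P2 (k : Type) [Field k] : Scheme.{0} := PP k 2

/-- the standard charts -/
noncomputable abbrev U2 (k : Type) [Field k] (i : Fin 3) : (P2 k).Opens := UU k 2 i

variable (k : Type) [Field k]

instance : IsIntegral (P2 k) :=
  H342U.D2c ⟨MvPolynomial.X 0, X_mem 0, X_ne_zero 0⟩

/-- the function field -/
noncomputable abbrev FF : Type := (P2 k).functionField

lemma nontrivial_U2 (i : Fin 3) : Nontrivial Γ(P2 k, U2 k i) := by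
  have h1 : (0 : Γ(P2 k, U2 k i)) ≠ 1 := by
    rw [← co_self, co, ne_eq, eq_comm, fr_eq_zero_iff (X_mem i) one_pos (X_ne_zero i)]
    exact X_ne_zero i
  exact ⟨0, 1, h1⟩

lemma gen_mem (i : Fin 3) : genericPoint (P2 k) ∈ U2 k i := by
  by_contra h
  have := subsingleton_of_not_mem _ h
  have := nontrivial_U2 k i
  exact not_subsingleton Γ(P2 k, U2 k i) inferInstance

lemma ro_eq_res {X : Scheme.{0}} {V W : X.Opens} (h : W ≤ V) (s : Γ(X, V)) : ro h s = res h s := rfl

lemma gam_ro {X : Scheme.{0}} [IsIntegral X] {V W : X.Opens} (hWV : W ≤ V)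
    (h : genericPoint X ∈ W) (s : Γ(X, V)) : gam W h (ro hWV s) = gam V (hWV h) s :=
  gam_res hWV h s

/-- the coordinates -/
noncomputable def tt (i : Fin 3) : FF k := gam (U2 k 0) (gen_mem k 0) (co 0 i)

lemma gam_co_mul (i j l : Fin 3) : gam (U2 k j) (gen_mem k j) (co j l) *
    gam (U2 k i) (gen_mem k i) (co i j) = gam (U2 k i) (gen_mem k i) (co i l) := by
  have h := co_mul (K := k) i j l
  have hm : genericPoint (P2 k) ∈ U2 k i ⊓ U2 k j := ⟨gen_mem k i, gen_mem k j⟩
  have h2 := congrArg (gam _ hm) h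
  rw [map_mul, gam_ro, gam_ro, gam_ro] at h2
  exact h2

lemma tt_zero : tt k 0 = 1 := by
  rw [tt, co_self, map_one]

lemma tt_ne_zero (i : Fin 3) : tt k i ≠ 0 := by
  intro h
  have h1 := gam_co_mul k 0 i 0
  rw [show gam (U2 k 0) (gen_mem k 0) (co 0 i) = tt k i from rfl, h, mul_zero,
    show gam (U2 k 0) (gen_mem k 0) (co 0 0) = tt k 0 from rfl, tt_zero] at h1
  exact zero_ne_one h1

lemma gam_co (i j : Fin 3) : gam (U2 k i) (gen_mem k i) (co i j) = tt k j * (tt k i)⁻¹ := by
  rw [eq_mul_inv_iff_mul_eq₀ (tt_ne_zero k i)]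
  exact gam_co_mul k 0 i j

/-- the constants in the function field -/
noncomputable def kc : k →+* FF k := (gam (U2 k 0) (gen_mem k 0)).comp (cc k 0)

lemma gam_cc (i : Fin 3) (c : k) : gam (U2 k i) (gen_mem k i) (cc k i c) = kc k c := by
  have hc : MvPolynomial.C c ∈ gr k 2 (0 * 1) := MvPolynomial.isHomogeneous_C _ c
  have hm : genericPoint (P2 k) ∈ (⊤ : (P2 k).Opens) := trivial
  have key : ∀ i : Fin 3, gam (U2 k i) (gen_mem k i) (cc k i c) = gam ⊤ hm (cst c) := by
    intro i
    rw [cc_apply i c hc, ← ro_cst (X_mem i) one_pos c hc, gam_ro]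
  rw [key i]
  exact (key 0).symm

/-- the Laurent monomials in the function field -/
noncomputable def monF : Multiplicative (ℤ × ℤ) →* FF k where
  toFun u := tt k 1 ^ u.toAdd.1 * tt k 2 ^ u.toAdd.2
  map_one' := by
    change tt k 1 ^ (0 : ℤ) * tt k 2 ^ (0 : ℤ) = 1
    simp
  map_mul' u v := by
    change tt k 1 ^ (u.toAdd.1 + v.toAdd.1) * tt k 2 ^ (u.toAdd.2 + v.toAdd.2) = _
    rw [zpow_add₀ (tt_ne_zero k 1), zpow_add₀ (tt_ne_zero k 2)]
    ring

/-- Laurent polynomials as rational functions -/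
noncomputable def iota : Lau k →+* FF k :=
  liftNCRingHom (kc k) (monF k) (fun _ _ => Commute.all _ _)

lemma iota_single (u : ℤ × ℤ) (c : k) :
    iota k (single u c) = kc k c * (tt k 1 ^ u.1 * tt k 2 ^ u.2) :=
  liftNCRingHom_single _ _ _ u c

lemma iota_xm (v : Fin 3 → ℤ) (hv : ∑ i, v i = 0) :
    iota k (xm k v) = tt k 0 ^ (v 0) * (tt k 1 ^ (v 1) * tt k 2 ^ (v 2)) := by
  rw [iota_single, map_one, one_mul, tt_zero, one_zpow, one_mul]
  rfl

/-- the unit vector -/
lemma iota_xm_ev (i j : Fin 3) : iota k (xm k (ev 1 i - ev 1 j)) = tt k i * (tt k j)⁻¹ := by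
  have hs : ∑ l, (ev 1 i - ev 1 j) l = 0 := by
    rw [show ∑ l, (ev 1 i - ev 1 j) l = ∑ l, ev 1 i l - ∑ l, ev 1 j l from
      Finset.sum_sub_distrib _ _, ev_sum, ev_sum, sub_self]
  rw [iota_xm k _ hs]
  simp only [Pi.sub_apply, ev]
  have h1 := tt_ne_zero k 1
  have h2 := tt_ne_zero k 2
  have h0 := tt_ne_zero k 0
  fin_cases i <;> fin_cases j <;> simp [tt_zero] <;> field_simp

lemma gam_co_eq (i j : Fin 3) :
    gam (U2 k i) (gen_mem k i) (co i j) = iota k (xm k (ev 1 j - ev 1 i)) := by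
  rw [gam_co, iota_xm_ev]

variable {k}

/-- The sections over `V` are the Laurent polynomials with exponents in `C`. -/
def RG (V : (P2 k).Opens) (C : Set (ℤ × ℤ)) : Prop :=
  ∃ h : genericPoint (P2 k) ∈ V,
    (∀ s : Γ(P2 k, V), ∃ l ∈ coneSub k C, gam V h s = iota k l) ∧
    (∀ l ∈ coneSub k C, ∃ s : Γ(P2 k, V), gam V h s = iota k l)

lemma coneSub_mul {C : Set (ℤ × ℤ)} (hC : ∀ u ∈ C, ∀ v ∈ C, u + v ∈ C) {a b : Lau k}
    (ha : a ∈ coneSub k C) (hb : b ∈ coneSub k C) : a * b ∈ coneSub k C := by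
  have h1 : a = a.coeff.sum (fun u c => (single u c : Lau k)) := (sum_coeff_single a).symm
  have h2 : b = b.coeff.sum (fun u c => (single u c : Lau k)) := (sum_coeff_single b).symm
  rw [h1, h2, Finsupp.sum, Finsupp.sum, Finset.sum_mul_sum]
  refine AddSubgroup.sum_mem _ fun u hu => AddSubgroup.sum_mem _ fun v hv => ?_
  rw [single_mul_single]
  exact single_mem_coneSub (hC u (ha u (Finsupp.mem_support_iff.1 hu)) v
    (hb v (Finsupp.mem_support_iff.1 hv))) _

lemma cone3_add {T : Finset (Fin 3)} : ∀ u ∈ cone3 T, ∀ v ∈ cone3 T, u + v ∈ cone3 T := by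
  intro u hu v hv i hi
  rw [hu_add]
  exact add_nonneg (hu i hi) (hv i hi)

lemma coneSub_ind {C : Set (ℤ × ℤ)} (P : Lau k → Prop) (h0 : P 0)
    (hadd : ∀ a b, P a → P b → P (a + b)) (hs : ∀ u ∈ C, ∀ c, P (single u c)) (l : Lau k)
    (hl : l ∈ coneSub k C) : P l := by
  have h1 : l = l.coeff.sum (fun u c => (single u c : Lau k)) := (sum_coeff_single l).symm
  rw [h1]
  exact Finset.sum_induction _ P hadd h0 (fun u hu => hs u (hl u (Finsupp.mem_support_iff.1 hu)) _)

lemma single_nonneg_mem (i : Fin 3) (v : Fin 3 → ℤ) (hs : ∑ l, v l = 0)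
    (hv : ∀ l, l ≠ i → 0 ≤ v l) : uh v ∈ cone3 ({i} : Finset (Fin 3)) := by
  intro l hl
  rw [hu_uh v hs]
  exact hv l (by simpa using hl)

lemma one_mem_cone (T : Finset (Fin 3)) : (1 : Lau k) ∈ coneSub k (cone3 T) := by
  rw [AddMonoidAlgebra.one_def]
  apply single_mem_coneSub
  intro i _
  fin_cases i <;> simp [hu]

lemma xm_mem_cone {T : Finset (Fin 3)} {v : Fin 3 → ℤ} (hs : ∑ l, v l = 0)
    (hv : ∀ l, l ∉ T → 0 ≤ v l) : xm k v ∈ coneSub k (cone3 T) := by
  apply single_mem_coneSub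
  intro l hl
  rw [hu_uh v hs]
  exact hv l hl

lemma ev_sub_sum (N : ℕ) (i j : Fin 3) : ∑ l, (ev N i - ev N j) l = 0 := by
  rw [show ∑ l, (ev N i - ev N j) l = ∑ l, ev N i l - ∑ l, ev N j l from
    Finset.sum_sub_distrib _ _, ev_sum, ev_sum, sub_self]

/-- sections over a chart -/
lemma rg_chart (i : Fin 3) : RG (U2 k i) (cone3 {i}) := by
  refine ⟨gen_mem k i, ?_, ?_⟩
  · intro s
    obtain ⟨a, rfl⟩ := psi_surjective i s
    induction a using MvPolynomial.induction_on with
    | C c =>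
      refine ⟨single 0 c, single_mem_coneSub ?_ c, ?_⟩
      · intro l _
        fin_cases l <;> simp [hu]
      · have h1 : psi i (MvPolynomial.C c) = cc k i c := by
          rw [psi, MvPolynomial.coe_eval₂Hom, MvPolynomial.eval₂_C]
        have h2 := gam_cc k i c
        rw [h1, iota_single]
        refine h2.trans ?_
        simp
    | add p q hp hq =>
      obtain ⟨l, hl, hl'⟩ := hp
      obtain ⟨m, hm, hm'⟩ := hq
      exact ⟨l + m, add_mem hl hm, by rw [map_add, map_add, map_add, hl', hm']⟩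
    | mul_X p j hp =>
      obtain ⟨l, hl, hl'⟩ := hp
      refine ⟨l * xm k (ev 1 j - ev 1 i), coneSub_mul cone3_add hl ?_, ?_⟩
      · apply xm_mem_cone (ev_sub_sum 1 j i)
        intro m hm
        have : m ≠ i := by simpa using hm
        simp only [Pi.sub_apply, ev, if_neg this, sub_zero]
        split_ifs <;> simp
      · have h1 : psi i (MvPolynomial.X j) = co (K := k) i j := by
          rw [psi, MvPolynomial.coe_eval₂Hom, MvPolynomial.eval₂_X]
        rw [map_mul, map_mul, hl', h1, map_mul]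
        congr 1
        exact gam_co_eq k i j
  · intro l hl
    refine coneSub_ind (fun l => ∃ s : Γ(P2 k, U2 k i), gam _ (gen_mem k i) s = iota k l)
      ⟨0, by rw [map_zero, map_zero]⟩ ?_ ?_ l hl
    · rintro a b ⟨s, hs⟩ ⟨t, ht⟩
      exact ⟨s + t, by rw [map_add, map_add, hs, ht]⟩
    · intro u hu' c
      have hnn : ∀ j, j ≠ i → 0 ≤ hu u j := fun j hj => hu' j (by simpa using hj)
      refine ⟨cc k i c * ∏ j, co i j ^ (hu u j).toNat, ?_⟩
      rw [map_mul, map_prod]
      have h1 : ∀ j, gam (U2 k i) (gen_mem k i) (co i j ^ (hu u j).toNat) =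
          tt k j ^ (hu u j) * ((tt k i) ^ (hu u j))⁻¹ := by
        intro j
        rw [map_pow, gam_co]
        by_cases hj : j = i
        · subst hj
          rw [mul_inv_cancel₀ (tt_ne_zero k j), one_pow,
            mul_inv_cancel₀ (zpow_ne_zero _ (tt_ne_zero k j))]
        · rw [← inv_zpow, ← mul_zpow, ← zpow_natCast, Int.toNat_of_nonneg (hnn j hj)]
      rw [Finset.prod_congr rfl (fun j _ => h1 j), Finset.prod_mul_distrib, Finset.prod_inv_distrib]
      have h2 : ∏ j, tt k i ^ (hu u j) = 1 := by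
        rw [Fin.prod_univ_three, ← zpow_add₀ (tt_ne_zero k i), ← zpow_add₀ (tt_ne_zero k i)]
        have h3 := hu_sum u
        rw [Fin.sum_univ_three] at h3
        rw [h3, zpow_zero]
      have h4 : ∏ j, tt k j ^ (hu u j) = tt k 1 ^ u.1 * tt k 2 ^ u.2 := by
        rw [Fin.prod_univ_three, tt_zero, one_zpow, one_mul]
        rfl
      rw [h2, h4, inv_one, mul_one, iota_single]
      congr 1
      exact gam_cc k i c

/-- sections over basic opens -/
lemma rg_basicOpen {V D : (P2 k).Opens} {C C' : Set (ℤ × ℤ)} (hV : IsAffineOpen V) (h : RG V C)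
    (f : Γ(P2 k, V)) (v : Fin 3 → ℤ)
    (hf : ∀ h, gam V h f = iota k (xm k v)) (hD : (P2 k).basicOpen f = D)
    (h1 : ∀ u ∈ C, ∀ n : ℕ, u - n • uh v ∈ C') (h2 : ∀ u ∈ C', ∃ n : ℕ, ∀ m, n ≤ m →
      u + m • uh v ∈ C) : RG D C' := by
  subst hD
  obtain ⟨hg, hs1, hs2⟩ := h
  have hunit := isUnit_ro_basicOpen f
  have hxn : ∀ n : ℕ, (single (n • uh v) (1 : k) : Lau k) * single (-(n • uh v)) (1 : k) = 1 := by
    intro n
    rw [single_mul_single, add_neg_cancel, one_mul]
    rfl
  have hfn : ∀ n : ℕ, iota k (single (n • uh v) (1 : k)) = (gam V hg f) ^ n := by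
    intro n
    rw [hf hg, ← map_pow, single_pow, one_pow]
  have hf0 : gam V hg f ≠ 0 := by
    have := hfn 1
    have h3 := congrArg (iota k) (hxn 1)
    rw [map_mul, map_one, this, pow_one] at h3
    exact left_ne_zero_of_mul_eq_one h3
  have hinv : ∀ n : ℕ, iota k (single (-(n • uh v)) (1 : k)) = ((gam V hg f) ^ n)⁻¹ := by
    intro n
    have h3 := congrArg (iota k) (hxn n)
    rw [map_mul, map_one, hfn] at h3
    exact eq_inv_of_mul_eq_one_right h3
  have hgD : genericPoint (P2 k) ∈ (P2 k).basicOpen f := by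
    by_contra hcon
    have := subsingleton_of_not_mem _ hcon
    apply hf0
    obtain ⟨n, hn⟩ := ro_uniq hV f 1 (Subsingleton.elim _ _)
    have h4 := congrArg (gam V hg) hn
    rw [map_mul, map_one, mul_one, map_zero, map_pow] at h4
    rcases Nat.eq_zero_or_pos n with h0 | h0
    · subst h0
      rw [pow_zero] at h4
      exact absurd h4 one_ne_zero
    · exact (pow_eq_zero_iff h0.ne').1 h4
  refine ⟨hgD, ?_, ?_⟩
  · intro s
    obtain ⟨n, b, hb⟩ := ro_ext hV f s
    obtain ⟨l, hl, hl'⟩ := hs1 b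
    refine ⟨l * single (-(n • uh v)) 1, ?_, ?_⟩
    · refine coneSub_ind (fun l => l * single (-(n • uh v)) 1 ∈ coneSub k C') ?_ ?_ ?_ l hl
      · rw [zero_mul]; exact zero_mem _
      · intro a b ha hb
        rw [add_mul]
        exact add_mem ha hb
      · intro u hu' c
        rw [single_mul_single]
        exact single_mem_coneSub (h1 u hu' n) _
    · have h3 := congrArg (gam _ hgD) hb
      rw [gam_ro, map_mul, map_pow, gam_ro, hl'] at h3
      rw [map_mul, hinv, h3]
      field_simp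
  · intro l hl
    obtain ⟨w, hw⟩ := hunit.exists_right_inv
    have hw' : gam _ hgD w = (gam V hg f)⁻¹ := by
      have h3 := congrArg (gam _ hgD) hw
      rw [map_mul, map_one, gam_ro] at h3
      exact eq_inv_of_mul_eq_one_right h3
    refine coneSub_ind (fun l => ∃ s : Γ(P2 k, (P2 k).basicOpen f), gam _ hgD s = iota k l)
      ⟨0, by rw [map_zero, map_zero]⟩ ?_ ?_ l hl
    · rintro a b ⟨s, hs⟩ ⟨t, ht⟩
      exact ⟨s + t, by rw [map_add, map_add, hs, ht]⟩
    · intro u hu' c
      obtain ⟨n, hn⟩ := h2 u hu'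
      obtain ⟨s, hs⟩ := hs2 (single (u + n • uh v) c) (single_mem_coneSub (hn n le_rfl) c)
      refine ⟨ro ((P2 k).basicOpen_le f) s * w ^ n, ?_⟩
      rw [map_mul, map_pow, gam_ro, hs, hw', inv_pow, ← hinv, ← map_mul, single_mul_single, mul_one,
        add_neg_cancel_right]

/-- sections over the intersection of two charts -/
lemma rg_pair (i j : Fin 3) : RG (U2 k i ⊓ U2 k j) (cone3 {i, j}) := by
  refine rg_basicOpen (isAffineOpen_UU i) (rg_chart i) (co i j) (ev 1 j - ev 1 i)
    (fun h => gam_co_eq k i j) (basicOpen_co i j) ?_ ?_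
  · intro u hu' n l hl
    have hl1 : l ≠ i := fun h => hl (by simp [h])
    have hl2 : l ≠ j := fun h => hl (by simp [h])
    have h1 : hu (u - n • uh (ev 1 j - ev 1 i)) l = hu u l := by
      have h2 : u = (u - n • uh (ev 1 j - ev 1 i)) + n • uh (ev 1 j - ev 1 i) := by abel
      have h3 := congrFun (congrArg hu h2) l
      rw [hu_add, Pi.add_apply, hu_nsmul, hu_uh _ (ev_sub_sum 1 j i)] at h3
      simp only [Pi.sub_apply, ev, if_neg hl1, if_neg hl2, sub_zero, mul_zero, add_zero] at h3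
      exact h3.symm
    rw [h1]
    exact hu' l (by simpa using hl1)
  · intro u hu'
    refine ⟨(-(hu u j)).toNat, fun m hm l hl => ?_⟩
    have hl1 : l ≠ i := by simpa using hl
    rw [hu_add, Pi.add_apply, hu_nsmul, hu_uh _ (ev_sub_sum 1 j i)]
    by_cases hlj : l = j
    · subst hlj
      simp only [Pi.sub_apply, ev, if_neg hl1, if_true, sub_zero]
      push_cast
      omega
    · simp only [Pi.sub_apply, ev, if_neg hl1, if_neg hlj, sub_zero, mul_zero, add_zero]
      exact hu' l (by simp [hl1, hlj])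

/-- sections over the intersection of the charts -/
lemma rg_triple {i j m : Fin 3} :
    RG ((U2 k i ⊓ U2 k j) ⊓ U2 k m) (cone3 {i, j, m}) := by
  have hD : (P2 k).basicOpen (ro (inf_le_left : U2 k i ⊓ U2 k j ≤ U2 k i) (co i m)) =
      (U2 k i ⊓ U2 k j) ⊓ U2 k m := by
    rw [basicOpen_ro', basicOpen_co, ← inf_assoc]
    congr 1
    exact inf_eq_left.2 inf_le_left
  refine rg_basicOpen (isAffineOpen_UU_inf i j) (rg_pair i j)
    (ro (inf_le_left : U2 k i ⊓ U2 k j ≤ U2 k i) (co i m)) (ev 1 m - ev 1 i)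
    (fun h => (gam_ro _ h _).trans (gam_co_eq k i m)) hD ?_ ?_
  · intro u hu' n l hl
    have hl1 : l ≠ i := fun h => hl (by simp [h])
    have hl2 : l ≠ m := fun h => hl (by simp [h])
    have hl3 : l ≠ j := fun h => hl (by simp [h])
    have h1 : hu (u - n • uh (ev 1 m - ev 1 i)) l = hu u l := by
      have h2 : u = (u - n • uh (ev 1 m - ev 1 i)) + n • uh (ev 1 m - ev 1 i) := by abel
      have h3 := congrFun (congrArg hu h2) l
      rw [hu_add, Pi.add_apply, hu_nsmul, hu_uh _ (ev_sub_sum 1 m i)] at h3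
      simp only [Pi.sub_apply, ev, if_neg hl1, if_neg hl2, sub_zero, mul_zero, add_zero] at h3
      exact h3.symm
    rw [h1]
    exact hu' l (by simp [hl1, hl3])
  · intro u hu'
    refine ⟨(-(hu u m)).toNat, fun n hn l hl => ?_⟩
    have hl1 : l ≠ i := fun h => hl (by simp [h])
    have hl3 : l ≠ j := fun h => hl (by simp [h])
    rw [hu_add, Pi.add_apply, hu_nsmul, hu_uh _ (ev_sub_sum 1 m i)]
    by_cases hlm : l = m
    · subst hlm
      simp only [Pi.sub_apply, ev, if_neg hl1, if_true, sub_zero]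
      push_cast
      omega
    · simp only [Pi.sub_apply, ev, if_neg hl1, if_neg hlm, sub_zero, mul_zero, add_zero]
      exact hu' l (by simp [hl1, hlm, hl3])

end Pool.Agent.H52.DA

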