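import Mathlib

/-!
Injective abelian sheaves on a topological space are flasque, flasque sheaves are acyclic.
-/

set_option autoImplicit false

open CategoryTheory TopologicalSpace Opposite Limits Abelian

universe u

namespace Pool.Agent.H52.DA

section

variable {C : Type u} [SmallCategory.{u} C] (J : GrothendieckTopology C)

/-- the free abelian sheaf on a representable presheaf -/
noncomputable def frF : C ⥤ Sheaf J AddCommGrpCat.{u} :=
  yoneda ⋙ (Functor.whiskeringRight _ _ _).obj AddCommGrpCat.free ⋙ presheafToSheaf J _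

/-- sections over `U` are the morphisms from `frF J U` -/
noncomputable def frEquiv (U : C) (G : Sheaf J AddCommGrpCat.{u}) :
    ((frF J).obj U ⟶ G) ≃ G.obj.obj (op U) :=
  ((sheafificationAdjunction J AddCommGrpCat.{u}).homEquiv _ _).trans
    (((AddCommGrpCat.adj.whiskerRight Cᵒᵖ).homEquiv _ _).trans yonedaEquiv)

lemma frEquiv_map {U V : C} (i : V ⟶ U) (G : Sheaf J AddCommGrpCat.{u})
    (f : (frF J).obj U ⟶ G) :
    frEquiv J V G ((frF J).map i ≫ f) = G.obj.map i.op (frEquiv J U G f) := by
  have h1 := (sheafificationAdjunction J AddCommGrpCat.{u}).homEquiv_naturality_left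
    (((Functor.whiskeringRight _ _ _).obj AddCommGrpCat.free).map (yoneda.map i)) f
  have h2 := (AddCommGrpCat.adj.whiskerRight Cᵒᵖ).homEquiv_naturality_left (yoneda.map i)
    ((sheafificationAdjunction J AddCommGrpCat.{u}).homEquiv _ _ f)
  refine (congrArg (fun z => yonedaEquiv
    ((AddCommGrpCat.adj.whiskerRight Cᵒᵖ).homEquiv _ _ z)) h1).trans ?_
  refine (congrArg yonedaEquiv h2).trans ?_
  exact (yonedaEquiv_naturality (F := G.obj ⋙ forget AddCommGrpCat)
    ((AddCommGrpCat.adj.whiskerRight Cᵒᵖ).homEquiv _ _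
      ((sheafificationAdjunction J AddCommGrpCat.{u}).homEquiv _ _ f)) i).symm

instance mono_frF {U V : C} (i : V ⟶ U) [Mono i] : Mono ((frF J).map i) := by
  have : (presheafToSheaf J AddCommGrpCat.{u}).PreservesMonomorphisms := inferInstance
  have : ((Functor.whiskeringRight Cᵒᵖ _ _).obj AddCommGrpCat.free).PreservesMonomorphisms := by
    infer_instance
  exact inferInstanceAs (Mono ((presheafToSheaf J AddCommGrpCat.{u}).map
    (((Functor.whiskeringRight Cᵒᵖ _ _).obj AddCommGrpCat.free).map (yoneda.map i))))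

end

section

variable {X : TopCat.{u}}

/-- flasque sheaves -/
def FlasqueAb (G : Sheaf (Opens.grothendieckTopology X) AddCommGrpCat.{u}) : Prop :=
  ∀ {U V : (Opens X)ᵒᵖ} (i : U ⟶ V), Function.Surjective (G.obj.map i)

lemma flasqueAb_iff (G : Sheaf (Opens.grothendieckTopology X) AddCommGrpCat.{u}) :
    FlasqueAb G ↔ TopCat.Presheaf.IsFlasque (X := X) G.obj := by
  constructor
  · intro h
    exact ⟨fun {U V} i => (AddCommGrpCat.epi_iff_surjective _).2 (h i)⟩
  · intro h U V i
    exact (AddCommGrpCat.epi_iff_surjective _).1 (h.epi i)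

/-- injective sheaves are flasque -/
lemma isFlasque_of_injective (G : Sheaf (Opens.grothendieckTopology X) AddCommGrpCat.{u}) [Injective G] :
    FlasqueAb G := by
    intro U V i s
    let J := Opens.grothendieckTopology X
    let f : (frF J).obj V.unop ⟶ G := (frEquiv J V.unop G).symm s
    let g : (frF J).obj U.unop ⟶ G := Injective.factorThru f ((frF J).map i.unop)
    refine ⟨frEquiv J U.unop G g, ?_⟩
    have h := frEquiv_map J i.unop G g
    have h2 : (frF J).map i.unop ≫ g = f := Injective.comp_factorThru _ _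
    rw [h2, Equiv.apply_symm_apply] at h
    exact h.symm

/-- the short complex of an embedding in an injective sheaf -/
noncomputable def injAb (B : Sheaf (Opens.grothendieckTopology X) AddCommGrpCat.{u}) :
    ShortComplex (Sheaf (Opens.grothendieckTopology X) AddCommGrpCat.{u}) :=
  ShortComplex.mk (Injective.ι B) (cokernel.π (Injective.ι B)) (cokernel.condition _)

lemma injAb_shortExact (B : Sheaf (Opens.grothendieckTopology X) AddCommGrpCat.{u}) : (injAb B).ShortExact where
  exact := ShortComplex.exact_cokernel _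
  mono_f := inferInstanceAs (Mono (Injective.ι B))
  epi_g := inferInstanceAs (Epi (cokernel.π (Injective.ι B)))

/-- vanishing of the first cohomology from surjectivity on global sections -/
lemma h1_of_surj (S : ShortComplex (Sheaf (Opens.grothendieckTopology X) AddCommGrpCat.{u})) (hS : S.ShortExact)
    (h2 : Subsingleton (Sheaf.H S.X₂ 1))
    (hsurj : Function.Surjective (S.g.hom.app (op ⊤))) : Subsingleton (Sheaf.H S.X₁ 1) := by
  refine subsingleton_of_forall_eq 0 fun x => ?_
  obtain ⟨y, hy⟩ := Ext.covariant_sequence_exact₁ _ hS (n₁ := 1) x (Subsingleton.elim _ _)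
    (zero_add 1)
  have hT : IsTerminal (⊤ : Opens X) := isTerminalTop
  obtain ⟨z, hz⟩ := hsurj (Sheaf.H.equiv₀ S.X₃ hT y)
  have h3 : Sheaf.H.map S.g 0 ((Sheaf.H.equiv₀ S.X₂ hT).symm z) = y := by
    apply (Sheaf.H.equiv₀ S.X₃ hT).injective
    rw [← Sheaf.H.equiv₀_naturality hT S.g, AddEquiv.apply_symm_apply, hz]
  rw [← hy, ← h3, Sheaf.H.map_apply, Ext.comp_assoc _ _ _ (a₂₃ := 1) _ rfl (by lia),
    hS.comp_extClass, Ext.comp_zero]

/-- dimension shifting -/
lemma h_succ (S : ShortComplex (Sheaf (Opens.grothendieckTopology X) AddCommGrpCat.{u})) (hS : S.ShortExact) (n : ℕ)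
    (h2 : Subsingleton (Sheaf.H S.X₂ (n + 1)))
    (h3 : Subsingleton (Sheaf.H S.X₃ n)) : Subsingleton (Sheaf.H S.X₁ (n + 1)) := by
  refine subsingleton_of_forall_eq 0 fun x => ?_
  obtain ⟨y, hy⟩ := Ext.covariant_sequence_exact₁ _ hS (n₁ := n + 1) x (Subsingleton.elim _ _)
    rfl
  rw [← hy, Subsingleton.elim y 0, Ext.zero_comp]

/-- flasque sheaves are acyclic -/
theorem flasque_acyclic (n : ℕ) : ∀ (G : Sheaf (Opens.grothendieckTopology X) AddCommGrpCat.{u}),
    FlasqueAb G → Subsingleton (Sheaf.H G (n + 1)) := by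
  have hinj : ∀ G : Sheaf (Opens.grothendieckTopology X) AddCommGrpCat.{u},
      Injective (injAb G).X₂ := fun G => inferInstanceAs (Injective (Injective.under G))
  induction n with
  | zero =>
    intro G hG
    have := hinj G
    have h1 := (flasqueAb_iff G).1 hG
    refine h1_of_surj (injAb G) (injAb_shortExact G) ?_ ?_
    · exact subsingleton_of_forall_eq 0 fun x => Ext.eq_zero_of_injective x
    · exact (AddCommGrpCat.epi_iff_surjective _).1
        (@TopCat.Sheaf.IsFlasque.epi_of_shortExact X ⊤ (injAb G) (injAb_shortExact G) h1)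
  | succ n ih =>
    intro G hG
    have := hinj G
    have h1 := (flasqueAb_iff G).1 hG
    have h2 := (flasqueAb_iff _).1 (isFlasque_of_injective (injAb G).X₂)
    refine h_succ (injAb G) (injAb_shortExact G) (n + 1) ?_ ?_
    · exact subsingleton_of_forall_eq 0 fun x => Ext.eq_zero_of_injective x
    · exact ih _ ((flasqueAb_iff _).2
        (@TopCat.Sheaf.IsFlasque.of_shortExact_of_isFlasque₁₂ X (injAb G) (injAb_shortExact G)
          h1 h2))

end

end Pool.Agent.H52.DA
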