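import Pool.Agent.H52.DA.Cech
import Pool.Agent.H52.DA.FlasqueAb

/-!
Vanishing of the cohomology of modules with vanishing Čech cohomology.
-/

set_option autoImplicit false

universe u

open CategoryTheory Limits Opposite TopologicalSpace AlgebraicGeometry Abelian
open Pool.Agent.W506

namespace Pool.Agent.H52.DA

set_option backward.isDefEq.respectTransparency false

variable {X : Scheme.{u}}

/-- the underlying sheaf of abelian groups -/
noncomputable abbrev toAb (X : Scheme.{u}) :
    SheafOfModules.{u} X.ringCatSheaf ⥤ Sheaf (Opens.grothendieckTopology X) AddCommGrpCat.{u} :=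
  SheafOfModules.toSheaf X.ringCatSheaf

instance : PreservesFiniteLimits (toAb X) := inferInstance

instance : (toAb X).PreservesZeroMorphisms := inferInstance

/-- the underlying short complex of abelian sheaves -/
noncomputable def abS (S : ShortComplex X.Modules) :
    ShortComplex (Sheaf (Opens.grothendieckTopology X) AddCommGrpCat.{u}) :=
  ShortComplex.map (C := SheafOfModules.{u} X.ringCatSheaf) S (toAb X)

lemma abS_shortExact (S : ShortComplex X.Modules) (hS : S.ShortExact) :
    (abS S).ShortExact := by
  have hm : Mono (C := SheafOfModules.{u} X.ringCatSheaf) S.f := hS.mono_f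
  have he : Epi (C := SheafOfModules.{u} X.ringCatSheaf) S.g := hS.epi_g
  have hE : ShortComplex.Exact (C := SheafOfModules.{u} X.ringCatSheaf) S := hS.exact
  exact { exact := hE.map_of_mono_of_preservesKernel (toAb X) hm inferInstance
          mono_f := inferInstanceAs (Mono ((toAb X).map S.f))
          epi_g := epi_toSheaf_map X.ringCatSheaf S.g }

/-- embedding in an injective module -/
noncomputable def injM (B : X.Modules) : ShortComplex X.Modules :=
  ShortComplex.mk (Injective.ι B) (cokernel.π (Injective.ι B)) (cokernel.condition _)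

lemma injM_shortExact (B : X.Modules) : (injM B).ShortExact where
  exact := ShortComplex.exact_cokernel _
  mono_f := inferInstanceAs (Mono (Injective.ι B))
  epi_g := inferInstanceAs (Epi (cokernel.π (Injective.ι B)))

lemma injM_injective (B : X.Modules) : Injective (injM B).X₂ :=
  inferInstanceAs (Injective (Injective.under B))

lemma injM_flasque (B : X.Modules) : Flasque (injM B).X₂ :=
  @flasque_of_injective _ (Injective.under B) inferInstance

lemma flasqueAb_of_flasque {M : X.Modules} (h : Flasque M) : FlasqueAb ((toAb X).obj M) := by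
  intro U V i
  exact h U.unop V.unop i.unop.le

variable (D : Tw X)

/-- surjectivity on global sections -/
lemma surj_top (hg : ∀ i j, D.g i j = 1) (S : ShortComplex X.Modules) (hS : S.ShortExact)
    (h1 : SumOn S.X₁ ⊤) (h1' : CechOne D S.X₁) : Function.Surjective (ap S.g ⊤) := by
  intro q
  obtain ⟨t', ht', htg⟩ := lift_compat D S hS h1 h1' (fun j => rs S.X₃ le_top q) (by
    intro i j
    rw [hg, one_smul, rs_rs, rs_rs])
  obtain ⟨r, hr⟩ := exists_glue (M := S.X₂) D.U (fun _ => le_top) D.cover.ge t' (by
    intro i j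
    have := ht' i j
    rw [hg, one_smul] at this
    exact this.symm)
  refine ⟨r, ?_⟩
  apply ext_rs D.U (fun _ => le_top) D.cover.ge
  intro i
  rw [← ap_rs, hr, htg]

/-- vanishing of cohomology -/
theorem h_vanish (hg : ∀ i j, D.g i j = 1) (n : ℕ) : ∀ B : X.Modules, KK D B →
    Subsingleton (Sheaf.H ((toAb X).obj B) (n + 1)) := by
  have hfl : ∀ (B : X.Modules) (n : ℕ), Subsingleton (Sheaf.H (abS (injM B)).X₂ (n + 1)) :=
    fun B n => flasque_acyclic n _ (flasqueAb_of_flasque (injM_flasque B))
  induction n with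
  | zero =>
    intro B hB
    exact h1_of_surj (abS (injM B)) (abS_shortExact _ (injM_shortExact B)) (hfl B 0)
      (surj_top D hg (injM B) (injM_shortExact B) hB.sum hB.one)
  | succ n ih =>
    intro B hB
    exact h_succ (abS (injM B)) (abS_shortExact _ (injM_shortExact B)) (n + 1) (hfl B (n + 1))
      (ih _ (KK.coker D (injM B) (injM_shortExact B) hB (kk_of_flasque D (injM_flasque B))))

/-- the module `L` represents the compatible families -/
structure Represents (L : X.Modules) (e : ∀ j, Γ(L, D.U j)) : Prop where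
  compat : Compat D.U D.g e
  exists_hom : ∀ (M : X.Modules) (t : ∀ j, Γ(M, D.U j)), Compat D.U D.g t →
    ∃ f : L ⟶ M, ∀ j, ap f _ (e j) = t j
  unique : ∀ (M : X.Modules) (f f' : L ⟶ M), (∀ j, ap f _ (e j) = ap f' _ (e j)) → f = f'

theorem exists_represents : ∃ (L : X.Modules) (e : ∀ j, Γ(L, D.U j)), Represents D L e := by
  obtain ⟨L, e, h1, h2, h3⟩ := exists_glued D.U D.g
  exact ⟨L, e, h1, h2, h3⟩

lemma Represents.basis {L : X.Modules} {e : ∀ j, Γ(L, D.U j)} (h : Represents D L e) (i : Fin 3) :
    IsBasisOn (fun _ : Fin 1 => e i) :=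
  isBasisOn_glued D.U D.g D.g_self D.g_cocycle L e h.compat h.exists_hom h.unique i

lemma Represents.lift {L : X.Modules} {e : ∀ j, Γ(L, D.U j)} (h : Represents D L e)
    (S : ShortComplex X.Modules) (hS : S.ShortExact) (h1 : SumOn S.X₁ ⊤) (h1' : CechOne D S.X₁)
    (f : L ⟶ S.X₃) : ∃ f' : L ⟶ S.X₂, f' ≫ S.g = f := by
  obtain ⟨t', ht', htg⟩ := lift_compat D S hS h1 h1' (fun j => ap f _ (e j)) (by
    intro i j
    rw [← ap_rs, h.compat i j, map_smul, ap_rs])
  obtain ⟨f', hf'⟩ := h.exists_hom S.X₂ t' ht'
  refine ⟨f', h.unique _ _ _ fun j => ?_⟩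
  rw [ap_comp, hf', htg]

/-- vanishing of higher extensions -/
theorem ext_vanish [HasExt.{u} X.Modules] {L : X.Modules} {e : ∀ j, Γ(L, D.U j)}
    (h : Represents D L e) (n : ℕ) :
    ∀ B : X.Modules, KK D B → Subsingleton (Ext L B (n + 1)) := by
  induction n with
  | zero =>
    intro B hB
    refine subsingleton_of_forall_eq 0 fun x => ?_
    have hinj := injM_injective B
    have h1 : Subsingleton (Ext L (injM B).X₂ 1) := Ext.subsingleton_of_injective _ _ _
    obtain ⟨y, hy⟩ := Ext.covariant_sequence_exact₁ L (injM_shortExact B)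
      (n₁ := 1) x (Subsingleton.elim _ _) (zero_add 1)
    obtain ⟨g, hg⟩ := Ext.homEquiv₀.symm.surjective y
    obtain ⟨g', hg'⟩ := h.lift D (injM B) (injM_shortExact B) hB.sum hB.one g
    have hg2 : y = Ext.mk₀ g := hg.symm
    rw [← hy, hg2, ← hg', ← Ext.mk₀_comp_mk₀, Ext.comp_assoc _ _ _ (a₂₃ := 1) _ rfl (by lia),
      (injM_shortExact B).comp_extClass, Ext.comp_zero]
  | succ n ih =>
    intro B hB
    refine subsingleton_of_forall_eq 0 fun x => ?_
    have hinj := injM_injective B
    have h1 : Subsingleton (Ext L (injM B).X₂ (n + 1 + 1)) := Ext.subsingleton_of_injective _ _ _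
    obtain ⟨y, hy⟩ := Ext.covariant_sequence_exact₁ L (injM_shortExact B)
      (n₁ := n + 1 + 1) x (Subsingleton.elim _ _) rfl
    have := ih _ (KK.coker D (injM B) (injM_shortExact B) hB (kk_of_flasque D (injM_flasque B)))
    rw [← hy, Subsingleton.elim y 0, Ext.zero_comp]

end Pool.Agent.H52.DA
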