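import Pool.Agent.H52.DA.DMod

/-!
Vanishing of Čech cohomology for `D`-modules on the projective plane.
-/

set_option autoImplicit false

open CategoryTheory AlgebraicGeometry TopologicalSpace Opposite
open Pool.Agent.H835R3 Pool.Agent.W506

attribute [local instance] MvPolynomial.gradedAlgebra

namespace Pool.Agent.H52.DA

set_option backward.isDefEq.respectTransparency false

variable {k : Type} [Field k] {M : (P2 k).Modules}

lemma basicOpen_W (i j m : Fin 3) :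
    (P2 k).basicOpen (ro (inf_le_left : U2 k i ⊓ U2 k j ≤ U2 k i) (co i m)) =
      (U2 k i ⊓ U2 k j) ⊓ U2 k m := by
  rw [basicOpen_ro', basicOpen_co, ← inf_assoc]
  congr 1
  exact inf_eq_left.2 inf_le_left

/-- multiples of sections over the torus extend -/
lemma exists_ext_W (hM : ∀ j, QCOn M (U2 k j)) (i j m : Fin 3) {V : (P2 k).Opens}
    (hV : V = (U2 k i ⊓ U2 k j) ⊓ U2 k m) (hVij : V ≤ U2 k i ⊓ U2 k j) (w : Γ(M, V)) :
    ∃ (n : ℕ) (t : Γ(M, U2 k i ⊓ U2 k j)),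
      rs M hVij t = ro (hVij.trans inf_le_left) (co i m) ^ n • w := by
  subst hV
  obtain ⟨n, t, ht⟩ := (hM i).ext' (isAffineOpen_UU_inf i j) inf_le_left
    (ro (inf_le_left : U2 k i ⊓ U2 k j ≤ U2 k i) (co i m)) (basicOpen_W i j m) hVij w
  refine ⟨n, t, ?_⟩
  rw [ht, ro_ro]

/-- the operators applied to a section over the torus extend -/
lemma ext_Y {N : ℕ} (O : OpData M N) (i j m : Fin 3) {V : (P2 k).Opens}
    (hVij : V ≤ U2 k i ⊓ U2 k j) (w : Γ(M, V)) (n : ℕ) (t : Γ(M, U2 k i ⊓ U2 k j))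
    (ht : rs M hVij t = ro (hVij.trans inf_le_left) (co i m) ^ n • w) (α : Fin 3 → ℕ)
    (hα : n ≤ α m) : ∃ t' : Γ(M, U2 k i ⊓ U2 k j),
      rs M hVij t' = O.Y i α V (hVij.trans inf_le_left) w := by
  refine ⟨O.T i α _ inf_le_left
    (ro (inf_le_left : U2 k i ⊓ U2 k j ≤ U2 k i) (xam k i m n α) • t), ?_⟩
  rw [O.T_rs, rs_smul, ht, ro_ro, smul_smul, OpData.Y]
  congr 2
  rw [← xam_mul i m n α hα, map_mul, map_pow]

theorem cechTwo_dmod (hM : ∀ j, QCOn M (U2 k j)) (hO : ∀ e, 2 ≤ e → Nonempty (OpData M (2 ^ e))) :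
    CechTwo (tw1 k) M := by
  intro w
  have hg : (tw1 k).g 1 2 = 1 := rfl
  have hW01 : (tw1 k).W ≤ U2 k 0 ⊓ U2 k 1 := (tw1 k).h01
  have hW02 : (tw1 k).W ≤ U2 k 0 ⊓ U2 k 2 := (tw1 k).h02
  have hW12 : (tw1 k).W ≤ U2 k 1 ⊓ U2 k 2 := (tw1 k).h12
  obtain ⟨n2, t2, ht2⟩ := exists_ext_W hM 0 1 2 (V := (tw1 k).W) rfl hW01 w
  obtain ⟨n1, t1, ht1⟩ := exists_ext_W hM 0 2 1 (V := (tw1 k).W)
    (by
      change (U2 k 0 ⊓ U2 k 1) ⊓ U2 k 2 = (U2 k 0 ⊓ U2 k 2) ⊓ U2 k 1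
      rw [inf_assoc, inf_assoc, inf_comm (U2 k 1)]) hW02 w
  obtain ⟨n0, t0, ht0⟩ := exists_ext_W hM 1 2 0 (V := (tw1 k).W)
    (by
      change (U2 k 0 ⊓ U2 k 1) ⊓ U2 k 2 = (U2 k 1 ⊓ U2 k 2) ⊓ U2 k 0
      rw [inf_assoc, inf_comm (U2 k 0)]) hW12 w
  obtain ⟨e, he⟩ : ∃ e, n0 + n1 + n2 ≤ 2 ^ e := ⟨_, Nat.lt_two_pow_self.le⟩
  obtain ⟨O⟩ := hO (e + 2) (by omega)
  have hle : n0 + n1 + n2 ≤ 2 ^ (e + 2) := he.trans (Nat.pow_le_pow_right (by norm_num) (by omega))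
  have hW0 : (tw1 k).W ≤ U2 k 0 := hW01.trans inf_le_left
  have key : ∀ α ∈ AN (2 ^ (e + 2)), ∃ (a : Γ(M, U2 k 0 ⊓ U2 k 1)) (b : Γ(M, U2 k 0 ⊓ U2 k 2))
      (c : Γ(M, U2 k 1 ⊓ U2 k 2)), O.Y 0 α (tw1 k).W hW0 w =
        rs M hW12 c - rs M hW02 b + rs M hW01 a := by
    intro α hα
    have hsum := mem_AN.1 hα
    rw [Fin.sum_univ_three] at hsum
    by_cases h2 : n2 ≤ α 2
    · obtain ⟨t', ht'⟩ := ext_Y O 0 1 2 hW01 w n2 t2 ht2 α h2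
      exact ⟨t', 0, 0, by rw [map_zero, map_zero, sub_zero, zero_add, ht']⟩
    by_cases h1 : n1 ≤ α 1
    · obtain ⟨t', ht'⟩ := ext_Y O 0 2 1 hW02 w n1 t1 ht1 α h1
      exact ⟨0, -t', 0, by rw [map_zero, map_zero, zero_sub, map_neg, neg_neg, add_zero, ht']⟩
    have h0 : n0 ≤ α 0 := by omega
    obtain ⟨t', ht'⟩ := ext_Y O 1 2 0 hW12 w n0 t0 ht0 α h0
    refine ⟨0, 0, t', ?_⟩
    rw [map_zero, map_zero, sub_zero, add_zero, ht']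
    exact O.Y_indep hα 0 1 _ _ w
  have hfin : ∃ (a : Γ(M, U2 k 0 ⊓ U2 k 1)) (b : Γ(M, U2 k 0 ⊓ U2 k 2))
      (c : Γ(M, U2 k 1 ⊓ U2 k 2)), w = rs M hW12 c - rs M hW02 b + rs M hW01 a := by
    have h := Finset.sum_induction (s := AN (2 ^ (e + 2))) (fun α => O.Y 0 α (tw1 k).W hW0 w)
      (fun z => ∃ (a : Γ(M, U2 k 0 ⊓ U2 k 1)) (b : Γ(M, U2 k 0 ⊓ U2 k 2))
        (c : Γ(M, U2 k 1 ⊓ U2 k 2)), z = rs M hW12 c - rs M hW02 b + rs M hW01 a)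
      (by
        rintro x y ⟨a, b, c, rfl⟩ ⟨a', b', c', rfl⟩
        refine ⟨a + a', b + b', c + c', ?_⟩
        rw [map_add, map_add, map_add]
        abel)
      ⟨0, 0, 0, by rw [map_zero, map_zero, map_zero, sub_zero, add_zero]⟩ key
    rw [O.Y_sum] at h
    exact h
  obtain ⟨a, b, c, h⟩ := hfin
  refine ⟨a, b, c, ?_⟩
  rw [hg, map_one, one_smul]
  exact h

/-- extension of the sections `u`, `v` over the intersections with the chart `j` -/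
lemma exists_ext_pair (hM : ∀ j, QCOn M (U2 k j)) (j p q : Fin 3)
    (u : Γ(M, U2 k p ⊓ U2 k j)) (v : Γ(M, U2 k q ⊓ U2 k j)) (w : Γ(M, U2 k p ⊓ U2 k q))
    (huvw : ∀ (V : (P2 k).Opens) (h1 : V ≤ U2 k p ⊓ U2 k j) (h2 : V ≤ U2 k q ⊓ U2 k j)
      (h3 : V ≤ U2 k p ⊓ U2 k q), rs M h2 v - rs M h1 u = rs M h3 w) :
    ∃ (n : ℕ) (s : Γ(M, U2 k p)) (t : Γ(M, U2 k q)),
      rs M (inf_le_left : U2 k p ⊓ U2 k j ≤ _) s = ro (inf_le_left : U2 k p ⊓ U2 k j ≤ _) (co (K := k) p j) ^ n • u ∧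
      rs M (inf_le_left : U2 k q ⊓ U2 k j ≤ _) t = ro (inf_le_left : U2 k q ⊓ U2 k j ≤ _) (co (K := k) q j) ^ n • v ∧
      rs M (inf_le_right : U2 k p ⊓ U2 k q ≤ _) t - ro (inf_le_right : U2 k p ⊓ U2 k q ≤ _) (co (K := k) q p) ^ n •
        rs M (inf_le_left : U2 k p ⊓ U2 k q ≤ _) s = ro (inf_le_right : U2 k p ⊓ U2 k q ≤ _) (co (K := k) q j) ^ n • w := by
  -- first extension
  obtain ⟨n1, s1, hs1⟩ := (hM p).ext' (isAffineOpen_UU p) le_rfl (co (K := k) p j)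
    (basicOpen_co p j) inf_le_left u
  obtain ⟨n2, t1, ht1⟩ := (hM q).ext' (isAffineOpen_UU q) le_rfl (co (K := k) q j)
    (basicOpen_co q j) inf_le_left v
  obtain ⟨n, hn⟩ : ∃ n, n = n1 + n2 := ⟨_, rfl⟩
  obtain ⟨s2, hs2⟩ : ∃ s2 : Γ(M, U2 k p), rs M (inf_le_left : U2 k p ⊓ U2 k j ≤ _) s2 =
      ro (inf_le_left : U2 k p ⊓ U2 k j ≤ _) (co (K := k) p j) ^ n • u := by
    refine ⟨(co (K := k) p j) ^ n2 • s1, ?_⟩
    rw [rs_smul, hs1, map_pow, smul_smul, ← pow_add, hn, add_comm]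
  obtain ⟨t2, ht2⟩ : ∃ t2 : Γ(M, U2 k q), rs M (inf_le_left : U2 k q ⊓ U2 k j ≤ _) t2 =
      ro (inf_le_left : U2 k q ⊓ U2 k j ≤ _) (co (K := k) q j) ^ n • v := by
    refine ⟨(co (K := k) q j) ^ n1 • t1, ?_⟩
    rw [rs_smul, ht1, map_pow, smul_smul, ← pow_add, hn]
  -- the difference is torsion
  obtain ⟨δ, hδ⟩ : ∃ δ : Γ(M, U2 k p ⊓ U2 k q), δ =
      rs M (inf_le_right : U2 k p ⊓ U2 k q ≤ _) t2 - ro (inf_le_right : U2 k p ⊓ U2 k q ≤ _) (co (K := k) q p) ^ n •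
        rs M (inf_le_left : U2 k p ⊓ U2 k q ≤ _) s2 - ro (inf_le_right : U2 k p ⊓ U2 k q ≤ _) (co (K := k) q j) ^ n • w := ⟨_, rfl⟩
  have hD : (P2 k).basicOpen (ro (inf_le_right : U2 k p ⊓ U2 k q ≤ U2 k q) (co q j)) =
      (U2 k p ⊓ U2 k q) ⊓ U2 k j := by
    rw [basicOpen_ro', basicOpen_co, ← inf_assoc]
    congr 1
    exact inf_eq_left.2 inf_le_right
  have hp : (U2 k p ⊓ U2 k q) ⊓ U2 k j ≤ U2 k p ⊓ U2 k j :=
    le_inf (inf_le_left.trans inf_le_left) inf_le_right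
  have hq : (U2 k p ⊓ U2 k q) ⊓ U2 k j ≤ U2 k q ⊓ U2 k j :=
    le_inf (inf_le_left.trans inf_le_right) inf_le_right
  have hpq : (U2 k p ⊓ U2 k q) ⊓ U2 k j ≤ U2 k p ⊓ U2 k q := inf_le_left
  obtain ⟨r, hr⟩ := (hM q).uniq' (D := (U2 k p ⊓ U2 k q) ⊓ U2 k j) (isAffineOpen_UU_inf p q)
    inf_le_right _ hD hpq δ (by
      rw [hδ, map_sub, map_sub, rs_smul, rs_smul, rs_rs, rs_rs, map_pow, map_pow, ro_ro, ro_ro]
      have e1 := congrArg (rs M hp) hs2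
      have e2 := congrArg (rs M hq) ht2
      rw [rs_rs, rs_smul, map_pow, ro_ro] at e1 e2
      rw [e1, e2, smul_smul, ← mul_pow]
      have e3 : ro (hpq.trans inf_le_right) (co q p) * ro (hp.trans inf_le_left) (co p j) =
          ro (hpq.trans inf_le_right) (co (K := k) q j) := by
        rw [mul_comm]
        exact co_mulW j p q (hpq.trans inf_le_left) (hpq.trans inf_le_right)
      rw [e3, ← smul_sub, ← smul_sub, huvw _ hp hq hpq, sub_self, smul_zero])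
  refine ⟨n + r, (co (K := k) p j) ^ r • s2, (co (K := k) q j) ^ r • t2, ?_, ?_, ?_⟩
  · rw [rs_smul, hs2, map_pow, smul_smul, ← pow_add, add_comm]
  · rw [rs_smul, ht2, map_pow, smul_smul, ← pow_add, add_comm]
  · rw [rs_smul, rs_smul, map_pow, map_pow]
    have e4 : ro (inf_le_right : U2 k p ⊓ U2 k q ≤ _) (co q p) ^ (n + r) •
        ro (inf_le_left : U2 k p ⊓ U2 k q ≤ _) (co p j) ^ r •
          rs M (inf_le_left : U2 k p ⊓ U2 k q ≤ _) s2 =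
        ro (inf_le_right : U2 k p ⊓ U2 k q ≤ _) (co q j) ^ r •
          ro (inf_le_right : U2 k p ⊓ U2 k q ≤ _) (co q p) ^ n •
          rs M (inf_le_left : U2 k p ⊓ U2 k q ≤ _) s2 := by
      rw [smul_smul, smul_smul, ← co_mulW j p q (inf_le_left : U2 k p ⊓ U2 k q ≤ _) inf_le_right]
      congr 1
      ring
    rw [e4, ← smul_sub, pow_add, mul_comm (ro (inf_le_right : U2 k p ⊓ U2 k q ≤ _) (co (K := k) q j) ^ n), mul_smul, ← sub_eq_zero,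
      ← smul_sub, ← hδ]
    exact hr

end Pool.Agent.H52.DA
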