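import Pool.Agent.H52.DA.DCoh

/-!
Vanishing of the first Čech cohomology for `D`-modules on the projective plane.
-/

set_option autoImplicit false

open CategoryTheory AlgebraicGeometry TopologicalSpace Opposite
open Pool.Agent.H835R3 Pool.Agent.W506

attribute [local instance] MvPolynomial.gradedAlgebra

namespace Pool.Agent.H52.DA

set_option backward.isDefEq.respectTransparency false

variable {k : Type} [Field k] {M : (P2 k).Modules}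

lemma xam_change {N : ℕ} {α : Fin 3 → ℕ} (hα : α ∈ AN N) (p q j : Fin 3) (n : ℕ) (hn : n ≤ α j)
    {V : (P2 k).Opens} (hp : V ≤ U2 k p) (hq : V ≤ U2 k q) :
    ro hq (co q p) ^ N * ro hp (xam k p j n α) = ro hq (co q p) ^ n * ro hq (xam k q j n α) := by
  have h0 : ∑ i, (α i - if i = j then n else 0) + n = N := by
    rw [mem_AN] at hα
    rw [← hα]
    have h1 : ∑ i : Fin 3, (if i = j then n else 0) = n := by simp
    conv_lhs => rw [← h1]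
    rw [← h1, ← Finset.sum_add_distrib]
    refine Finset.sum_congr rfl fun i _ => ?_
    rw [h1]
    split_ifs with hi
    · subst hi
      omega
    · omega
  have h2 : ro hq (co (K := k) q p) ^ (∑ i, (α i - if i = j then n else 0)) *
      ro hp (xam k p j n α) = ro hq (xam k q j n α) := by
    rw [xam, xam, map_prod, map_prod, ← Finset.prod_pow_eq_pow_sum, ← Finset.prod_mul_distrib]
    refine Finset.prod_congr rfl fun l _ => ?_
    rw [map_pow, map_pow, ← mul_pow, mul_comm (ro hq (co q p))]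
    rw [co_mulW l p q hp hq]
  rw [← h2, ← mul_assoc, ← pow_add, add_comm n, h0]

lemma pair_step {N : ℕ} (O : OpData M N) (j p q : Fin 3)
    (u : Γ(M, U2 k p ⊓ U2 k j)) (v : Γ(M, U2 k q ⊓ U2 k j)) (w : Γ(M, U2 k p ⊓ U2 k q))
    (n : ℕ) (s : Γ(M, U2 k p)) (t : Γ(M, U2 k q))
    (h1 : rs M (inf_le_left : U2 k p ⊓ U2 k j ≤ _) s =
      ro (inf_le_left : U2 k p ⊓ U2 k j ≤ _) (co (K := k) p j) ^ n • u)
    (h2 : rs M (inf_le_left : U2 k q ⊓ U2 k j ≤ _) t =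
      ro (inf_le_left : U2 k q ⊓ U2 k j ≤ _) (co (K := k) q j) ^ n • v)
    (h3 : rs M (inf_le_right : U2 k p ⊓ U2 k q ≤ _) t -
      ro (inf_le_right : U2 k p ⊓ U2 k q ≤ _) (co (K := k) q p) ^ n •
        rs M (inf_le_left : U2 k p ⊓ U2 k q ≤ _) s =
      ro (inf_le_right : U2 k p ⊓ U2 k q ≤ _) (co (K := k) q j) ^ n • w)
    {α : Fin 3 → ℕ} (hα : α ∈ AN N) (hn : n ≤ α j) :
    ∃ (x : Γ(M, U2 k p)) (y : Γ(M, U2 k q)),
      rs M (inf_le_left : U2 k p ⊓ U2 k j ≤ _) x = O.Y p α _ inf_le_left u ∧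
      rs M (inf_le_left : U2 k q ⊓ U2 k j ≤ _) y = O.Y q α _ inf_le_left v ∧
      rs M (inf_le_right : U2 k p ⊓ U2 k q ≤ _) y - rs M (inf_le_left : U2 k p ⊓ U2 k q ≤ _) x =
        O.Y q α _ inf_le_right w := by
  refine ⟨O.T p α _ le_rfl (xam k p j n α • s), O.T q α _ le_rfl (xam k q j n α • t), ?_, ?_, ?_⟩
  · rw [O.T_rs, rs_smul, h1, smul_smul, OpData.Y, ← xam_mul p j n α hn, map_mul, map_pow]
  · rw [O.T_rs, rs_smul, h2, smul_smul, OpData.Y, ← xam_mul q j n α hn, map_mul, map_pow]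
  · rw [O.T_rs, O.T_rs, O.T_change p q α hα _ _ inf_le_right, ← map_sub, rs_smul, rs_smul,
      smul_smul, xam_change hα p q j n hn, mul_comm (ro _ (co q p) ^ n), mul_smul, ← smul_sub, h3,
      smul_smul, OpData.Y, ← xam_mul q j n α hn, map_mul, map_pow]

theorem cechOne_dmod (hM : ∀ j, QCOn M (U2 k j)) (hO : ∀ e, 2 ≤ e → Nonempty (OpData M (2 ^ e))) :
    CechOne (tw1 k) M := by
  intro a b c habc
  have habc' : ∀ (V : (P2 k).Opens) (h01 : V ≤ U2 k 0 ⊓ U2 k 1) (h02 : V ≤ U2 k 0 ⊓ U2 k 2)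
      (h12 : V ≤ U2 k 1 ⊓ U2 k 2), rs M h12 c - rs M h02 b + rs M h01 a = 0 := by
    intro V h01 h02 h12
    have hg : (tw1 k).g 1 2 = 1 := rfl
    rw [hg, map_one, one_smul] at habc
    have h := congrArg (rs M (le_inf h01 (h12.trans inf_le_right) : V ≤ (tw1 k).W)) habc
    rw [map_add, map_sub, rs_rs, rs_rs, rs_rs, map_zero] at h
    exact h
  have sw10 : U2 k 1 ⊓ U2 k 0 ≤ U2 k 0 ⊓ U2 k 1 := le_inf inf_le_right inf_le_left
  have sw20 : U2 k 2 ⊓ U2 k 0 ≤ U2 k 0 ⊓ U2 k 2 := le_inf inf_le_right inf_le_left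
  have sw21 : U2 k 2 ⊓ U2 k 1 ≤ U2 k 1 ⊓ U2 k 2 := le_inf inf_le_right inf_le_left
  have sw01 : U2 k 0 ⊓ U2 k 1 ≤ U2 k 1 ⊓ U2 k 0 := le_inf inf_le_right inf_le_left
  have sw02 : U2 k 0 ⊓ U2 k 2 ≤ U2 k 2 ⊓ U2 k 0 := le_inf inf_le_right inf_le_left
  have sw12 : U2 k 1 ⊓ U2 k 2 ≤ U2 k 2 ⊓ U2 k 1 := le_inf inf_le_right inf_le_left
  obtain ⟨n2, s2, t2, A1, A2, A3⟩ := exists_ext_pair hM 2 0 1 (-b) (-c) a (by
    intro V h1 h2 h3
    have h := habc' V h3 h1 h2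
    rw [map_neg, map_neg, ← sub_eq_zero, ← neg_eq_zero, ← h]
    abel)
  obtain ⟨n1, s1, t1, B1, B2, B3⟩ := exists_ext_pair hM 1 0 2 (-a) (rs M sw21 c) b (by
    intro V h1 h2 h3
    have h := habc' V h1 h3 (h2.trans sw21)
    rw [map_neg, rs_rs, ← sub_eq_zero, ← h]
    abel)
  obtain ⟨n0, s0, t0, C1, C2, C3⟩ := exists_ext_pair hM 0 1 2 (rs M sw10 a) (rs M sw20 b) c (by
    intro V h1 h2 h3
    have h := habc' V (h1.trans sw10) (h2.trans sw20) h3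
    rw [rs_rs, rs_rs, ← sub_eq_zero, ← neg_eq_zero, ← h]
    abel)
  obtain ⟨e, he⟩ : ∃ e, n0 + n1 + n2 ≤ 2 ^ e := ⟨_, Nat.lt_two_pow_self.le⟩
  obtain ⟨O⟩ := hO (e + 2) (by omega)
  have hle : n0 + n1 + n2 ≤ 2 ^ (e + 2) := he.trans (Nat.pow_le_pow_right (by norm_num) (by omega))
  have key : ∀ α : Fin 3 → ℕ, ∃ (x0 : Γ(M, U2 k 0)) (x1 : Γ(M, U2 k 1)) (x2 : Γ(M, U2 k 2)),
      α ∈ AN (2 ^ (e + 2)) →
      O.Y 0 α (U2 k 0 ⊓ U2 k 1) inf_le_left a = rs M inf_le_right x1 - rs M inf_le_left x0 ∧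
      O.Y 0 α (U2 k 0 ⊓ U2 k 2) inf_le_left b = rs M inf_le_right x2 - rs M inf_le_left x0 ∧
      O.Y 1 α (U2 k 1 ⊓ U2 k 2) inf_le_left c = rs M inf_le_right x2 - rs M inf_le_left x1 := by
    intro α
    by_cases hα : α ∈ AN (2 ^ (e + 2))
    swap
    · exact ⟨0, 0, 0, fun h => absurd h hα⟩
    have hsum := mem_AN.1 hα
    rw [Fin.sum_univ_three] at hsum
    by_cases h2 : n2 ≤ α 2
    · obtain ⟨x, y, E1, E2, E3⟩ := pair_step O 2 0 1 _ _ _ n2 s2 t2 A1 A2 A3 hα h2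
      refine ⟨x, y, 0, fun _ => ⟨?_, ?_, ?_⟩⟩
      · rw [E3]
        exact O.Y_indep hα 0 1 _ _ a
      · rw [map_zero, zero_sub, E1, O.Y_neg, neg_neg]
      · rw [map_zero, zero_sub, E2, O.Y_neg, neg_neg]
    by_cases h1 : n1 ≤ α 1
    · obtain ⟨x, y, E1, E2, E3⟩ := pair_step O 1 0 2 _ _ _ n1 s1 t1 B1 B2 B3 hα h1
      refine ⟨x, 0, y, fun _ => ⟨?_, ?_, ?_⟩⟩
      · rw [map_zero, zero_sub, E1, O.Y_neg, neg_neg]
      · rw [E3]
        exact O.Y_indep hα 0 2 _ _ b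
      · rw [map_zero, sub_zero]
        have := congrArg (rs M sw12) E2
        rw [rs_rs, O.Y_rs, rs_rs, rs_refl] at this
        rw [this]
        exact O.Y_indep hα 1 2 _ _ c
    have h0 : n0 ≤ α 0 := by omega
    obtain ⟨x, y, E1, E2, E3⟩ := pair_step O 0 1 2 _ _ _ n0 s0 t0 C1 C2 C3 hα h0
    refine ⟨0, x, y, fun _ => ⟨?_, ?_, ?_⟩⟩
    · rw [map_zero, sub_zero]
      have := congrArg (rs M sw01) E1
      rw [rs_rs, O.Y_rs, rs_rs, rs_refl] at this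
      rw [this]
      exact O.Y_indep hα 0 1 _ _ a
    · rw [map_zero, sub_zero]
      have := congrArg (rs M sw02) E2
      rw [rs_rs, O.Y_rs, rs_rs, rs_refl] at this
      rw [this]
      exact O.Y_indep hα 0 2 _ _ b
    · rw [E3]
      exact O.Y_indep hα 1 2 _ _ c
  choose x0 x1 x2 hx using key
  refine ⟨fun i => match i with
    | 0 => ∑ α ∈ AN (2 ^ (e + 2)), x0 α
    | 1 => ∑ α ∈ AN (2 ^ (e + 2)), x1 α
    | 2 => ∑ α ∈ AN (2 ^ (e + 2)), x2 α, ?_, ?_, ?_⟩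
  · change a = rs M (inf_le_right : U2 k 0 ⊓ U2 k 1 ≤ _) (∑ α ∈ AN (2 ^ (e + 2)), x1 α) -
      (1 : Γ(P2 k, U2 k 0 ⊓ U2 k 1)) •
      rs M (inf_le_left : U2 k 0 ⊓ U2 k 1 ≤ _) (∑ α ∈ AN (2 ^ (e + 2)), x0 α)
    rw [one_smul, map_sum, map_sum, ← Finset.sum_sub_distrib]
    refine (O.Y_sum 0 inf_le_left a).symm.trans ?_
    exact Finset.sum_congr rfl fun α hα => (hx α hα).1
  · change b = rs M (inf_le_right : U2 k 0 ⊓ U2 k 2 ≤ _) (∑ α ∈ AN (2 ^ (e + 2)), x2 α) -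
      (1 : Γ(P2 k, U2 k 0 ⊓ U2 k 2)) •
      rs M (inf_le_left : U2 k 0 ⊓ U2 k 2 ≤ _) (∑ α ∈ AN (2 ^ (e + 2)), x0 α)
    rw [one_smul, map_sum, map_sum, ← Finset.sum_sub_distrib]
    refine (O.Y_sum 0 inf_le_left b).symm.trans ?_
    exact Finset.sum_congr rfl fun α hα => (hx α hα).2.1
  · change c = rs M (inf_le_right : U2 k 1 ⊓ U2 k 2 ≤ _) (∑ α ∈ AN (2 ^ (e + 2)), x2 α) -
      (1 : Γ(P2 k, U2 k 1 ⊓ U2 k 2)) •
      rs M (inf_le_left : U2 k 1 ⊓ U2 k 2 ≤ _) (∑ α ∈ AN (2 ^ (e + 2)), x1 α)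
    rw [one_smul, map_sum, map_sum, ← Finset.sum_sub_distrib]
    refine (O.Y_sum 1 inf_le_left c).symm.trans ?_
    exact Finset.sum_congr rfl fun α hα => (hx α hα).2.2

end Pool.Agent.H52.DA
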