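import Pool.Graph.R_seed8.H835R3.Stmt
import Pool.Graph.R_seed8.W506.A

/-!
# Modules over the sheaf of differential operators, D-affine schemes

Definitions used in the statement of the result on `MP_5ac764_ag`, Q2.
-/

set_option autoImplicit false

open CategoryTheory AlgebraicGeometry TopologicalSpace Opposite Limits

namespace Pool.Agent.H52.DA

universe u

/-- restriction of functions from `V` to a smaller open set `W` -/
noncomputable def rFun {X : Scheme.{u}} {V W : X.Opens} (h : W ≤ V) : Γ(X, V) →+* Γ(X, W) :=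
  (X.presheaf.map (homOfLE h).op).hom

/-- restriction of sections of a module `M` from `V` to a smaller open set `W` -/
noncomputable def rSec {X : Scheme.{u}} (M : X.Modules) {V W : X.Opens} (h : W ≤ V) :
    Γ(M, V) →+ Γ(M, W) :=
  (M.presheaf.map (homOfLE h).op).hom

/-- Families of additive maps `O_X(V) → O_X(V)`, one for each open `V ⊆ U`. With composition they
form a ring. -/
abbrev Fam (X : Scheme.{u}) (U : X.Opens) : Type u :=
  ∀ V : {V : X.Opens // V ≤ U}, AddMonoid.End Γ(X, V.1)

/-- The ring `D_X(U)` of sections over `U` of the sheaf of differential operators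
`D_X = ⋃_e End_{O_X^{p^e}}(O_X)` (in characteristic `p`): the endomorphisms `φ` of the sheaf of
abelian groups `O_X|_U` (families of additive maps commuting with restrictions) such that for some
`e` all the maps are linear over `p^e`-th powers. -/
def DX (X : Scheme.{u}) (p : ℕ) (U : X.Opens) : Subring (Fam X U) where
  carrier := {φ |
    (∀ (V W : {V : X.Opens // V ≤ U}) (h : W.1 ≤ V.1) (s : Γ(X, V.1)),
      rFun h (φ V s) = φ W (rFun h s)) ∧
    ∃ e : ℕ, ∀ (V : {V : X.Opens // V ≤ U}) (a s : Γ(X, V.1)),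
      φ V (a ^ p ^ e * s) = a ^ p ^ e * φ V s}
  zero_mem' := by
    refine ⟨fun V W h s => ?_, 0, fun V a s => ?_⟩
    · exact map_zero _
    · exact (mul_zero _).symm
  one_mem' := by
    refine ⟨fun V W h s => ?_, 0, fun V a s => ?_⟩
    · rfl
    · rfl
  neg_mem' := by
    rintro φ ⟨h1, e, h2⟩
    refine ⟨fun V W h s => ?_, e, fun V a s => ?_⟩
    · change rFun h (-(φ V s)) = -(φ W (rFun h s))
      rw [map_neg, h1 V W h s]
    · change -(φ V (a ^ p ^ e * s)) = a ^ p ^ e * -(φ V s)
      rw [h2, mul_neg]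
  add_mem' := by
    rintro φ ψ ⟨h1, e, h2⟩ ⟨h3, e', h4⟩
    refine ⟨fun V W h s => ?_, e + e', fun V a s => ?_⟩
    · change rFun h (φ V s + ψ V s) = φ W (rFun h s) + ψ W (rFun h s)
      rw [map_add, h1 V W h s, h3 V W h s]
    · change φ V (a ^ p ^ (e + e') * s) + ψ V (a ^ p ^ (e + e') * s) =
        a ^ p ^ (e + e') * (φ V s + ψ V s)
      have e1 : a ^ p ^ (e + e') = (a ^ p ^ e') ^ p ^ e := by
        rw [← pow_mul, ← pow_add, add_comm e' e]
      have e2 : a ^ p ^ (e + e') = (a ^ p ^ e) ^ p ^ e' := by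
        rw [← pow_mul, ← pow_add]
      rw [mul_add]
      congr 1
      · rw [e1, h2]
      · rw [e2, h4]
  mul_mem' := by
    rintro φ ψ ⟨h1, e, h2⟩ ⟨h3, e', h4⟩
    refine ⟨fun V W h s => ?_, e + e', fun V a s => ?_⟩
    · change rFun h (φ V (ψ V s)) = φ W (ψ W (rFun h s))
      rw [h1 V W h, h3 V W h s]
    · change φ V (ψ V (a ^ p ^ (e + e') * s)) = a ^ p ^ (e + e') * φ V (ψ V s)
      have e1 : a ^ p ^ (e + e') = (a ^ p ^ e') ^ p ^ e := by
        rw [← pow_mul, ← pow_add, add_comm e' e]
      have e2 : a ^ p ^ (e + e') = (a ^ p ^ e) ^ p ^ e' := by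
        rw [← pow_mul, ← pow_add]
      rw [e2, h4, ← e2, e1, h2]

/-- The restriction map `D_X(U) → D_X(U')` for `U' ⊆ U`. -/
def DX.res {X : Scheme.{u}} {p : ℕ} {U U' : X.Opens} (h : U' ≤ U) : DX X p U →+* DX X p U' where
  toFun φ := ⟨fun V => φ.1 ⟨V.1, V.2.trans h⟩,
    fun V W hWV s => φ.2.1 ⟨V.1, V.2.trans h⟩ ⟨W.1, W.2.trans h⟩ hWV s,
    φ.2.2.choose, fun V a s => φ.2.2.choose_spec ⟨V.1, V.2.trans h⟩ a s⟩
  map_one' := rfl
  map_mul' _ _ := rfl
  map_zero' := rfl
  map_add' _ _ := rfl

/-- The inclusion `O_X(U) → D_X(U)`: multiplication by a function. -/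
noncomputable def DX.mulBy {X : Scheme.{u}} (p : ℕ) {U : X.Opens} (f : Γ(X, U)) : DX X p U :=
  ⟨fun V => AddMonoidHom.mulLeft (rFun V.2 f), by
    refine ⟨fun V W h s => ?_, 0, fun V a s => ?_⟩
    · change rFun h (rFun V.2 f * s) = rFun W.2 f * rFun h s
      rw [map_mul]
      congr 1
      change (X.presheaf.map (homOfLE V.2).op ≫ X.presheaf.map (homOfLE h).op) f =
        X.presheaf.map (homOfLE W.2).op f
      rw [← Functor.map_comp]
      rfl
    · change rFun V.2 f * (a ^ p ^ 0 * s) = a ^ p ^ 0 * (rFun V.2 f * s)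
      ring⟩

/-- The structure of a left `D_X`-module on the `O_X`-module `M`, extending the structure of
`O_X`-module: ring homomorphisms `D_X(U) → End(M(U))`, compatible with restrictions, such that the
operator of multiplication by `f` acts as the scalar `f`. -/
structure DModule {X : Scheme.{u}} (p : ℕ) (M : X.Modules) where
  /-- the action -/
  act (U : X.Opens) : DX X p U →+* AddMonoid.End Γ(M, U)
  act_res (U V : X.Opens) (h : V ≤ U) (P : DX X p U) (m : Γ(M, U)) :
    rSec M h (act U P m) = act V (DX.res h P) (rSec M h m)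
  act_mulBy (U : X.Opens) (f : Γ(X, U)) (m : Γ(M, U)) : act U (DX.mulBy p f) m = f • m

/-- The `O_X`-module `M` is generated by its global sections: locally each section is a combination
of restrictions of global sections with coefficients in `O_X`. -/
def GeneratedByGlobalSections {X : Scheme.{u}} (M : X.Modules) : Prop :=
  ∀ (U : X.Opens) (m : Γ(M, U)) (x : X), x ∈ U → ∃ (V : X.Opens) (h : V ≤ U), x ∈ V ∧
    rSec M h m ∈ Submodule.span Γ(X, V) (Set.range (rSec M (le_top : V ≤ ⊤)))

/-- The scheme `X` is `D`-affine (in characteristic `p`): every left `D_X`-module `M` which is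
quasi-coherent over `O_X` is generated by its global sections (even over `O_X`) and satisfies
`H^i(X, M) = 0` for all `i > 0`. Here `H^i(X, M)` is the cohomology of the underlying sheaf of
abelian groups. -/
def IsDAffine (X : Scheme.{u}) (p : ℕ) : Prop :=
  ∀ (M : X.Modules), M.IsQuasicoherent → Nonempty (DModule p M) →
    GeneratedByGlobalSections M ∧
      ∀ i : ℕ, 0 < i → Subsingleton (Sheaf.H ((SheafOfModules.toSheaf X.ringCatSheaf).obj M) i)

end Pool.Agent.H52.DA
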