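import Pool.Agent.H52.DA.DCoh2

/-!
The projective plane in characteristic two is `D`-affine.
-/

set_option autoImplicit false

open CategoryTheory AlgebraicGeometry TopologicalSpace Opposite
open Pool.Agent.H835R3 Pool.Agent.W506

attribute [local instance] MvPolynomial.gradedAlgebra

namespace Pool.Agent.H52.DA

set_option backward.isDefEq.respectTransparency false

variable {k : Type} [Field k] {M : (P2 k).Modules}

/-- a section over a chart is a combination of global sections -/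
lemma chart_gen (hM : ∀ j, QCOn M (U2 k j)) (hO : ∀ e, 2 ≤ e → Nonempty (OpData M (2 ^ e)))
    (i : Fin 3) (t : Γ(M, U2 k i)) :
    t ∈ Submodule.span Γ(P2 k, U2 k i) (Set.range (rs M (le_top : U2 k i ≤ ⊤))) := by
  obtain ⟨d, t', ht', hti⟩ := exists_compat hM i t
  obtain ⟨e, he⟩ : ∃ e, d ≤ 2 ^ e := ⟨_, Nat.lt_two_pow_self.le⟩
  obtain ⟨O⟩ := hO (e + 2) (by omega)
  have hle : d ≤ 2 ^ (e + 2) := he.trans (Nat.pow_le_pow_right (by norm_num) (by omega))
  obtain ⟨N, hN⟩ : ∃ N, N = 2 ^ (e + 2) := ⟨_, rfl⟩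
  rw [← hN] at O hle
  have key : ∀ α ∈ AN N, ∃ σ : Γ(M, (⊤ : (P2 k).Opens)), rs M le_top σ = O.T i α (U2 k i) le_rfl t := by
    intro α hα
    obtain ⟨σ, hσ⟩ := exists_glue (M := M) (U2 k) (V := ⊤) (fun _ => le_top) iSup_UU.ge
      (fun j => O.T j α (U2 k j) le_rfl (co (K := k) j i ^ (N - d) • t' j)) (by
        intro p q
        have h1 := ht' p q
        rw [O.T_rs, O.T_rs, rs_smul, rs_smul, O.T_change p q α hα _ _ inf_le_right]
        congr 1
        have h2 : rs M (inf_le_right : U2 k p ⊓ U2 k q ≤ U2 k q) (t' q) =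
            ro (inf_le_right : U2 k p ⊓ U2 k q ≤ _) (co (K := k) q p) ^ d •
              rs M (inf_le_left : U2 k p ⊓ U2 k q ≤ U2 k p) (t' p) := by
          exact h1
        rw [h2, smul_smul, smul_smul]
        congr 1
        rw [map_pow, map_pow]
        have h3 := co_mulW (k := k) i p q (inf_le_left : U2 k p ⊓ U2 k q ≤ _) inf_le_right
        obtain ⟨r, hr⟩ : ∃ r, N = r + d := ⟨N - d, by omega⟩
        have h4 : N - d = r := by omega
        rw [h4, hr, pow_add, mul_right_comm, ← mul_pow,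
          mul_comm (ro (inf_le_right : U2 k p ⊓ U2 k q ≤ _) (co (K := k) q p)), h3])
    refine ⟨σ, ?_⟩
    refine (hσ i).trans ?_
    rw [hti, co_self, one_pow, one_smul]
  rw [← O.T_right i _ le_rfl t]
  refine Submodule.sum_mem _ fun α hα => Submodule.smul_mem _ _ ?_
  obtain ⟨σ, hσ⟩ := key α hα
  rw [← hσ]
  exact Submodule.subset_span ⟨σ, rfl⟩

theorem gen_dmod (hM : ∀ j, QCOn M (U2 k j)) (hO : ∀ e, 2 ≤ e → Nonempty (OpData M (2 ^ e))) :
    GeneratedByGlobalSections M := by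
  intro U m x hx
  obtain ⟨i, hxi⟩ : ∃ i, x ∈ U2 k i := by
    have : x ∈ ⨆ i, U2 k i := by
      rw [show ⨆ i, U2 k i = ⊤ from iSup_UU]
      trivial
    exact Opens.mem_iSup.1 this
  obtain ⟨f, hfU, hxf⟩ := (isAffineOpen_UU (K := k) i).exists_basicOpen_le (V := U) ⟨x, hx⟩ hxi
  have hfi : (P2 k).basicOpen f ≤ U2 k i := (P2 k).basicOpen_le f
  obtain ⟨n, t, ht⟩ := (hM i).ext' (isAffineOpen_UU i) le_rfl f rfl hfi (rs M hfU m)
  refine ⟨(P2 k).basicOpen f, hfU, hxf, ?_⟩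
  have hu : IsUnit (ro hfi f) := RingedSpace.isUnit_res_basicOpen (P2 k).toRingedSpace f
  have hu' : IsUnit (ro hfi f ^ n) := hu.pow n
  change rs M hfU m ∈ Submodule.span Γ(P2 k, (P2 k).basicOpen f)
    (Set.range (rs M (le_top : (P2 k).basicOpen f ≤ ⊤)))
  have h1 : rs M hfi t ∈ Submodule.span Γ(P2 k, (P2 k).basicOpen f)
      (Set.range (rs M (le_top : (P2 k).basicOpen f ≤ ⊤))) := by
    have h2 := chart_gen hM hO i t
    refine Submodule.span_induction
      (p := fun t _ => rs M hfi t ∈ Submodule.span Γ(P2 k, (P2 k).basicOpen f)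
        (Set.range (rs M (le_top : (P2 k).basicOpen f ≤ ⊤)))) ?_ ?_ ?_ ?_ h2
    · rintro _ ⟨σ, rfl⟩
      rw [rs_rs]
      exact Submodule.subset_span ⟨σ, rfl⟩
    · rw [map_zero]
      exact Submodule.zero_mem _
    · intro a b _ _ ha hb
      rw [map_add]
      exact Submodule.add_mem _ ha hb
    · intro r a _ ha
      rw [rs_smul]
      exact Submodule.smul_mem _ _ ha
  rw [ht] at h1
  have h3 := Submodule.smul_mem _ (↑(hu'.unit⁻¹) : Γ(P2 k, (P2 k).basicOpen f)) h1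
  rw [smul_smul, IsUnit.val_inv_mul, one_smul] at h3
  exact h3

theorem kk_dmod (hM : ∀ j, QCOn M (U2 k j)) (hMt : QCOn M ⊤)
    (hO : ∀ e, 2 ≤ e → Nonempty (OpData M (2 ^ e))) : KK (tw1 k) M :=
  ⟨hMt.sumOn, cechOne_dmod hM hO, cechTwo_dmod hM hO⟩

/-- The projective plane in characteristic two is `D`-affine. -/
theorem isDAffine_P2 (k : Type) [Field k] [CharP k 2] : IsDAffine (P2 k) 2 := by
  intro M hM ⟨S⟩
  have hq : ∀ W, QCOn M W := fun W => qcOn_of_isQuasicoherent M W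
  have hO : ∀ e, 2 ≤ e → Nonempty (OpData M (2 ^ e)) := fun e he => exists_opData M S e he
  refine ⟨gen_dmod (fun j => hq _) hO, ?_⟩
  intro i hi
  obtain ⟨n, rfl⟩ : ∃ n, i = n + 1 := ⟨i - 1, by omega⟩
  exact h_vanish (tw1 k) (fun _ _ => rfl) n M (kk_dmod (fun j => hq _) (hq _) hO)

end Pool.Agent.H52.DA
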