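import Pool.Agent.H52.DA.Sect
import Pool.Agent.H52.DA.Coh
import Pool.Graph.R_seed8.W506.Q1

/-!
The operators on the sections of a `D`-module on the projective plane.
-/

set_option autoImplicit false

open CategoryTheory AlgebraicGeometry TopologicalSpace Opposite
open Pool.Agent.H835R3 Pool.Agent.W506

attribute [local instance] MvPolynomial.gradedAlgebra

namespace Pool.Agent.H52.DA

set_option backward.isDefEq.respectTransparency false

variable {k : Type} [Field k]

/-- the charts with trivial transition functions -/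
noncomputable def tw1 (k : Type) [Field k] : Tw (P2 k) where
  U := U2 k
  g _ _ := 1
  aff := isAffineOpen_UU
  aff2 := isAffineOpen_UU_inf
  aff3 := isAffineOpen_W
  cover := iSup_UU
  g_self _ := rfl
  g_cocycle i j l := by
    rw [map_one, map_one, map_one, mul_one]

/-- A collection of operators on the sections of `M` over the open subsets of the charts. -/
structure OpData (M : (P2 k).Modules) (N : ℕ) where
  /-- the operator `∂^{[α]} x_j^N` -/
  T (j : Fin 3) (α : Fin 3 → ℕ) (V : (P2 k).Opens) (h : V ≤ U2 k j) : Γ(M, V) →+ Γ(M, V)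
  T_rs (j : Fin 3) (α : Fin 3 → ℕ) (V V' : (P2 k).Opens) (h : V ≤ U2 k j) (h' : V' ≤ V)
    (m : Γ(M, V)) : rs M h' (T j α V h m) = T j α V' (h'.trans h) (rs M h' m)
  T_change (i j : Fin 3) (α : Fin 3 → ℕ) (hα : α ∈ AN N) (V : (P2 k).Opens) (hi : V ≤ U2 k i)
    (hj : V ≤ U2 k j) (m : Γ(M, V)) :
    T i α V hi m = T j α V hj (ro hj (co j i) ^ N • m)
  T_left (j : Fin 3) (V : (P2 k).Opens) (h : V ≤ U2 k j) (m : Γ(M, V)) :
    ∑ α ∈ AN N, T j α V h (ro h (xal k j α) • m) = m
  T_right (j : Fin 3) (V : (P2 k).Opens) (h : V ≤ U2 k j) (m : Γ(M, V)) :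
    ∑ α ∈ AN N, ro h (xal k j α) • T j α V h m = m

lemma res_mulBy {X : Scheme.{0}} {p : ℕ} {U V : X.Opens} (h : V ≤ U) (f : Γ(X, U)) :
    DX.res h (DX.mulBy p f) = DX.mulBy p (rFun h f) := by
  apply Subtype.ext
  funext W
  apply AddMonoidHom.ext
  intro s
  change rFun (W.2.trans h) f * s = rFun W.2 (rFun h f) * s
  congr 1
  exact (ro_ro W.2 h f).symm

/-- the operators given by the structure of `D`-module -/
theorem exists_opData [CharP k 2] (M : (P2 k).Modules) (S : DModule 2 M) (e : ℕ) (he : 2 ≤ e) :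
    Nonempty (OpData M (2 ^ e)) := by
  obtain ⟨P, h1, h2, h3⟩ := exists_ops (k := k) e he
  have hres : ∀ {U V W : (P2 k).Opens} (h : V ≤ U) (h' : W ≤ V) (Q : DX (P2 k) 2 U),
      DX.res h' (DX.res h Q) = DX.res (h'.trans h) Q := fun h h' Q => rfl
  refine ⟨{ T := fun j α V h => S.act V (DX.res h (P j α))
            T_rs := ?_
            T_change := ?_
            T_left := ?_
            T_right := ?_ }⟩
  · intro j α V V' h h' m
    have h4 := S.act_res V V' h' (DX.res h (P j α)) m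
    rw [hres] at h4
    exact h4
  · intro i j α hα V hi hj m
    have h4 := h1 i j α hα V hi hj
    have h5 : S.act V (DX.res hi (P i α)) m =
        S.act V (DX.res hj (P j α) * DX.mulBy 2 (rFun hj (co j i) ^ 2 ^ e)) m := by rw [h4]
    rw [map_mul] at h5
    refine h5.trans ?_
    exact congrArg (S.act V (DX.res hj (P j α))) (S.act_mulBy V _ m)
  · intro j V h m
    have h4 := congrArg (DX.res h) (h2 j)
    rw [map_sum, map_one] at h4
    have h5 := congrArg (fun Q => S.act V Q m) h4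
    simp only [map_sum, map_one] at h5
    rw [AddMonoidHom.finsetSum_apply] at h5
    refine Eq.trans ?_ h5
    refine Finset.sum_congr rfl fun α _ => ?_
    rw [map_mul, map_mul, res_mulBy]
    exact (congrArg (S.act V (DX.res h (P j α))) (S.act_mulBy V _ m)).symm
  · intro j V h m
    have h4 := congrArg (DX.res h) (h3 j)
    rw [map_sum, map_one] at h4
    have h5 := congrArg (fun Q => S.act V Q m) h4
    simp only [map_sum, map_one] at h5
    rw [AddMonoidHom.finsetSum_apply] at h5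
    refine Eq.trans ?_ h5
    refine Finset.sum_congr rfl fun α _ => ?_
    rw [map_mul, map_mul, res_mulBy]
    exact (S.act_mulBy V _ _).symm

variable {M : (P2 k).Modules} {N : ℕ} (O : OpData M N)

/-- the operator `∂^{[α]} x^α` -/
noncomputable def OpData.Y (j : Fin 3) (α : Fin 3 → ℕ) (V : (P2 k).Opens) (h : V ≤ U2 k j)
    (m : Γ(M, V)) : Γ(M, V) := O.T j α V h (ro h (xal k j α) • m)

lemma OpData.Y_rs (j : Fin 3) (α : Fin 3 → ℕ) {V V' : (P2 k).Opens} (h : V ≤ U2 k j)
    (h' : V' ≤ V) (m : Γ(M, V)) :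
    rs M h' (O.Y j α V h m) = O.Y j α V' (h'.trans h) (rs M h' m) := by
  rw [OpData.Y, O.T_rs, rs_smul, ro_ro]
  rfl

lemma OpData.Y_sum (j : Fin 3) {V : (P2 k).Opens} (h : V ≤ U2 k j) (m : Γ(M, V)) :
    ∑ α ∈ AN N, O.Y j α V h m = m := O.T_left j V h m

lemma OpData.Y_neg (j : Fin 3) (α : Fin 3 → ℕ) {V : (P2 k).Opens} (h : V ≤ U2 k j) (m : Γ(M, V)) :
    O.Y j α V h (-m) = - O.Y j α V h m := by
  rw [OpData.Y, smul_neg, map_neg]
  rfl

/-- relation of coordinates -/
lemma co_mulW (i j l : Fin 3) {V : (P2 k).Opens} (hj : V ≤ U2 k j) (hl : V ≤ U2 k l) :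
    ro hj (co j i) * ro hl (co l j) = ro hl (co l i) := co_mulV i j l hj hl

lemma xal_change {α : Fin 3 → ℕ} (hα : α ∈ AN N) (i j : Fin 3) {V : (P2 k).Opens}
    (hi : V ≤ U2 k i) (hj : V ≤ U2 k j) :
    ro hj (co j i) ^ N * ro hi (xal k i α) = ro hj (xal k j α) := by
  rw [xal, xal, map_prod, map_prod]
  rw [mem_AN] at hα
  rw [← hα, ← Finset.prod_pow_eq_pow_sum, ← Finset.prod_mul_distrib]
  refine Finset.prod_congr rfl fun l _ => ?_
  rw [map_pow, map_pow, ← mul_pow, mul_comm (ro hj (co j i))]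
  rw [co_mulW l i j hi hj]

lemma OpData.Y_indep {α : Fin 3 → ℕ} (hα : α ∈ AN N) (i j : Fin 3) {V : (P2 k).Opens}
    (hi : V ≤ U2 k i) (hj : V ≤ U2 k j) (m : Γ(M, V)) : O.Y i α V hi m = O.Y j α V hj m := by
  rw [OpData.Y, OpData.Y, O.T_change i j α hα V hi hj, smul_smul, xal_change hα i j hi hj]

/-- the function `x^α / (x_j^(N-n) x_m^n)` -/
noncomputable def xam (k : Type) [Field k] (j m : Fin 3) (n : ℕ) (α : Fin 3 → ℕ) :
    Γ(P2 k, U2 k j) :=
  ∏ i, co j i ^ (α i - if i = m then n else 0)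

lemma xam_mul (j m : Fin 3) (n : ℕ) (α : Fin 3 → ℕ) (h : n ≤ α m) :
    xam k j m n α * co j m ^ n = xal k j α := by
  rw [xam, xal]
  have h1 : (co j m : Γ(P2 k, U2 k j)) ^ n = ∏ i, co j i ^ (if i = m then n else 0) := by
    rw [Finset.prod_eq_single m]
    · rw [if_pos rfl]
    · intro b _ hb
      rw [if_neg hb, pow_zero]
    · intro h
      exact absurd (Finset.mem_univ m) h
  rw [h1, ← Finset.prod_mul_distrib]
  refine Finset.prod_congr rfl fun i _ => ?_
  rw [← pow_add]
  congr 1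
  split_ifs with hi
  · subst hi
    omega
  · omega

end Pool.Agent.H52.DA
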