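import Pool.Agent.H52.DA.Chart

/-!
Injectivity of the embedding of the Laurent polynomials; extension of operators to the function
field and to the sheaf.
-/

set_option autoImplicit false

open CategoryTheory AlgebraicGeometry TopologicalSpace Opposite AddMonoidAlgebra
open Pool.Agent.H835R3 Pool.Agent.W506

attribute [local instance] MvPolynomial.gradedAlgebra

namespace Pool.Agent.H52.DA

set_option backward.isDefEq.respectTransparency false

variable {k : Type} [Field k]

/-- affine coordinates as Laurent monomials -/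
noncomputable def thet (k : Type) [Field k] : MvPolynomial (Fin 2) k →+* Lau k :=
  MvPolynomial.eval₂Hom (algebraMap k (Lau k))
    (fun j => if j = 0 then single (1, 0) (1 : k) else single (0, 1) (1 : k))

lemma iota_algebraMap (c : k) : iota k (algebraMap k (Lau k) c) = kc k c := by
  have : algebraMap k (Lau k) c = single 0 c := rfl
  rw [this, iota_single]
  simp

lemma iota_thet (f : MvPolynomial (Fin 2) k) :
    iota k (thet k f) = gam (U2 k 0) (gen_mem k 0) (phi 0 f) := by
  have h : (iota k).comp (thet k) = (gam (U2 k 0) (gen_mem k 0)).comp (phi 0) := by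
    apply MvPolynomial.ringHom_ext
    · intro c
      rw [RingHom.comp_apply, RingHom.comp_apply, thet, MvPolynomial.coe_eval₂Hom,
        MvPolynomial.eval₂_C, phi, MvPolynomial.coe_eval₂Hom, MvPolynomial.eval₂_C,
        iota_algebraMap]
      rfl
    · intro j
      rw [RingHom.comp_apply, RingHom.comp_apply, thet, MvPolynomial.coe_eval₂Hom,
        MvPolynomial.eval₂_X, phi, MvPolynomial.coe_eval₂Hom, MvPolynomial.eval₂_X]
      have h1 : ∀ j : Fin 2, gam (U2 k 0) (gen_mem k 0) (co 0 ((0 : Fin 3).succAbove j)) =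
          tt k ((0 : Fin 3).succAbove j) := fun j => rfl
      rw [h1]
      have hj : j = 0 ∨ j = 1 := by
        revert j
        decide
      rcases hj with rfl | rfl
      · rw [if_pos rfl, iota_single]
        simp
      · rw [if_neg (by decide), iota_single]
        simp
  exact congr($h f)

lemma thet_surj (l : Lau k) (hl : l ∈ coneSub k (cone3 {0})) : ∃ f, thet k f = l := by
  refine coneSub_ind (fun l => ∃ f, thet k f = l) ⟨0, map_zero _⟩ ?_ ?_ l hl
  · rintro a b ⟨f, rfl⟩ ⟨g, rfl⟩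
    exact ⟨f + g, map_add _ _ _⟩
  · intro u hu' c
    have h1 : 0 ≤ u.1 := hu' 1 (by decide)
    have h2 : 0 ≤ u.2 := hu' 2 (by decide)
    obtain ⟨m, hm⟩ := Int.eq_ofNat_of_zero_le h1
    obtain ⟨n, hn⟩ := Int.eq_ofNat_of_zero_le h2
    refine ⟨MvPolynomial.C c * (MvPolynomial.X 0 ^ m * MvPolynomial.X 1 ^ n), ?_⟩
    rw [map_mul, map_mul, map_pow, map_pow, thet, MvPolynomial.coe_eval₂Hom,
        MvPolynomial.eval₂_C, MvPolynomial.eval₂_X, MvPolynomial.eval₂_X, if_pos rfl,
        if_neg (by decide), single_pow, single_pow, single_mul_single]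
    have : algebraMap k (Lau k) c = single 0 c := rfl
    rw [this, single_mul_single]
    congr 1
    · ext
      · simp [hm]
      · simp [hn]
    · simp

lemma exists_shift (l : Lau k) : ∃ n : ℕ, ∀ m, n ≤ m →
    l * single (m • ((1, 1) : ℤ × ℤ)) (1 : k) ∈ coneSub k (cone3 {0}) := by
  induction l using AddMonoidAlgebra.induction_linear with
  | zero => exact ⟨0, fun m _ => by rw [zero_mul]; exact zero_mem _⟩
  | add a b ha hb =>
    obtain ⟨n, hn⟩ := ha
    obtain ⟨n', hn'⟩ := hb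
    refine ⟨max n n', fun m hm => ?_⟩
    rw [add_mul]
    exact add_mem (hn m (le_trans (le_max_left _ _) hm)) (hn' m (le_trans (le_max_right _ _) hm))
  | single u c =>
    refine ⟨(-u.1).toNat + (-u.2).toNat, fun m hm => ?_⟩
    rw [single_mul_single]
    apply single_mem_coneSub
    intro i hi
    rw [hu_add, Pi.add_apply, hu_nsmul]
    fin_cases i
    · exact absurd (by decide) hi
    · change 0 ≤ u.1 + m * 1
      omega
    · change 0 ≤ u.2 + m * 1
      omega

lemma iota_injective : Function.Injective (iota k) := by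
  rw [injective_iff_map_eq_zero]
  intro l hl
  obtain ⟨n, hn⟩ := exists_shift l
  obtain ⟨f, hf⟩ := thet_surj _ (hn n le_rfl)
  have h1 : gam (U2 k 0) (gen_mem k 0) (phi 0 f) = 0 := by
    rw [← iota_thet, hf, map_mul, hl, zero_mul]
  have h2 : phi 0 f = 0 := gam_injective _ _ (by rw [h1, map_zero])
  have h3 : f = 0 := phi_injective 0 (by rw [h2, map_zero])
  rw [h3, map_zero] at hf
  have h4 := congrArg (· * (single (-(n • ((1, 1) : ℤ × ℤ))) (1 : k) : Lau k)) hf
  simp only [zero_mul, mul_assoc, single_mul_single, add_neg_cancel, one_mul] at h4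
  have h5 : (single (0 : ℤ × ℤ) (1 : k) : Lau k) = 1 := rfl
  rw [h5, mul_one] at h4
  exact h4.symm

/-- the torus -/
noncomputable abbrev W2 (k : Type) [Field k] : (P2 k).Opens := (U2 k 0 ⊓ U2 k 1) ⊓ U2 k 2

lemma gen_mem_W : genericPoint (P2 k) ∈ W2 k := ⟨⟨gen_mem k 0, gen_mem k 1⟩, gen_mem k 2⟩

lemma isAffineOpen_W : IsAffineOpen (W2 k) := by
  have hD : (P2 k).basicOpen (ro (inf_le_left : U2 k 0 ⊓ U2 k 1 ≤ U2 k 0) (co 0 2)) = W2 k := by
    rw [basicOpen_ro', basicOpen_co, ← inf_assoc]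
    congr 1
    exact inf_eq_left.2 inf_le_left
  rw [← hD]
  exact (isAffineOpen_UU_inf 0 1).basicOpen _

lemma cone3_univ (u : ℤ × ℤ) : u ∈ cone3 ({0, 1, 2} : Finset (Fin 3)) := by
  intro i hi
  exfalso
  apply hi
  fin_cases i <;> simp

/-- sections over the torus -/
lemma torus_surj (l : Lau k) : ∃ s : Γ(P2 k, W2 k), gam (W2 k) gen_mem_W s = iota k l := by
  obtain ⟨h, -, h2⟩ := rg_triple (k := k) (i := 0) (j := 1) (m := 2)
  exact h2 l (fun u _ => cone3_univ u)

lemma torus_inj (s : Γ(P2 k, W2 k)) : ∃ l : Lau k, gam (W2 k) gen_mem_W s = iota k l := by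
  obtain ⟨h, h1, -⟩ := rg_triple (k := k) (i := 0) (j := 1) (m := 2)
  obtain ⟨l, -, hl⟩ := h1 s
  exact ⟨l, hl⟩

/-- extension of operators from the Laurent polynomials -/
lemma exists_extL {q q' : ℕ} (hq : 0 < q) (φ : Lau k →+ Lau k) (hφ : IsSemi q q' φ) :
    ∃ Φ : FF k →+ FF k, IsSemi q q' Φ ∧ ∀ l, Φ (iota k l) = iota k (φ l) := by
  choose σ hσ using torus_surj (k := k)
  choose τ hτ using torus_inj (k := k)
  have hτadd : ∀ s t, τ (s + t) = τ s + τ t := by
    intro s t
    apply iota_injective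
    rw [← hτ, map_add, map_add, hτ, hτ]
  have hτmul : ∀ s t, τ (s * t) = τ s * τ t := by
    intro s t
    apply iota_injective
    rw [← hτ, map_mul, map_mul, hτ, hτ]
  have hτone : τ 1 = 1 := by
    apply iota_injective
    rw [← hτ, map_one, map_one]
  have hτpow : ∀ s (n : ℕ), τ (s ^ n) = τ s ^ n := by
    intro s n
    apply iota_injective
    rw [← hτ, map_pow, map_pow, hτ]
  have hσadd : ∀ a b, σ (a + b) = σ a + σ b := by
    intro a b
    apply gam_injective (W2 k) gen_mem_W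
    rw [hσ, map_add, map_add, hσ, hσ]
  have hσmul : ∀ a b, σ (a * b) = σ a * σ b := by
    intro a b
    apply gam_injective (W2 k) gen_mem_W
    rw [hσ, map_mul, map_mul, hσ, hσ]
  have hσpow : ∀ a (n : ℕ), σ (a ^ n) = σ a ^ n := by
    intro a n
    apply gam_injective (W2 k) gen_mem_W
    rw [hσ, map_pow, map_pow, hσ]
  have hστ : ∀ s, σ (τ s) = s := by
    intro s
    apply gam_injective (W2 k) gen_mem_W
    rw [hσ, ← hτ]
  have hτσ : ∀ l, τ (σ l) = l := by
    intro l
    apply iota_injective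
    rw [← hτ, hσ]
  let φ' : Γ(P2 k, W2 k) →+ Γ(P2 k, W2 k) :=
    AddMonoidHom.mk' (fun s => σ (φ (τ s))) (by
      intro s t
      rw [hτadd, map_add, hσadd])
  have hφ'app : ∀ s, φ' s = σ (φ (τ s)) := fun s => rfl
  have hφ' : IsSemi q q' φ' := by
    intro a b
    rw [hφ'app, hφ'app, hτmul, hτpow, hφ, hσmul, hσpow, hστ]
  have hne : Nonempty (W2 k) := ⟨⟨_, gen_mem_W⟩⟩
  have : IsFractionRing Γ(P2 k, W2 k) (P2 k).functionField :=
    functionField_isFractionRing_of_isAffineOpen (P2 k) (W2 k) isAffineOpen_W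
  refine ⟨extHom hq φ' hφ', extHom_isSemi hq φ' hφ', fun l => ?_⟩
  rw [← hσ]
  refine (extHom_algebraMap (K := (P2 k).functionField) hq φ' hφ' (σ l)).trans ?_
  rw [hφ'app, hτσ]
  exact hσ _

lemma ext_uniqueL {q q' : ℕ} (hq : 0 < q) (Φ Ψ : FF k →+ FF k)
    (hΦ : IsSemi q q' Φ) (hΨ : IsSemi q q' Ψ)
    (h : ∀ l, Φ (iota k l) = Ψ (iota k l)) : Φ = Ψ := by
  have hne : Nonempty (W2 k) := ⟨⟨_, gen_mem_W⟩⟩
  have : IsFractionRing Γ(P2 k, W2 k) (P2 k).functionField :=
    functionField_isFractionRing_of_isAffineOpen (P2 k) (W2 k) isAffineOpen_W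
  ext z
  obtain ⟨⟨a, s⟩, hz⟩ := IsLocalization.surj (nonZeroDivisors Γ(P2 k, W2 k)) z
  have hz' : z * gam (W2 k) gen_mem_W s = gam (W2 k) gen_mem_W a := hz
  have hs : gam (W2 k) gen_mem_W s ≠ 0 := by
    intro h0
    have h1 : (s : Γ(P2 k, W2 k)) = 0 := gam_injective (W2 k) gen_mem_W (by rw [h0, map_zero])
    exact nonZeroDivisors.ne_zero s.2 h1
  have h2 : z = ((gam (W2 k) gen_mem_W s)⁻¹) ^ q *
      gam (W2 k) gen_mem_W (a * (s : Γ(P2 k, W2 k)) ^ (q - 1)) := by
    rw [map_mul, map_pow, ← hz', inv_pow]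
    obtain ⟨r, rfl⟩ : ∃ r, q = r + 1 := ⟨q - 1, by omega⟩
    simp only [Nat.add_sub_cancel, pow_succ]
    field_simp
  obtain ⟨l, hl⟩ := torus_inj (a * (s : Γ(P2 k, W2 k)) ^ (q - 1))
  rw [h2, hΦ, hΨ, hl, h]

end Pool.Agent.H52.DA
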