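import Pool.Graph.R_seed8.W506.A
import Pool.Graph.R_seed8.H835R3.Stmt

/-!
# Direct images of the structure sheaf under Frobenius, tilting sheaves

Definitions used in the statement of the result on `MP_5ac764_ag`, Q2.
-/

set_option autoImplicit false

open CategoryTheory AlgebraicGeometry TopologicalSpace Opposite Limits

namespace Pool.Agent.H52.DA

universe u

open Pool.Agent.H835R3.Stmt (Sec)

/-- The scheme `X` has characteristic `p`: `p = 0` in `O_X(V)` for every open `V`. -/
def HasChar (X : Scheme.{u}) (p : ℕ) : Prop := ∀ V : X.Opens, ((p : ℕ) : Sec V) = 0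

lemma powHom_add {R : Type u} [CommRing R] (p e : ℕ) (hp : p.Prime) (hR : (p : R) = 0) (a b : R) :
    (a + b) ^ p ^ e = a ^ p ^ e + b ^ p ^ e := by
  obtain ⟨r, hr⟩ := exists_add_pow_prime_pow_eq hp a b e
  rw [hr, hR, zero_mul, zero_mul, zero_mul, add_zero]

lemma powHom_zero {R : Type u} [CommRing R] (p e : ℕ) (hp : p.Prime) : (0 : R) ^ p ^ e = 0 :=
  zero_pow (pow_pos hp.pos e).ne'

/-- The ring homomorphism `a ↦ a ^ p ^ e` of a commutative ring with `p = 0`, `p` prime. -/
def powHom {R : Type u} [CommRing R] (p e : ℕ) (hp : p.Prime) (hR : (p : R) = 0) : R →+* R where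
  toFun a := a ^ p ^ e
  map_one' := one_pow _
  map_mul' a b := mul_pow _ _ _
  map_zero' := powHom_zero p e hp
  map_add' a b := powHom_add p e hp hR a b

/-- The map `a ↦ a ^ p ^ e` on the ring `O_X(U)`. -/
noncomputable def frobApp (X : Scheme.{u}) (p e : ℕ) (hp : p.Prime) (hX : HasChar X p)
    (U : (X.Opens)ᵒᵖ) : X.ringCatSheaf.obj.obj U ⟶ X.ringCatSheaf.obj.obj U :=
  RingCat.ofHom (R := Sec U.unop) (S := Sec U.unop) (powHom p e hp (hX U.unop))

lemma frobApp_naturality (X : Scheme.{u}) (p e : ℕ) (hp : p.Prime) (hX : HasChar X p)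
    (U V : (X.Opens)ᵒᵖ) (i : U ⟶ V) :
    X.ringCatSheaf.obj.map i ≫ frobApp X p e hp hX V =
      frobApp X p e hp hX U ≫ X.ringCatSheaf.obj.map i := by
  ext a
  exact ((X.presheaf.map i).hom.map_pow a (p ^ e)).symm

/-- The endomorphism `a ↦ a ^ p ^ e` of the structure sheaf of rings of a scheme `X` of
characteristic `p`: the action on functions of the `e`-th power `F^e` of the absolute Frobenius
morphism (which is the identity on the underlying topological space). -/
noncomputable def frobSheaf (X : Scheme.{u}) (p e : ℕ) (hp : p.Prime) (hX : HasChar X p) :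
    X.ringCatSheaf ⟶ X.ringCatSheaf :=
  ⟨⟨frobApp X p e hp hX, fun U V => frobApp_naturality X p e hp hX U V⟩⟩

/-- The `O_X`-module `F^e_* O_X`: the sheaf `O_X` with the `O_X`-module structure given by restriction
of scalars along `a ↦ a ^ p ^ e`. -/
noncomputable def frobPush (X : Scheme.{u}) (p e : ℕ) (hp : p.Prime) (hX : HasChar X p) :
    X.Modules :=
  (SheafOfModules.restrictScalars (frobSheaf X p e hp hX)).obj (SheafOfModules.unit X.ringCatSheaf)

/-- Sections of `F^e_* O_X` over `U` are sections of `O_X` over `U`. -/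
def ofSec {X : Scheme.{u}} {p e : ℕ} {hp : p.Prime} {hX : HasChar X p} (U : X.Opens)
    (s : Γ(X, U)) : Γ(frobPush X p e hp hX, U) := s

/-- Sections of `F^e_* O_X` over `U` are sections of `O_X` over `U`. -/
def toSec {X : Scheme.{u}} {p e : ℕ} {hp : p.Prime} {hX : HasChar X p} (U : X.Opens)
    (s : Γ(frobPush X p e hp hX, U)) : Γ(X, U) := s

lemma toSec_ofSec {X : Scheme.{u}} {p e : ℕ} {hp : p.Prime} {hX : HasChar X p}
    (U : X.Opens) (s : Γ(X, U)) :
    toSec U (ofSec (e := e) (hp := hp) (hX := hX) U s) = s := rfl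

/-- The action of `O_X` on `F^e_* O_X`. -/
lemma toSec_smul {X : Scheme.{u}} {p e : ℕ} {hp : p.Prime} {hX : HasChar X p}
    (U : X.Opens) (a : Γ(X, U)) (s : Γ(frobPush X p e hp hX, U)) :
    toSec U (a • s) = a ^ p ^ e * toSec U s := rfl

lemma toSec_add {X : Scheme.{u}} {p e : ℕ} {hp : p.Prime} {hX : HasChar X p}
    (U : X.Opens) (s t : Γ(frobPush X p e hp hX, U)) :
    toSec U (s + t) = toSec U s + toSec U t := rfl

/-- The restriction maps of `F^e_* O_X` are those of `O_X`. -/
lemma toSec_map {X : Scheme.{u}} {p e : ℕ} {hp : p.Prime} {hX : HasChar X p}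
    {U V : X.Opens} (h : V ≤ U) (s : Γ(frobPush X p e hp hX, U)) :
    toSec V (((frobPush X p e hp hX).presheaf.map (homOfLE h).op) s) =
      X.presheaf.map (homOfLE h).op (toSec U s) := rfl

attribute [local instance] HasDerivedCategory.standard

/-- Objects of the derived category of modules on `X` with bounded cohomology modules of finite
presentation. For a noetherian scheme `X` (where modules of finite presentation and coherent
modules are the same) these form the bounded derived category `D^b(Coh X)`. -/
def isDbCoh (X : Scheme.{u}) : ObjectProperty (DerivedCategory X.Modules) := fun E =>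
  (∀ i : ℤ, SheafOfModules.IsFinitePresentation (R := X.ringCatSheaf)
    ((DerivedCategory.homologyFunctor X.Modules i).obj E)) ∧
  ∃ a b : ℤ, ∀ i : ℤ, (i < a ∨ b < i) →
    IsZero ((DerivedCategory.homologyFunctor X.Modules i).obj E)

/-- The module `T`, as an object of the derived category, classically generates `D^b(Coh X)`: the
smallest triangulated subcategory closed under direct summands which contains `T` contains
`D^b(Coh X)`. -/
def ClassicallyGenerates {X : Scheme.{u}} (T : X.Modules) : Prop :=
  isDbCoh X ≤ (ObjectProperty.singleton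
    ((DerivedCategory.singleFunctor X.Modules 0).obj T)).triangEnvelope

/-- The module `T` is tilting: `Ext^i(T, T) = 0` for all `i > 0` and `T` classically generates
`D^b(Coh X)`. -/
def IsTilting {X : Scheme.{u}} (T : X.Modules) : Prop :=
  (∀ i : ℤ, 0 < i → Subsingleton ((DerivedCategory.singleFunctor X.Modules 0).obj T ⟶
    ((DerivedCategory.singleFunctor X.Modules 0).obj T)⟦i⟧)) ∧
  ClassicallyGenerates T

end Pool.Agent.H52.DA
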