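import Pool.Agent.H52.DA.Sect
import Pool.Agent.H52.DA.NDef
import Pool.Graph.R_seed8.H835R3.Smooth
import Pool.Graph.R_seed8.W506.L4

/-!
The projective plane: smoothness, projectivity, global F-splitting.
-/

set_option autoImplicit false

open CategoryTheory AlgebraicGeometry TopologicalSpace Opposite AddMonoidAlgebra
open HomogeneousLocalization
open Pool.Agent.H835R3 Pool.Agent.W506

attribute [local instance] MvPolynomial.gradedAlgebra

namespace Pool.Agent.H52.DA

set_option backward.isDefEq.respectTransparency false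

variable (k : Type) [Field k]

theorem smooth_P2 : SmoothOfRelativeDimension 2
    (Stmt.toSpecK (MvPolynomial.homogeneousSubmodule (Fin 3) k)) := by
  refine H159SM.SM4 (MvPolynomial.homogeneousSubmodule (Fin 3) k) (MvPolynomial (Fin 2) k)
    smooth_plane ?_
  intro P hP hhom hirr
  have hx : (⟨⟨P, hhom⟩, hP, hirr⟩ : PP k 2) ∈ (⨆ i, U2 k i) := by
    rw [show ⨆ i, U2 k i = ⊤ from iSup_UU]
    trivial
  obtain ⟨i, hi⟩ := Opens.mem_iSup.1 hx
  have hi' : (MvPolynomial.X i : MvPolynomial (Fin 3) k) ∉ P := hi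
  refine ⟨MvPolynomial.X i, X_mem (n := 2) i, hi', ?_⟩
  have hb := awayToSection_bijective (X_mem (K := k) (n := 2) i) one_pos
  refine ⟨(chartEquiv (K := k) (n := 2) i).trans (RingEquiv.ofBijective
    (Proj.awayToSection (gr k 2) (MvPolynomial.X i)).hom hb).symm, fun c => ?_⟩
  rw [RingEquiv.trans_apply, RingEquiv.symm_apply_eq]
  change phi i (MvPolynomial.C c) = cc k i c
  rw [phi, MvPolynomial.coe_eval₂Hom, MvPolynomial.eval₂_C]

theorem projective_P2 : Stmt.IsProjectiveOver
    (Stmt.toSpecK (MvPolynomial.homogeneousSubmodule (Fin 3) k)) :=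
  ⟨2, 𝟙 _, inferInstance, Category.id_comp _⟩

lemma hasChar_P2 [CharP k 2] : HasChar (P2 k) 2 := by
  intro V
  change ((2 : ℕ) : Γ(P2 k, V)) = 0
  apply eq_of_gam
  intro h
  rw [map_natCast, map_zero]
  have h1 : kc k ((2 : ℕ) : k) = 0 := by
    rw [CharP.cast_eq_zero, map_zero]
  rw [map_natCast] at h1
  exact h1

variable {k}

lemma fsOp_mem_cone3 {p : ℕ} [hp : Fact p.Prime] [CharP k p] [PerfectRing k p]
    (T : Finset (Fin 3)) (l : Lau k) (hl : l ∈ coneSub k (cone3 T)) :
    fsOp k p l ∈ coneSub k (cone3 T) := by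
  refine coneSub_ind (fun l => fsOp k p l ∈ coneSub k (cone3 T)) ?_ ?_ ?_ l hl
  · rw [map_zero]
    exact zero_mem _
  · intro a b ha hb
    rw [map_add]
    exact add_mem ha hb
  · intro u hu' c
    rw [fsOp_single]
    split_ifs with h
    · apply single_mem_coneSub
      intro i hi
      obtain ⟨⟨a, ha⟩, ⟨b, hb⟩⟩ := h
      have hppos : (0 : ℤ) < p := by exact_mod_cast hp.out.pos
      have e1 : u.1 / (p : ℤ) = a := by rw [ha]; exact Int.mul_ediv_cancel_left _ hppos.ne'
      have e2 : u.2 / (p : ℤ) = b := by rw [hb]; exact Int.mul_ediv_cancel_left _ hppos.ne'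
      rw [e1, e2]
      have h3 : u = p • ((a, b) : ℤ × ℤ) := by
        ext
        · rw [ha]; simp
        · rw [hb]; simp
      have h4 := hu' i hi
      rw [h3, hu_nsmul] at h4
      exact nonneg_of_mul_nonneg_right h4 hppos
    · exact zero_mem _

theorem globallyFSplit_P2 (p : ℕ) [hp : Fact p.Prime] [CharP k p] [PerfectRing k p] :
    Stmt.GloballyFSplit (P2 k) p := by
  have hp0 : 0 < p := hp.out.pos
  have hq : 0 < p ^ 1 := by rw [pow_one]; exact hp0
  obtain ⟨Φ, hΦ, hΦ'⟩ := exists_extL hq (fsOp k p) (fsOp_isSemi p)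
  obtain ⟨ψ, hψ, hψr, hψl⟩ := exists_sections hq Φ hΦ (fun i : Fin 3 => U2 k i)
    (fun i => isAffineOpen_UU i) (fun i => gen_mem k i) (by
      intro i s
      obtain ⟨h0, h1, h2⟩ := rg_chart (k := k) i
      obtain ⟨l, hl, hs⟩ := h1 s
      obtain ⟨t, ht⟩ := h2 _ (fsOp_mem_cone3 (p := p) {i} l hl)
      exact ⟨t, by rw [ht, hs, hΦ']⟩) ⊤ iSup_UU.ge
  refine ⟨fun V => ψ ⟨V, le_top⟩, fun V W h s => hψr ⟨V, le_top⟩ ⟨W, le_top⟩ h s,
    fun V a s => ?_, fun V => ?_⟩
  · have := hψl ⟨V, le_top⟩ a s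
    rw [pow_one, pow_zero, pow_one] at this
    exact this
  · apply eq_of_gam
    intro h
    have h1 := hψ ⟨V, le_top⟩ h 1
    have h2 : Φ 1 = 1 := by
      have := hΦ' 1
      rw [fsOp_one, map_one] at this
      exact this
    have h3 : Φ (gam V h 1) = gam V h 1 := by rw [map_one, h2]
    exact h1.trans h3

end Pool.Agent.H52.DA
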