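import Pool.Agent.H52.DA.Fld
import Pool.Agent.H52.DA.DDef

/-!
The divided power operators as sections of the sheaf of differential operators over the charts.
-/

set_option autoImplicit false

open CategoryTheory AlgebraicGeometry TopologicalSpace Opposite AddMonoidAlgebra
open Pool.Agent.H835R3 Pool.Agent.W506

attribute [local instance] MvPolynomial.gradedAlgebra

namespace Pool.Agent.H52.DA

set_option backward.isDefEq.respectTransparency false

section rep

variable {X : Scheme.{0}} [IsIntegral X] {p : ℕ}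

/-- the section `P` of `D_X` is given by the operator `Φ` on the function field -/
def Rep {V : X.Opens} (Φ : X.functionField →+ X.functionField) (P : DX X p V) : Prop :=
  ∀ (W : {W : X.Opens // W ≤ V}) (h : genericPoint X ∈ W.1) (s : Γ(X, W.1)),
    gam W.1 h (P.1 W s) = Φ (gam W.1 h s)

lemma Rep.ext {V : X.Opens} {Φ : X.functionField →+ X.functionField} {P Q : DX X p V}
    (hP : Rep Φ P) (hQ : Rep Φ Q) : P = Q := by
  apply Subtype.ext
  funext W
  apply AddMonoidHom.ext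
  intro s
  apply eq_of_gam
  intro h
  exact (hP W h s).trans (hQ W h s).symm

lemma Rep.mul {V : X.Opens} {Φ Ψ : X.functionField →+ X.functionField} {P Q : DX X p V}
    (hP : Rep Φ P) (hQ : Rep Ψ Q) : Rep (Φ.comp Ψ) (P * Q) := by
  intro W h s
  refine (hP W h (Q.1 W s)).trans ?_
  rw [hQ W h s]
  rfl

lemma Rep.add {V : X.Opens} {Φ Ψ : X.functionField →+ X.functionField} {P Q : DX X p V}
    (hP : Rep Φ P) (hQ : Rep Ψ Q) : Rep (Φ + Ψ) (P + Q) := by
  intro W h s
  change gam W.1 h (P.1 W s + Q.1 W s) = _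
  rw [map_add, hP W h s, hQ W h s]
  rfl

lemma Rep.zero {V : X.Opens} : Rep (0 : X.functionField →+ X.functionField) (0 : DX X p V) := by
  intro W h s
  exact map_zero _

lemma Rep.sum {ι : Type*} (A : Finset ι) {V : X.Opens}
    {Φ : ι → X.functionField →+ X.functionField} {P : ι → DX X p V}
    (h : ∀ i ∈ A, Rep (Φ i) (P i)) : Rep (∑ i ∈ A, Φ i) (∑ i ∈ A, P i) := by
  classical
  induction A using Finset.induction_on with
  | empty => exact Rep.zero
  | insert a A ha ih =>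
    rw [Finset.sum_insert ha, Finset.sum_insert ha]
    exact (h a (Finset.mem_insert_self _ _)).add (ih fun i hi => h i (Finset.mem_insert_of_mem hi))

lemma Rep.one {V : X.Opens} : Rep (AddMonoidHom.id X.functionField) (1 : DX X p V) :=
  fun _ _ _ => rfl

lemma Rep.res {V V' : X.Opens} (hV : V' ≤ V) {Φ : X.functionField →+ X.functionField}
    {P : DX X p V} (hP : Rep Φ P) : Rep Φ (DX.res hV P) :=
  fun W h s => hP ⟨W.1, W.2.trans hV⟩ h s

lemma Rep.mulBy {V : X.Opens} (f : Γ(X, V)) (hV : genericPoint X ∈ V) :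
    Rep (AddMonoidHom.mulLeft (gam V hV f)) (DX.mulBy p f) := by
  intro W h s
  change gam W.1 h (rFun W.2 f * s) = gam V hV f * gam W.1 h s
  rw [map_mul]
  congr 1
  exact gam_res W.2 h f

end rep

variable {k : Type} [Field k]

/-- a semilinear operator which preserves the sections over a chart -/
lemma exists_sec {q q' : ℕ} (p f : ℕ) (hq : q = p ^ f) (hq' : q' = p ^ f) (hp : 0 < p)
    (Φ : FF k →+ FF k) (hΦ : IsSemi q q' Φ)
    (i : Fin 3) (hpres : ∀ l ∈ coneSub k (cone3 {i}), ∃ l' ∈ coneSub k (cone3 {i}),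
      Φ (iota k l) = iota k l') :
    ∃ P : DX (P2 k) p (U2 k i), Rep Φ P := by
  subst hq
  subst hq'
  obtain ⟨h0, h1, h2⟩ := rg_chart (k := k) i
  obtain ⟨ψ, hψ, hψr, hψl⟩ := exists_sections (pow_pos hp f) Φ hΦ (fun _ : Unit => U2 k i)
    (fun _ => isAffineOpen_UU i) (fun _ => h0) (by
      intro _ s
      obtain ⟨l, hl, hs⟩ := h1 s
      obtain ⟨l', hl', hl''⟩ := hpres l hl
      obtain ⟨t, ht⟩ := h2 l' hl'
      exact ⟨t, by rw [ht, hs, hl'']⟩) (U2 k i) (le_iSup (fun _ : Unit => U2 k i) ())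
  exact ⟨⟨fun W => ψ W, fun V W h s => hψr V W h s, f, fun V a s => hψl V a s⟩, hψ⟩

lemma iota_xm_pow (i j : Fin 3) (n : ℕ) : iota k (xm k (ev n i - ev n j)) =
    (iota k (xm k (ev 1 i - ev 1 j))) ^ n := by
  rw [← map_pow, xm, xm, single_pow, one_pow]
  congr 2
  ext
  · simp only [uh, Pi.sub_apply, ev, Prod.smul_mk, nsmul_eq_mul]
    split_ifs <;> simp
  · simp only [uh, Pi.sub_apply, ev, Prod.smul_mk, nsmul_eq_mul]
    split_ifs <;> simp

lemma xm_zero : xm k 0 = 1 := rfl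

lemma xm_nsmul (v : Fin 3 → ℤ) (n : ℕ) : xm k v ^ n = xm k (n • v) := by
  rw [xm, single_pow, one_pow]
  rfl

lemma xm_prod {N : ℕ} {α : Fin 3 → ℕ} (hα : α ∈ AN N) (j : Fin 3) :
    ∏ i, xm k (ev 1 i - ev 1 j) ^ α i = xm k (iv α - ev N j) := by
  rw [Finset.prod_congr rfl (fun i _ => xm_nsmul (ev 1 i - ev 1 j) (α i)), Fin.prod_univ_three,
    xm_mul_xm, xm_mul_xm]
  congr 1
  rw [mem_AN, Fin.sum_univ_three] at hα
  subst hα
  have key : (α 0 • (ev 1 0 - ev 1 j) + α 1 • (ev 1 1 - ev 1 j) + α 2 • (ev 1 2 - ev 1 j)) =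
      iv α - ev (α 0 + α 1 + α 2) j := by
    funext l
    simp only [Pi.add_apply, Pi.sub_apply, Pi.smul_apply, iv]
    fin_cases l <;> fin_cases j <;> simp [ev] <;> ring
  rw [key]

/-- the function `x^α / x_j^N` on the chart `j` -/
noncomputable def xal (k : Type) [Field k] (j : Fin 3) (α : Fin 3 → ℕ) : Γ(P2 k, U2 k j) :=
  ∏ i, co j i ^ α i

lemma gam_xal {N : ℕ} {α : Fin 3 → ℕ} (hα : α ∈ AN N) (j : Fin 3) :
    gam (U2 k j) (gen_mem k j) (xal k j α) = iota k (xm k (iv α - ev N j)) := by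
  rw [xal, map_prod, ← xm_prod hα, map_prod]
  refine Finset.prod_congr rfl fun i _ => ?_
  rw [map_pow, map_pow]
  congr 1
  exact gam_co_eq k j i

lemma two_pow_gt (e : ℕ) (α : Fin 3 → ℕ) (hα : α ∈ AN (2 ^ e)) (i : Fin 3) :
    α i < 2 ^ (e + 1) := by
  have := le_of_mem_AN hα i
  have h2 : 2 ^ e < 2 ^ (e + 1) := Nat.pow_lt_pow_right (by norm_num) (by omega)
  omega

/-- The operators on the charts. -/
theorem exists_ops [CharP k 2] (e : ℕ) (he : 2 ≤ e) :
    ∃ P : ∀ j : Fin 3, (Fin 3 → ℕ) → DX (P2 k) 2 (U2 k j),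
      (∀ (i j : Fin 3) (α : Fin 3 → ℕ), α ∈ AN (2 ^ e) → ∀ (V : (P2 k).Opens) (hi : V ≤ U2 k i)
        (hj : V ≤ U2 k j), DX.res hi (P i α) = DX.res hj (P j α) *
          DX.mulBy 2 (rFun hj (co j i) ^ 2 ^ e)) ∧
      (∀ j, ∑ α ∈ AN (2 ^ e), P j α * DX.mulBy 2 (xal k j α) = 1) ∧
      (∀ j, ∑ α ∈ AN (2 ^ e), DX.mulBy 2 (xal k j α) * P j α = 1) := by
  classical
  have hprime : Fact (Nat.Prime 2) := ⟨Nat.prime_two⟩
  have hq : 0 < 2 ^ (e + 1) := by positivity
  have h1 : ∀ (j : Fin 3) (α : Fin 3 → ℕ), ∃ Φ : FF k →+ FF k, α ∈ AN (2 ^ e) →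
      (IsSemi (2 ^ (e + 1)) (2 ^ (e + 1)) Φ ∧
        ∀ l, Φ (iota k l) = iota k (dop k (2 ^ e) j α l)) := by
    intro j α
    by_cases hα : α ∈ AN (2 ^ e)
    · obtain ⟨Φ, hΦ⟩ := exists_extL hq (dop k (2 ^ e) j α)
        (dop_isSemi 2 (e + 1) (2 ^ e) j α (two_pow_gt e α hα))
      exact ⟨Φ, fun _ => hΦ⟩
    · exact ⟨0, fun h => absurd h hα⟩
  choose Φ hΦ using h1
  have h2 : ∀ (j : Fin 3) (α : Fin 3 → ℕ), ∃ P : DX (P2 k) 2 (U2 k j), α ∈ AN (2 ^ e) →
      Rep (Φ j α) P := by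
    intro j α
    by_cases hα : α ∈ AN (2 ^ e)
    · obtain ⟨P, hP⟩ := exists_sec 2 (e + 1) rfl rfl (by norm_num) (Φ j α) (hΦ j α hα).1 j (by
        intro l hl
        exact ⟨_, dop_mem j hα {j} (by simp) l hl, (hΦ j α hα).2 l⟩)
      exact ⟨P, fun _ => hP⟩
    · exact ⟨0, fun h => absurd h hα⟩
  choose P hP using h2
  -- semilinear extension lemma
  have hmulsemi : ∀ (z : FF k), IsSemi (2 ^ (e + 1)) (2 ^ (e + 1)) (AddMonoidHom.mulLeft z) := by
    intro z a b
    change z * (a ^ 2 ^ (e + 1) * b) = a ^ 2 ^ (e + 1) * (z * b)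
    ring
  have hcomp : ∀ (A B : FF k →+ FF k), IsSemi (2 ^ (e + 1)) (2 ^ (e + 1)) A →
      IsSemi (2 ^ (e + 1)) (2 ^ (e + 1)) B → IsSemi (2 ^ (e + 1)) (2 ^ (e + 1)) (A.comp B) := by
    intro A B hA hB a b
    change A (B _) = _ * A (B _)
    rw [hB, hA]
  have hsum : ∀ (A : (Fin 3 → ℕ) → FF k →+ FF k),
      (∀ α ∈ AN (2 ^ e), IsSemi (2 ^ (e + 1)) (2 ^ (e + 1)) (A α)) →
      IsSemi (2 ^ (e + 1)) (2 ^ (e + 1)) (∑ α ∈ AN (2 ^ e), A α) := by
    intro A hA a b
    rw [AddMonoidHom.finsetSum_apply, AddMonoidHom.finsetSum_apply, Finset.mul_sum]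
    exact Finset.sum_congr rfl fun α hα => hA α hα a b
  refine ⟨P, ?_, ?_, ?_⟩
  · intro i j α hα V hi hj
    by_cases hV : genericPoint (P2 k) ∈ V
    · refine Rep.ext ((hP i α hα).res hi) ?_
      have h3 := (((hP j α hα).res hj).mul (Rep.mulBy (p := 2) (rFun hj (co (K := k) j i) ^ 2 ^ e) hV))
      have h4 : (Φ j α).comp (AddMonoidHom.mulLeft (gam V hV (rFun hj (co (K := k) j i) ^ 2 ^ e))) =
          Φ i α := by
        refine ext_uniqueL hq _ _ (hcomp _ _ (hΦ j α hα).1 (hmulsemi _)) (hΦ i α hα).1 ?_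
        intro l
        have h5 : gam V hV (rFun hj (co (K := k) j i) ^ 2 ^ e) =
            iota k (xm k (ev (2 ^ e) i - ev (2 ^ e) j)) := by
          rw [map_pow, iota_xm_pow]
          congr 1
          exact (gam_res hj hV (co (K := k) j i)).trans (gam_co_eq k j i)
        change Φ j α (gam V hV (rFun hj (co (K := k) j i) ^ 2 ^ e) * iota k l) = _
        rw [h5, ← map_mul, (hΦ j α hα).2, (hΦ i α hα).2, dop_change]
      rw [h4] at h3
      exact h3
    · apply Subtype.ext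
      funext W
      apply AddMonoidHom.ext
      intro s
      have := subsingleton_of_not_mem W.1 (fun h => hV (W.2 h))
      exact Subsingleton.elim _ _
  · intro j
    have h3 : Rep (∑ α ∈ AN (2 ^ e), (Φ j α).comp
        (AddMonoidHom.mulLeft (gam (U2 k j) (gen_mem k j) (xal k j α))))
        (∑ α ∈ AN (2 ^ e), P j α * DX.mulBy 2 (xal k j α)) :=
      Rep.sum _ fun α hα => (hP j α hα).mul (Rep.mulBy _ _)
    have h4 : (∑ α ∈ AN (2 ^ e), (Φ j α).comp
        (AddMonoidHom.mulLeft (gam (U2 k j) (gen_mem k j) (xal k j α)))) =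
        AddMonoidHom.id (FF k) := by
      refine ext_uniqueL hq _ _ (hsum _ fun α hα => hcomp _ _ (hΦ j α hα).1 (hmulsemi _))
        (fun a b => rfl) ?_
      intro l
      rw [AddMonoidHom.finsetSum_apply]
      have h5 : ∀ α ∈ AN (2 ^ e), ((Φ j α).comp
          (AddMonoidHom.mulLeft (gam (U2 k j) (gen_mem k j) (xal k j α)))) (iota k l) =
          iota k (dop k (2 ^ e) j α (xm k (iv α - ev (2 ^ e) j) * l)) := by
        intro α hα
        change Φ j α (gam (U2 k j) (gen_mem k j) (xal k j α) * iota k l) = _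
        rw [gam_xal hα, ← map_mul, (hΦ j α hα).2]
      rw [Finset.sum_congr rfl h5, ← map_sum, dop_sum_left]
      have h6 : (((2 ^ e + 2).choose (2 ^ e) : ℕ) : Lau k) = 1 := by
        have h7 := congrArg (algebraMap k (Lau k)) (choose_cast_eq_one k e he)
        rw [map_natCast, map_one] at h7
        exact h7
      rw [h6, one_mul]
      rfl
    rw [h4] at h3
    exact h3.ext Rep.one
  · intro j
    have h3 : Rep (∑ α ∈ AN (2 ^ e),
        (AddMonoidHom.mulLeft (gam (U2 k j) (gen_mem k j) (xal k j α))).comp (Φ j α))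
        (∑ α ∈ AN (2 ^ e), DX.mulBy 2 (xal k j α) * P j α) :=
      Rep.sum _ fun α hα => (Rep.mulBy _ _).mul (hP j α hα)
    have h4 : (∑ α ∈ AN (2 ^ e),
        (AddMonoidHom.mulLeft (gam (U2 k j) (gen_mem k j) (xal k j α))).comp (Φ j α)) =
        AddMonoidHom.id (FF k) := by
      refine ext_uniqueL hq _ _ (hsum _ fun α hα => hcomp _ _ (hmulsemi _) (hΦ j α hα).1)
        (fun a b => rfl) ?_
      intro l
      rw [AddMonoidHom.finsetSum_apply]
      have h5 : ∀ α ∈ AN (2 ^ e),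
          ((AddMonoidHom.mulLeft (gam (U2 k j) (gen_mem k j) (xal k j α))).comp (Φ j α))
            (iota k l) = iota k (xm k (iv α - ev (2 ^ e) j) * dop k (2 ^ e) j α l) := by
        intro α hα
        change gam (U2 k j) (gen_mem k j) (xal k j α) * Φ j α (iota k l) = _
        rw [gam_xal hα, (hΦ j α hα).2, map_mul]
      rw [Finset.sum_congr rfl h5, ← map_sum, dop_sum_right]
      rfl
    rw [h4] at h3
    exact h3.ext Rep.one

end Pool.Agent.H52.DA
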