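import Pool.Agent.H52.DA.NCone
import Pool.Agent.H52.DA.Sect

/-!
The Čech cohomology of `F_* O_X` twisted by `O(-1)`, on the projective plane in characteristic two.
-/

set_option autoImplicit false

open CategoryTheory AlgebraicGeometry TopologicalSpace Opposite AddMonoidAlgebra
open Pool.Agent.H835R3 Pool.Agent.W506

attribute [local instance] MvPolynomial.gradedAlgebra

namespace Pool.Agent.H52.DA

set_option backward.isDefEq.respectTransparency false

/-- the charts with the transition functions of `O(1)` -/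
noncomputable def tw2 (k : Type) [Field k] : Tw (P2 k) where
  U := U2 k
  g i j := ro inf_le_left (co i j)
  aff := isAffineOpen_UU
  aff2 := isAffineOpen_UU_inf
  aff3 := isAffineOpen_W
  cover := iSup_UU
  g_self i := by rw [co_self, map_one]
  g_cocycle i j l := by
    rw [ro_ro, ro_ro, ro_ro, mul_comm]
    exact (co_mulV l j i _ _).symm

variable {k : Type} [Field k]

lemma tt_sq (i : Fin 3) : tt k i ^ 2 = iota k (xm k (ev 2 i - ev 2 0)) := by
  rw [iota_xm_pow, iota_xm_ev, tt_zero, inv_one, mul_one]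

lemma tt_sq_inv (i : Fin 3) : tt k i ^ 2 * iota k (xm k (ev 2 0 - ev 2 i)) = 1 := by
  rw [iota_xm_pow, iota_xm_ev, tt_zero, one_mul, ← mul_pow, mul_inv_cancel₀ (tt_ne_zero k i),
    one_pow]

/-- sections of `O(-2)` in the frame `j` -/
lemma rg2 {V : (P2 k).Opens} {T : Finset (Fin 3)} (hV : RG V (cone3 T)) (j : Fin 3) (hj : j ∈ T) :
    ∃ h : genericPoint (P2 k) ∈ V,
      (∀ s : Γ(P2 k, V), ∃ l ∈ coneSub k (cone2 T), gam V h s = tt k j ^ 2 * iota k l) ∧
      (∀ l ∈ coneSub k (cone2 T), ∃ s : Γ(P2 k, V), gam V h s = tt k j ^ 2 * iota k l) := by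
  obtain ⟨h, h1, h2⟩ := hV
  refine ⟨h, ?_, ?_⟩
  · intro s
    obtain ⟨l, hl, hs⟩ := h1 s
    refine ⟨l * xm k (ev 2 0 - ev 2 j), ?_, ?_⟩
    · refine coneSub_ind (fun l => l * xm k (ev 2 0 - ev 2 j) ∈ coneSub k (cone2 T)) ?_ ?_ ?_ l hl
      · rw [zero_mul]
        exact zero_mem _
      · intro a b ha hb
        rw [add_mul]
        exact add_mem ha hb
      · intro u hu' c
        rw [xm, single_mul_single]
        apply single_mem_coneSub
        intro i hi
        have hij : i ≠ j := fun h => hi (h ▸ hj)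
        rw [hu_add, hu_uh _ (ev_sub_sum 2 0 j)]
        have := hu' i hi
        simp only [Pi.sub_apply, Pi.add_apply]
        have h3 : ev 2 j i = 0 := by simp [ev, hij]
        rw [h3]
        linarith
    · rw [map_mul, mul_left_comm, tt_sq_inv, mul_one, hs]
  · intro l hl
    obtain ⟨s, hs⟩ := h2 (l * xm k (ev 2 j - ev 2 0)) (by
      refine coneSub_ind (fun l => l * xm k (ev 2 j - ev 2 0) ∈ coneSub k (cone3 T)) ?_ ?_ ?_ l hl
      · rw [zero_mul]
        exact zero_mem _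
      · intro a b ha hb
        rw [add_mul]
        exact add_mem ha hb
      · intro u hu' c
        rw [xm, single_mul_single]
        apply single_mem_coneSub
        intro i hi
        have hij : i ≠ j := fun h => hi (h ▸ hj)
        rw [hu_add, hu_uh _ (ev_sub_sum 2 j 0)]
        have := hu' i hi
        simp only [Pi.sub_apply, Pi.add_apply] at this ⊢
        have h3 : ev 2 j i = 0 := by simp [ev, hij]
        rw [h3]
        linarith)
    exact ⟨s, by rw [hs, map_mul, tt_sq, mul_comm]⟩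

lemma gam_inj {V : (P2 k).Opens} (h : genericPoint (P2 k) ∈ V) {s t : Γ(P2 k, V)}
    (hst : gam V h s = gam V h t) : s = t := by
  apply eq_of_gam
  intro _
  exact hst

/-- the transition functions on the function field -/
lemma gam_g (i j : Fin 3) {V : (P2 k).Opens} (hV : V ≤ U2 k i) (h : genericPoint (P2 k) ∈ V) :
    gam V h (ro hV (co i j)) = tt k j * (tt k i)⁻¹ := by
  rw [gam_ro, gam_co]

variable (hX : HasChar (P2 k) 2)

/-- the module `F_* O_X` -/
noncomputable abbrev FP : (P2 k).Modules := frobPush (P2 k) 2 1 Nat.prime_two hX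

theorem qcOn_frob (W : (P2 k).Opens) : QCOn (FP hX) W := by
  constructor
  · intro W' hW' _ f s
    obtain ⟨n, b, hb⟩ := ro_ext hW' f (toSec _ s)
    refine ⟨n, ofSec _ (f ^ n * b), ?_⟩
    change ro ((P2 k).basicOpen_le f) (f ^ n * b) =
      (ro ((P2 k).basicOpen_le f) f ^ n) ^ 2 ^ 1 * toSec _ s
    rw [map_mul, map_pow, hb]
    ring
  · intro W' hW' _ f t ht
    obtain ⟨n, hn⟩ := ro_uniq hW' f (toSec _ t) ht
    refine ⟨n, ?_⟩
    change (f ^ n) ^ 2 ^ 1 * toSec _ t = 0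
    rw [pow_one, pow_two, mul_assoc, hn, mul_zero]

lemma frob_smul {V : (P2 k).Opens} (a : Γ(P2 k, V)) (s : Γ(FP hX, V)) :
    toSec V (a • s) = a ^ 2 * toSec V s := by
  rw [toSec_smul]
  rfl

theorem cechTwo_frob : CechTwo (tw2 k) (FP hX) := by
  intro w
  obtain ⟨hW, hW1, -⟩ := rg2 (k := k) (rg_triple (i := 0) (j := 1) (m := 2)) 2 (by decide)
  obtain ⟨h01, -, h01'⟩ := rg2 (k := k) (rg_pair 0 1) 1 (by decide)
  obtain ⟨h02, -, h02'⟩ := rg2 (k := k) (rg_pair 0 2) 2 (by decide)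
  obtain ⟨h12, -, h12'⟩ := rg2 (k := k) (rg_pair 1 2) 2 (by decide)
  obtain ⟨l, -, hl⟩ := hW1 (toSec _ w)
  obtain ⟨l0, hl0, l1, hl1, l2, hl2, hsum⟩ := decomp_two l
  obtain ⟨a, ha⟩ := h01' l2 hl2
  obtain ⟨b, hb⟩ := h02' l1 hl1
  obtain ⟨c, hc⟩ := h12' l0 hl0
  refine ⟨ofSec _ a, ofSec _ (-b), ofSec _ c, ?_⟩
  have hW01 : W2 k ≤ U2 k 0 ⊓ U2 k 1 := (tw2 k).h01
  have hW02 : W2 k ≤ U2 k 0 ⊓ U2 k 2 := (tw2 k).h02
  have hW12 : W2 k ≤ U2 k 1 ⊓ U2 k 2 := (tw2 k).h12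
  have key : toSec (W2 k) w = ro hW12 c - ro hW02 (-b) +
      (ro hW12 (ro inf_le_left (co 1 2))) ^ 2 * ro hW01 a := by
    apply gam_inj hW
    refine hl.trans ?_
    simp only [map_add, map_sub, map_mul, map_pow, gam_ro, map_neg, gam_co, ha, hb, hc, hsum]
    have h1 := tt_ne_zero k 1
    field_simp
    ring
  exact key

theorem cechOne_frob : CechOne (tw2 k) (FP hX) := by
  intro a b c habc
  have hgW := gen_mem_W (k := k)
  obtain ⟨h01, h01', -⟩ := rg2 (k := k) (rg_pair 0 1) 1 (by decide)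
  obtain ⟨h02, h02', -⟩ := rg2 (k := k) (rg_pair 0 2) 2 (by decide)
  obtain ⟨h12, h12', -⟩ := rg2 (k := k) (rg_pair 1 2) 2 (by decide)
  obtain ⟨h0, -, h0'⟩ := rg2 (k := k) (rg_chart 0) 0 (by decide)
  obtain ⟨h1, -, h1'⟩ := rg2 (k := k) (rg_chart 1) 1 (by decide)
  obtain ⟨h2, -, h2'⟩ := rg2 (k := k) (rg_chart 2) 2 (by decide)
  obtain ⟨A, hA, hA'⟩ := h01' (toSec _ a)
  obtain ⟨B, hB, hB'⟩ := h02' (toSec _ b)
  obtain ⟨C, hC, hC'⟩ := h12' (toSec _ c)
  have n1 := tt_ne_zero k 1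
  have n2 := tt_ne_zero k 2
  have hW01 : W2 k ≤ U2 k 0 ⊓ U2 k 1 := (tw2 k).h01
  have hW02 : W2 k ≤ U2 k 0 ⊓ U2 k 2 := (tw2 k).h02
  have hW12 : W2 k ≤ U2 k 1 ⊓ U2 k 2 := (tw2 k).h12
  have hrel : C - B + A = 0 := by
    have h3 : ro hW12 (toSec (U2 k 1 ⊓ U2 k 2) c) - ro hW02 (toSec (U2 k 0 ⊓ U2 k 2) b) +
      (ro hW12 (ro inf_le_left (co 1 2))) ^ 2 * ro hW01 (toSec (U2 k 0 ⊓ U2 k 1) a) = 0 := habc
    have h4 := congrArg (gam (W2 k) hgW) h3
    simp only [map_add, map_sub, map_mul, map_pow, gam_ro, gam_co, map_zero, hA', hB', hC'] at h4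
    apply iota_injective (k := k)
    rw [map_zero, map_add, map_sub]
    have h5 : tt k 2 ^ 2 * (iota k C - iota k B + iota k A) = 0 := by
      refine Eq.trans ?_ h4
      field_simp
    exact (mul_eq_zero.1 h5).resolve_left (pow_ne_zero 2 n2)
  obtain ⟨X0, hX0, X1, hX1, X2, hX2, eA, eB, eC⟩ := decomp_one A B C hA hB hC hrel
  obtain ⟨x0, hx0⟩ := h0' X0 hX0
  obtain ⟨x1, hx1⟩ := h1' X1 hX1
  obtain ⟨x2, hx2⟩ := h2' X2 hX2
  refine ⟨fun i => match i with
    | 0 => ofSec _ x0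
    | 1 => ofSec _ x1
    | 2 => ofSec _ x2, ?_, ?_, ?_⟩
  · have key : toSec (U2 k 0 ⊓ U2 k 1) a = ro inf_le_right x1 -
        (ro inf_le_left (co 0 1)) ^ 2 * ro inf_le_left x0 := by
      apply gam_inj h01
      refine hA'.trans ?_
      simp only [map_sub, map_mul, map_pow, gam_ro, gam_co, hx1, hx0, eA, tt_zero]
      ring
    exact key
  · have key : toSec (U2 k 0 ⊓ U2 k 2) b = ro inf_le_right x2 -
        (ro inf_le_left (co 0 2)) ^ 2 * ro inf_le_left x0 := by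
      apply gam_inj h02
      refine hB'.trans ?_
      simp only [map_sub, map_mul, map_pow, gam_ro, gam_co, hx2, hx0, eB, tt_zero]
      ring
    exact key
  · have key : toSec (U2 k 1 ⊓ U2 k 2) c = ro inf_le_right x2 -
        (ro inf_le_left (co 1 2)) ^ 2 * ro inf_le_left x1 := by
      apply gam_inj h12
      refine hC'.trans ?_
      simp only [map_sub, map_mul, map_pow, gam_ro, gam_co, hx2, hx1, eC]
      field_simp
    exact key

theorem kk_frob : KK (tw2 k) (FP hX) :=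
  ⟨(qcOn_frob hX ⊤).sumOn, cechOne_frob hX, cechTwo_frob hX⟩

/-- there are no compatible families -/
theorem compat_frob (t : ∀ j, Γ(FP hX, U2 k j)) (ht : Compat (tw2 k).U (tw2 k).g t) :
    ∀ j, t j = 0 := by
  obtain ⟨h0, h0', -⟩ := rg2 (k := k) (rg_chart 0) 0 (by decide)
  obtain ⟨h1, h1', -⟩ := rg2 (k := k) (rg_chart 1) 1 (by decide)
  obtain ⟨h2, h2', -⟩ := rg2 (k := k) (rg_chart 2) 2 (by decide)
  obtain ⟨X0, hX0, e0⟩ := h0' (toSec _ (t 0))
  obtain ⟨X1, hX1, e1⟩ := h1' (toSec _ (t 1))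
  have n1 := tt_ne_zero k 1
  have key01 : X0 = X1 := by
    have h3 : ro (inf_le_right : U2 k 0 ⊓ U2 k 1 ≤ _) (toSec _ (t 1)) =
      (ro (inf_le_left : U2 k 0 ⊓ U2 k 1 ≤ _) (co 0 1)) ^ 2 * ro inf_le_left (toSec _ (t 0)) := ht 0 1
    have hg01 : genericPoint (P2 k) ∈ U2 k 0 ⊓ U2 k 1 := ⟨h0, h1⟩
    have h4 := congrArg (gam _ hg01) h3
    simp only [map_mul, map_pow, gam_ro, gam_co, e0, e1, tt_zero] at h4
    apply iota_injective (k := k)
    have h5 : tt k 1 ^ 2 * iota k X1 = tt k 1 ^ 2 * iota k X0 := by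
      rw [h4]
      ring
    exact (mul_left_cancel₀ (pow_ne_zero 2 n1) h5).symm
  have hz : X0 = 0 := decomp_zero X0 X1 hX0 hX1 key01
  have ht0 : t 0 = 0 := by
    have h3 : toSec _ (t 0) = 0 := by
      apply gam_inj h0
      rw [e0, hz, map_zero, mul_zero, map_zero]
    exact h3
  intro j
  have h3 : ro (inf_le_right : U2 k 0 ⊓ U2 k j ≤ _) (toSec _ (t j)) =
      (ro (inf_le_left : U2 k 0 ⊓ U2 k j ≤ _) (co 0 j)) ^ 2 * ro inf_le_left (toSec _ (t 0)) := ht 0 j
  have h5 : toSec _ (t 0) = 0 := ht0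
  rw [h5, map_zero, mul_zero] at h3
  have hg0j : genericPoint (P2 k) ∈ U2 k 0 ⊓ U2 k j := ⟨h0, gen_mem k j⟩
  have h4 := congrArg (gam _ hg0j) h3
  rw [gam_ro, map_zero] at h4
  have h6 : toSec _ (t j) = 0 := by
    apply gam_inj (gen_mem k j)
    rw [h4, map_zero]
  exact h6

end Pool.Agent.H52.DA
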