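import Pool.Agent.H52.DA.Fld
import Pool.Agent.H52.DA.Cech
import Pool.Agent.H52.DA.NDef

/-!
Sections of the sheaf `O(-2)` on the projective plane: decompositions of Laurent polynomials.
-/

set_option autoImplicit false

open CategoryTheory AlgebraicGeometry TopologicalSpace Opposite AddMonoidAlgebra
open Pool.Agent.H835R3 Pool.Agent.W506

attribute [local instance] MvPolynomial.gradedAlgebra

namespace Pool.Agent.H52.DA

set_option backward.isDefEq.respectTransparency false

section proj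

variable (k : Type) [Field k]

open Classical in
/-- the projection to the Laurent polynomials with exponents in `C` -/
noncomputable def proj (C : Set (ℤ × ℤ)) : Lau k →+ Lau k :=
  opHom (fun u => if u ∈ C then singleAddHom u else 0)

variable {k}

lemma proj_single_mem {C : Set (ℤ × ℤ)} {u : ℤ × ℤ} (h : u ∈ C) (c : k) :
    proj k C (single u c) = single u c := by
  rw [proj, opHom_single, if_pos h]
  rfl

lemma proj_single_not_mem {C : Set (ℤ × ℤ)} {u : ℤ × ℤ} (h : u ∉ C) (c : k) :
    proj k C (single u c) = 0 := by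
  rw [proj, opHom_single, if_neg h]
  rfl

lemma proj_mem {C C' : Set (ℤ × ℤ)} {l : Lau k} (hl : l ∈ coneSub k C') :
    proj k C l ∈ coneSub k (C ∩ C') := by
  refine coneSub_ind (fun l => proj k C l ∈ coneSub k (C ∩ C')) ?_ ?_ ?_ l hl
  · rw [map_zero]
    exact zero_mem _
  · intro a b ha hb
    rw [map_add]
    exact add_mem ha hb
  · intro u hu c
    by_cases h : u ∈ C
    · rw [proj_single_mem h]
      exact single_mem_coneSub (Set.mem_inter h hu) c
    · rw [proj_single_not_mem h]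
      exact zero_mem _

lemma proj_eq_self {C : Set (ℤ × ℤ)} {l : Lau k} (hl : l ∈ coneSub k C) : proj k C l = l := by
  refine coneSub_ind (fun l => proj k C l = l) ?_ ?_ ?_ l hl
  · rw [map_zero]
  · intro a b ha hb
    rw [map_add, ha, hb]
  · intro u hu c
    exact proj_single_mem hu c

lemma proj_eq_zero {C C' : Set (ℤ × ℤ)} {l : Lau k} (hl : l ∈ coneSub k C')
    (h : ∀ u ∈ C', u ∉ C) : proj k C l = 0 := by
  refine coneSub_ind (fun l => proj k C l = 0) ?_ ?_ ?_ l hl
  · rw [map_zero]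
  · intro a b ha hb
    rw [map_add, ha, hb, add_zero]
  · intro u hu c
    exact proj_single_not_mem (h u hu) c

lemma proj_add_compl (C : Set (ℤ × ℤ)) (l : Lau k) : proj k C l + proj k Cᶜ l = l := by
  have hl : l ∈ coneSub k Set.univ := fun u _ => trivial
  refine coneSub_ind (fun l => proj k C l + proj k Cᶜ l = l) ?_ ?_ ?_ l hl
  · rw [map_zero, map_zero, add_zero]
  · intro a b ha hb
    rw [map_add, map_add, add_add_add_comm, ha, hb]
  · intro u _ c
    by_cases h : u ∈ C
    · have h2 : u ∉ Cᶜ := by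
        intro h'
        exact h' h
      rw [proj_single_mem h, proj_single_not_mem h2, add_zero]
    · have h2 : u ∈ Cᶜ := h
      rw [proj_single_not_mem h, proj_single_mem h2, zero_add]

end proj

/-- the exponents in degree `-2` which are nonnegative outside `T` -/
def cone2 (T : Finset (Fin 3)) : Set (ℤ × ℤ) := {u | ∀ i, i ∉ T → 0 ≤ (hu u - ev 2 0) i}

/-- the half space where the exponent `i` is nonnegative -/
def half (i : Fin 3) : Set (ℤ × ℤ) := {u | 0 ≤ (hu u - ev 2 0) i}

lemma deg_neg (u : ℤ × ℤ) : ∑ i, (hu u - ev 2 0) i = -2 := by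
  rw [show ∑ i, (hu u - ev 2 0) i = ∑ i, hu u i - ∑ i, ev 2 0 i from Finset.sum_sub_distrib _ _,
    hu_sum, ev_sum]
  rfl

lemma not_all (u : ℤ × ℤ) (h0 : u ∈ half 0) (h1 : u ∈ half 1) (h2 : u ∈ half 2) : False := by
  have h := deg_neg u
  rw [Fin.sum_univ_three] at h
  have a0 : 0 ≤ (hu u - ev 2 0) 0 := h0
  have a1 : 0 ≤ (hu u - ev 2 0) 1 := h1
  have a2 : 0 ≤ (hu u - ev 2 0) 2 := h2
  omega

lemma exists_half (u : ℤ × ℤ) : u ∈ half 0 ∨ u ∈ half 1 ∨ u ∈ half 2 := by
  have h := deg_neg u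
  rw [Fin.sum_univ_three] at h
  by_contra hcon
  rw [not_or, not_or] at hcon
  obtain ⟨h0, h1, h2⟩ := hcon
  have a0 : ¬ (0 ≤ (hu u - ev 2 0) 0) := h0
  have a1 : ¬ (0 ≤ (hu u - ev 2 0) 1) := h1
  have a2 : ¬ (0 ≤ (hu u - ev 2 0) 2) := h2
  omega

lemma cone2_sub (T : Finset (Fin 3)) (i : Fin 3) (h : i ∉ T) : cone2 T ⊆ half i :=
  fun _ hu => hu i h

lemma mem_cone2_iff {T : Finset (Fin 3)} {u : ℤ × ℤ} : u ∈ cone2 T ↔ ∀ i, i ∉ T → u ∈ half i :=
  Iff.rfl

variable {k : Type} [Field k]

/-- decomposition of Laurent polynomials -/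
lemma decomp_two (l : Lau k) : ∃ l0 ∈ coneSub k (cone2 {1, 2}), ∃ l1 ∈ coneSub k (cone2 {0, 2}),
    ∃ l2 ∈ coneSub k (cone2 {0, 1}), l = l0 + l1 + l2 := by
  have hl : l ∈ coneSub k Set.univ := fun u _ => trivial
  refine ⟨proj k (half 0) l, ?_, proj k (half 1) (proj k (half 0)ᶜ l), ?_,
    proj k (half 1)ᶜ (proj k (half 0)ᶜ l), ?_, ?_⟩
  · refine coneSub_mono ?_ (proj_mem hl)
    rintro u ⟨hu, -⟩ i hi
    have : i = 0 := by fin_cases i <;> simp_all
    rw [this]
    exact hu
  · refine coneSub_mono ?_ (proj_mem (proj_mem hl))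
    rintro u ⟨hu, -⟩ i hi
    have : i = 1 := by fin_cases i <;> simp_all
    rw [this]
    exact hu
  · refine coneSub_mono ?_ (proj_mem (proj_mem hl))
    rintro u ⟨h1, h0, -⟩ i hi
    have : i = 2 := by fin_cases i <;> simp_all
    rw [this]
    rcases exists_half u with h | h | h
    · exact absurd h h0
    · exact absurd h h1
    · exact h
  · rw [add_assoc, proj_add_compl, proj_add_compl]

/-- decomposition of cocycles -/
lemma decomp_one (A B C : Lau k) (hA : A ∈ coneSub k (cone2 {0, 1}))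
    (hB : B ∈ coneSub k (cone2 {0, 2})) (hC : C ∈ coneSub k (cone2 {1, 2}))
    (h : C - B + A = 0) : ∃ X0 ∈ coneSub k (cone2 {0}), ∃ X1 ∈ coneSub k (cone2 {1}),
      ∃ X2 ∈ coneSub k (cone2 {2}), A = X1 - X0 ∧ B = X2 - X0 ∧ C = X2 - X1 := by
  have hA' : A ∈ coneSub k (half 2) := coneSub_mono (cone2_sub _ 2 (by decide)) hA
  have hB' : B ∈ coneSub k (half 1) := coneSub_mono (cone2_sub _ 1 (by decide)) hB
  have hC' : C ∈ coneSub k (half 0) := coneSub_mono (cone2_sub _ 0 (by decide)) hC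
  have hBA : B - A = C := by
    have : C = C - B + A + (B - A) := by abel
    rw [this, h, zero_add]
  have e1 : proj k (half 0)ᶜ A = proj k (half 0)ᶜ B := by
    have h1 : proj k (half 0)ᶜ C = 0 := proj_eq_zero hC' (fun u hu h' => h' hu)
    rw [← hBA, map_sub, sub_eq_zero] at h1
    exact h1.symm
  have e2 : proj k (half 1) A = proj k (half 0)ᶜ A := by
    have h1 : proj k (half 1) (proj k (half 0) A) = 0 := by
      refine proj_eq_zero (proj_mem hA') ?_
      rintro u ⟨h0, h2⟩ h1
      exact not_all u h0 h1 h2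
    have h2 : proj k (half 1) (proj k (half 0)ᶜ A) = proj k (half 0)ᶜ A := by
      apply proj_eq_self
      rw [e1]
      exact coneSub_mono (fun u hu => hu.2) (proj_mem hB')
    have h3 := congrArg (proj k (half 1)) (proj_add_compl (half 0) A)
    rw [map_add, h1, zero_add, h2] at h3
    exact h3.symm
  refine ⟨-(proj k (half 1) A), ?_, proj k (half 0) A, ?_, proj k (half 0) B, ?_, ?_, ?_, ?_⟩
  · refine neg_mem (coneSub_mono ?_ (proj_mem hA'))
    rintro u ⟨h1, h2⟩ i hi
    have : i = 1 ∨ i = 2 := by fin_cases i <;> simp_all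
    rcases this with rfl | rfl
    · exact h1
    · exact h2
  · refine coneSub_mono ?_ (proj_mem hA')
    rintro u ⟨h0, h2⟩ i hi
    have : i = 0 ∨ i = 2 := by fin_cases i <;> simp_all
    rcases this with rfl | rfl
    · exact h0
    · exact h2
  · refine coneSub_mono ?_ (proj_mem hB')
    rintro u ⟨h0, h1⟩ i hi
    have : i = 0 ∨ i = 1 := by fin_cases i <;> simp_all
    rcases this with rfl | rfl
    · exact h0
    · exact h1
  · rw [sub_neg_eq_add, e2, proj_add_compl]
  · rw [sub_neg_eq_add, e2, e1, proj_add_compl]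
  · rw [← map_sub, hBA, proj_eq_self hC']

/-- in degree `-2` there are no polynomials -/
lemma decomp_zero (X0 X1 : Lau k) (h0 : X0 ∈ coneSub k (cone2 {0}))
    (h1 : X1 ∈ coneSub k (cone2 {1})) (e1 : X0 = X1) : X0 = 0 := by
  have a0 : X0 ∈ coneSub k (half 0) := by
    rw [e1]
    exact coneSub_mono (cone2_sub _ 0 (by decide)) h1
  have a1 : X0 ∈ coneSub k (half 1) := coneSub_mono (cone2_sub _ 1 (by decide)) h0
  have a2 : X0 ∈ coneSub k (half 2) := coneSub_mono (cone2_sub _ 2 (by decide)) h0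
  have h := proj_eq_self (l := X0) a2
  rw [← h]
  refine proj_eq_zero (C' := half 0 ∩ half 1) ?_ (fun u hu h' => not_all u hu.1 hu.2 h')
  have h3 := proj_mem (C := half 0) a1
  rw [proj_eq_self a0] at h3
  exact h3

end Pool.Agent.H52.DA
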