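import Pool.Agent.H52.DA.NFin

/-!
Objects with vanishing morphisms to the shifts of a module do not belong to the thick subcategory
generated by it.
-/

set_option autoImplicit false

universe u v w

open CategoryTheory Limits Pretriangulated AlgebraicGeometry Abelian

namespace Pool.Agent.H52.DA

section triang

variable {T : Type u} [Category.{v} T] [Preadditive T] [HasZeroObject T] [HasShift T ℤ]
  [∀ n : ℤ, (shiftFunctor T n).Additive] [Pretriangulated T]

/-- the objects `Y` with `Hom(E, Y[i]) = 0` for all `i` -/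
def NoHom (E : T) : ObjectProperty T := fun Y => ∀ i : ℤ, Subsingleton (E ⟶ Y⟦i⟧)

omit [Preadditive T] [HasZeroObject T] [∀ n : ℤ, (shiftFunctor T n).Additive] [Pretriangulated T] in
lemma NoHom.of_retract {E X Y : T} (r : Retract X Y) (h : NoHom E Y) : NoHom E X := by
  intro i
  refine ⟨fun a b => ?_⟩
  have := h i
  have h1 : a ≫ (shiftFunctor T i).map r.i = b ≫ (shiftFunctor T i).map r.i :=
    Subsingleton.elim _ _
  have h2 : (shiftFunctor T i).map r.i ≫ (shiftFunctor T i).map r.r = 𝟙 _ := by
    rw [← CategoryTheory.Functor.map_comp, r.retract, CategoryTheory.Functor.map_id]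
  have h3 := congrArg (fun f => f ≫ (shiftFunctor T i).map r.r) h1
  simp only [Category.assoc, h2, Category.comp_id] at h3
  exact h3

omit [Preadditive T] [HasZeroObject T] [∀ n : ℤ, (shiftFunctor T n).Additive] [Pretriangulated T] in
lemma NoHom.shift {E Y : T} (h : NoHom E Y) (m : ℤ) : NoHom E (Y⟦m⟧) := by
  intro i
  refine ⟨fun a b => ?_⟩
  have := h (m + i)
  let e := (shiftFunctorAdd T m i).app Y
  have h1 : a ≫ e.inv = b ≫ e.inv := Subsingleton.elim _ _
  exact (cancel_mono e.inv).1 h1

instance (E : T) : (NoHom E).IsStableUnderRetracts := ⟨fun r h => h.of_retract r⟩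

lemma NoHom.ext₂ {E : T} (t : Triangle T) (ht : t ∈ distTriang T) (h₁ : NoHom E t.obj₁)
    (h₃ : NoHom E t.obj₃) : NoHom E t.obj₂ := by
  intro i
  have h0 : ∀ f : E ⟶ t.obj₂⟦i⟧, f = 0 := by
    intro f
    have := h₁ i
    have := h₃ i
    obtain ⟨g, hg⟩ := Triangle.coyoneda_exact₂ _ (Triangle.shift_distinguished t ht i) f
      (Subsingleton.elim (α := E ⟶ t.obj₃⟦i⟧) _ _)
    have h0 : g = 0 := Subsingleton.elim (α := E ⟶ t.obj₁⟦i⟧) _ _
    rw [hg, h0]
    exact zero_comp
  exact ⟨fun a b => by rw [h0 a, h0 b]⟩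

instance (E : T) : (NoHom E).IsTriangulated where
  exists_zero := ⟨(HasZeroObject.zero' T).zero, isZero_zero T, fun i =>
    ⟨fun a b => ((shiftFunctor T i).map_isZero (isZero_zero T)).eq_of_tgt a b⟩⟩
  isStableUnderShiftBy m := ⟨fun _ h => h.shift m⟩
  ext₂' t ht h₁ h₃ := ObjectProperty.le_isoClosure _ _ (NoHom.ext₂ t ht h₁ h₃)

end triang

section derived

open DerivedCategory

variable {A : Type u} [Category.{v} A] [Abelian A] [HasDerivedCategory.{w} A]

/-- comparison of single functors -/
noncomputable def singleShift' (F : A) (i : ℤ) :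
    (singleFunctor A i).obj F ≅ ((singleFunctor A 0).obj F)⟦-i⟧ :=
  (((DerivedCategory.singleFunctors A).shiftIso (-i) i 0 (by lia)).app F).symm

lemma subsingleton_neg (L F : A) (i : ℤ) (hi : i < 0) :
    Subsingleton ((singleFunctor A 0).obj L ⟶ ((singleFunctor A 0).obj F)⟦i⟧) := by
  have e : (singleFunctor A (-i)).obj F ≅ ((singleFunctor A 0).obj F)⟦i⟧ :=
    singleShift' F (-i) ≪≫ eqToIso (by rw [neg_neg])
  have h1 : ((singleFunctor A 0).obj L).IsLE 0 := inferInstance
  have h2 : ((singleFunctor A (-i)).obj F).IsGE (-i) := inferInstance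
  have h3 : (((singleFunctor A 0).obj F)⟦i⟧).IsGE (-i) := TStructure.t.isGE_of_iso e (-i)
  have h0 : ∀ f : (singleFunctor A 0).obj L ⟶ ((singleFunctor A 0).obj F)⟦i⟧, f = 0 := fun f =>
    TStructure.t.zero_of_isLE_of_isGE f 0 (-i) (by lia) h1 h3
  exact ⟨fun a b => by rw [h0 a, h0 b]⟩

lemma noHom_of_ext [HasExt.{v} A] (L F : A) (h : ∀ n : ℕ, Subsingleton (Ext L F n)) :
    NoHom ((singleFunctor A 0).obj L) ((singleFunctor A 0).obj F) := by
  intro i
  rcases lt_or_ge i 0 with hi | hi
  · exact subsingleton_neg L F i hi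
  · obtain ⟨n, rfl⟩ := Int.eq_ofNat_of_zero_le hi
    have := h n
    exact (Ext.homEquiv (X := L) (Y := F) (n := n)).symm.subsingleton

lemma isZero_of_noHom (L : A)
    (h : NoHom ((singleFunctor A 0).obj L) ((singleFunctor A 0).obj L)) : IsZero L := by
  have h0 := h 0
  have h1 : 𝟙 ((singleFunctor A 0).obj L) = 0 := by
    let e := (shiftFunctorZero (DerivedCategory A) ℤ).app ((singleFunctor A 0).obj L)
    have h2 : e.inv = 0 := Subsingleton.elim (α := (singleFunctor A 0).obj L ⟶
      ((singleFunctor A 0).obj L)⟦(0 : ℤ)⟧) _ _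
    have h3 : e.inv ≫ e.hom = 𝟙 _ := e.inv_hom_id
    rw [h2, zero_comp] at h3
    exact h3.symm
  rw [IsZero.iff_id_eq_zero]
  apply (singleFunctor A 0).map_injective
  rw [CategoryTheory.Functor.map_id, CategoryTheory.Functor.map_zero]
  exact h1

end derived

attribute [local instance] HasDerivedCategory.standard

lemma single_isDbCoh {X : Scheme.{u}} (L : X.Modules)
    (hL : SheafOfModules.IsFinitePresentation (R := X.ringCatSheaf) L) :
    isDbCoh X ((DerivedCategory.singleFunctor X.Modules 0).obj L) := by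
  have h0 : ∀ i : ℤ, i < 0 ∨ 0 < i → IsZero ((DerivedCategory.homologyFunctor X.Modules i).obj
      ((DerivedCategory.singleFunctor X.Modules 0).obj L)) := by
    rintro i (hi | hi)
    · exact DerivedCategory.isZero_of_isGE _ 0 i hi
    · exact DerivedCategory.isZero_of_isLE _ 0 i hi
  refine ⟨fun i => ?_, 0, 0, h0⟩
  rcases lt_trichotomy i 0 with hi | rfl | hi
  · exact fp_of_isZero _ (h0 i (Or.inl hi))
  · have e : L ≅ (DerivedCategory.homologyFunctor X.Modules 0).obj
        ((DerivedCategory.singleFunctor X.Modules 0).obj L) :=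
      ((DerivedCategory.singleFunctorCompHomologyFunctorIso X.Modules 0).app L).symm
    exact (SheafOfModules.isFinitePresentation X.ringCatSheaf).prop_of_iso e hL
  · exact fp_of_isZero _ (h0 i (Or.inr hi))

theorem not_generates {X : Scheme.{u}} (L F : X.Modules) (hL : ¬ IsZero L)
    (hfp : SheafOfModules.IsFinitePresentation (R := X.ringCatSheaf) L)
    (hLF : NoHom ((DerivedCategory.singleFunctor X.Modules 0).obj L)
      ((DerivedCategory.singleFunctor X.Modules 0).obj F)) : ¬ ClassicallyGenerates F := by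
  intro h
  have h1 : ObjectProperty.singleton ((DerivedCategory.singleFunctor X.Modules 0).obj F) ≤
      NoHom ((DerivedCategory.singleFunctor X.Modules 0).obj L) := by
    rintro Y hY
    rw [ObjectProperty.singleton_iff] at hY
    subst hY
    exact hLF
  have h2 := (ObjectProperty.triangEnvelope_le_iff _).2 h1
  exact hL (isZero_of_noHom L (h2 _ (h _ (single_isDbCoh L hfp))))

end Pool.Agent.H52.DA
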