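import Pool.Agent.H52.DA.NDef
import Pool.Agent.H52.DA.Coh
import Pool.Graph.R_seed8.W506.Q2

/-!
Locally free modules are of finite presentation.
-/

set_option autoImplicit false

universe u

open CategoryTheory Limits Opposite TopologicalSpace AlgebraicGeometry SheafOfModules
open Pool.Agent.W506

namespace Pool.Agent.H52.DA

set_option backward.isDefEq.respectTransparency false

/-- the presentation of a free module -/
noncomputable def freePres (X : Scheme.{u}) (n : ℕ) :
    Presentation (free (R := X.ringCatSheaf) (ULift.{u} (Fin n))) :=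
  presentationOfIsCokernelFree (ι := ULift.{u} (Fin 0)) (σ := ULift.{u} (Fin n))
    (0 : free (R := X.ringCatSheaf) (ULift.{u} (Fin 0)) ⟶ free (ULift.{u} (Fin n))) (𝟙 _)
    (by rw [zero_comp]) (CokernelCofork.IsColimit.ofId _ rfl)

/-- presentations over an open subset -/
noncomputable def overPres {X : Scheme.{u}} (M : X.Modules) (U : X.Opens) (n : ℕ)
    (e : M.restrict U.ι ≅ free (R := U.toScheme.ringCatSheaf) (ULift.{u} (Fin n))) :
    Presentation (SheafOfModules.over (R := X.ringCatSheaf) M U) :=
  let E := Scheme.Modules.overEquiv U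
  let P := (freePres U.toScheme n).map E.inverse
    (TopologicalSpace.Opens.sheafOfModulesEquivOverInverseUnit U X.ringCatSheaf).symm
  P.ofIsIso (E.inverse.mapIso (e.symm ≪≫ ((Scheme.Modules.overFunctorEquiv U).app M).symm) ≪≫
    (E.unitIso.app _).symm).hom

lemma freePres_isFinite (X : Scheme.{u}) (n : ℕ) : (freePres X n).IsFinite where
  isFiniteType_generators := ⟨inferInstanceAs (Finite (ULift.{u} (Fin n)))⟩
  isFiniteType_relations := ⟨inferInstanceAs (Finite (ULift.{u} (Fin 0)))⟩

lemma overPres_isFinite {X : Scheme.{u}} (M : X.Modules) (U : X.Opens) (n : ℕ)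
    (e : M.restrict U.ι ≅ free (R := U.toScheme.ringCatSheaf) (ULift.{u} (Fin n))) :
    (overPres M U n e).IsFinite where
  isFiniteType_generators := ⟨inferInstanceAs (Finite (ULift.{u} (Fin n)))⟩
  isFiniteType_relations := ⟨inferInstanceAs (Finite (ULift.{u} (Fin 0)))⟩

theorem fp_of_local {X : Scheme.{u}} (M : X.Modules) {I : Type u} (U : I → X.Opens)
    (hU : ⨆ i, U i = ⊤) (n : ℕ)
    (h : ∀ i, Nonempty (M.restrict (U i).ι ≅
      free (R := (U i).toScheme.ringCatSheaf) (ULift.{u} (Fin n)))) :
    SheafOfModules.IsFinitePresentation (R := X.ringCatSheaf) M := by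
  let σ : SheafOfModules.QuasicoherentData.{u} (R := X.ringCatSheaf) M :=
    { I := I
      X := U
      coversTop := (Opens.coversTop_iff _ U).2 hU
      presentation := fun i => overPres M (U i) n (h i).some }
  have hσ : σ.IsFinitePresentation := by
    constructor
    intro i
    exact overPres_isFinite M (U i) n (h i).some
  constructor
  exact ⟨σ, hσ⟩

theorem fp_of_basis {X : Scheme.{u}} (M : X.Modules) {I : Type u} (U : I → X.Opens)
    (hU : ⨆ i, U i = ⊤) (n : ℕ) (h : ∀ i, ∃ e : Fin n → Γ(M, U i), IsBasisOn e) :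
    SheafOfModules.IsFinitePresentation (R := X.ringCatSheaf) M := by
  refine fp_of_local M U hU n fun i => ?_
  obtain ⟨e, he⟩ := h i
  exact exists_iso_free he

theorem fp_of_isZero {X : Scheme.{u}} (M : X.Modules) (h : IsZero M) :
    SheafOfModules.IsFinitePresentation (R := X.ringCatSheaf) M := by
  refine fp_of_basis M (I := PUnit) (fun _ => ⊤) ?_ 0 fun _ => ⟨fun i => i.elim0, ?_⟩
  · rw [iSup_const]
  · intro V hV
    constructor
    · intro a b _
      funext i
      exact i.elim0
    · intro m
      refine ⟨fun i => i.elim0, ?_⟩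
      have h1 : (𝟙 M : M ⟶ M) = 0 := h.eq_of_src _ _
      have h2 : ∀ m : Γ(M, V), m = 0 := by
        intro m
        have h3 := congrArg (fun f => ap f V m) h1
        exact h3
      rw [h2 m]
      exact h2 _

end Pool.Agent.H52.DA
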