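import Pool.Agent.H52.DA.NDer
import Pool.Agent.H52.DA.NCech

/-!
On the projective plane in characteristic two the module `F_* O_X` does not generate the derived
category.
-/

set_option autoImplicit false

open CategoryTheory AlgebraicGeometry TopologicalSpace Opposite Abelian Limits
open Pool.Agent.H835R3 Pool.Agent.W506

attribute [local instance] MvPolynomial.gradedAlgebra
attribute [local instance] HasDerivedCategory.standard

namespace Pool.Agent.H52.DA

set_option backward.isDefEq.respectTransparency false

variable {k : Type} [Field k] (hX : HasChar (P2 k) 2)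

theorem not_classicallyGenerates : ¬ ClassicallyGenerates (FP hX) := by
  obtain ⟨L, e, hL⟩ := exists_represents (tw2 k)
  have hb : ∀ i : Fin 3, IsBasisOn (fun _ : Fin 1 => e i) := hL.basis (tw2 k)
  have hz : ¬ IsZero L := by
    intro h
    have h1 : (𝟙 L : L ⟶ L) = 0 := h.eq_of_src _ _
    have h2 : ∀ m : Γ(L, U2 k 0), m = 0 := by
      intro m
      exact congrArg (fun f => ap f (U2 k 0) m) h1
    have h3 := (hb 0 (U2 k 0) le_rfl).1 (a₁ := fun _ => 0) (a₂ := fun _ => 1)
      ((h2 _).trans (h2 _).symm)
    have h4 := nontrivial_U2 k 0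
    have h5 : (0 : Γ(P2 k, U2 k 0)) = 1 := congrFun h3 0
    exact zero_ne_one h5
  have hfp : SheafOfModules.IsFinitePresentation (R := (P2 k).ringCatSheaf) L :=
    fp_of_basis L (I := Fin 3) (U2 k) iSup_UU 1 (fun i => ⟨fun _ => e i, hb i⟩)
  have hext : HasExt.{0} (P2 k).Modules := hasExt_of_enoughInjectives _
  refine not_generates L (FP hX) hz hfp (noHom_of_ext L (FP hX) fun n => ?_)
  rcases n with _ | n
  · have h0 : ∀ f : L ⟶ FP hX, f = 0 := by
      intro f
      apply hL.unique
      intro j
      have hc : Compat (tw2 k).U (tw2 k).g (fun j => ap f _ (e j)) := by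
        intro i j
        rw [← ap_rs, hL.compat i j, map_smul, ap_rs]
      exact compat_frob hX _ hc j
    have h1 : Subsingleton (L ⟶ FP hX) := ⟨fun a b => by rw [h0 a, h0 b]⟩
    exact Ext.homEquiv₀.subsingleton
  · exact ext_vanish (tw2 k) hL n (FP hX) (kk_frob hX)

theorem not_isTilting : ¬ IsTilting (FP hX) := fun h => not_classicallyGenerates hX h.2

end Pool.Agent.H52.DA
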